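import Mathlib

/-!
Forms in three variables: dimensions, multiples of a form.
-/

set_option autoImplicit false
set_option linter.unusedSectionVars false

namespace Pool.Agent.H13.QP

open MvPolynomial Module Finset

/-- exponents of degree `m` -/
noncomputable def D (m : ℕ) : Finset (Fin 3 →₀ ℕ) := finsuppAntidiag (univ : Finset (Fin 3)) m

theorem mem_D {m : ℕ} {a : Fin 3 →₀ ℕ} : a ∈ D m ↔ a.degree = m := by
  simp [D, mem_finsuppAntidiag, Finsupp.degree_eq_sum]

theorem card_D' (m : ℕ) : 2 * (D m).card = (m + 1) * (m + 2) := by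
  have h1 : (D m).card = (m + 2).choose 2 := by
    rw [D, card_finsuppAntidiag_nat_eq_choose, card_univ, Fintype.card_fin]
    have h2 : 3 + m - 1 = m + 2 := by omega
    rw [h2, Nat.choose_symm_add]
  have h3 := Nat.ascFactorial_eq_factorial_mul_choose m 2
  rw [← h1] at h3
  simp only [Nat.ascFactorial, Nat.factorial] at h3
  rw [show (2 : ℕ) * (D m).card = (1 + 1) * ((0 + 1) * 1) * (D m).card by ring, ← h3]
  ring

theorem card_D (m : ℕ) : ((D m).card : ℝ) = (m + 1) * (m + 2) / 2 := by
  have h := card_D' m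
  have h1 : (2 : ℝ) * ((D m).card : ℝ) = (m + 1) * (m + 2) := by exact_mod_cast h
  linarith

theorem sum_D_swap (m : ℕ) (i j : Fin 3) : ∑ a ∈ D m, a i = ∑ a ∈ D m, a j := by
  refine Finset.sum_bij' (fun a _ => Finsupp.equivMapDomain (Equiv.swap i j) a)
    (fun a _ => Finsupp.equivMapDomain (Equiv.swap i j) a) ?_ ?_ ?_ ?_ ?_
  · intro a ha
    rw [mem_D, Finsupp.degree_eq_sum] at ha ⊢
    rw [← ha, ← Equiv.sum_comp (Equiv.swap i j)]
    simp [Finsupp.equivMapDomain_apply]
  · intro a ha
    rw [mem_D, Finsupp.degree_eq_sum] at ha ⊢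
    rw [← ha, ← Equiv.sum_comp (Equiv.swap i j)]
    simp [Finsupp.equivMapDomain_apply]
  · intro a _
    ext t
    simp [Finsupp.equivMapDomain_apply]
  · intro a _
    ext t
    simp [Finsupp.equivMapDomain_apply]
  · intro a _
    simp [Finsupp.equivMapDomain_apply]

theorem sum_D (m : ℕ) (i : Fin 3) : (∑ a ∈ D m, (a i : ℝ)) = m * ((D m).card : ℝ) / 3 := by
  have h1 : 3 * ∑ a ∈ D m, a i = m * (D m).card := by
    calc 3 * ∑ a ∈ D m, a i = ∑ j : Fin 3, ∑ a ∈ D m, a i := by simp
      _ = ∑ j : Fin 3, ∑ a ∈ D m, a j := sum_congr rfl fun j _ => sum_D_swap m i j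
      _ = ∑ a ∈ D m, ∑ j : Fin 3, a j := sum_comm
      _ = ∑ a ∈ D m, m := sum_congr rfl fun a ha => by
          rw [mem_D, Finsupp.degree_eq_sum] at ha
          exact ha
      _ = m * (D m).card := by rw [sum_const, smul_eq_mul, mul_comm]
  have h2 : (3 : ℝ) * ∑ a ∈ D m, (a i : ℝ) = m * ((D m).card : ℝ) := by exact_mod_cast h1
  linarith

section field

variable {k : Type} [Field k]

theorem monomial_li (m : ℕ) :
    LinearIndependent k (fun a : D m => (monomial (a : Fin 3 →₀ ℕ) (1 : k))) := by
  have h := (MvPolynomial.basisMonomials (Fin 3) k).linearIndependent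
  have h2 := h.comp (fun a : D m => (a : Fin 3 →₀ ℕ)) Subtype.val_injective
  rw [MvPolynomial.coe_basisMonomials] at h2
  exact h2

theorem hom_eq_span (m : ℕ) : homogeneousSubmodule (Fin 3) k m =
    Submodule.span k (Set.range fun a : D m => (monomial (a : Fin 3 →₀ ℕ) (1 : k))) := by
  apply le_antisymm
  · intro G hG
    rw [mem_homogeneousSubmodule] at hG
    rw [← MvPolynomial.support_sum_monomial_coeff G]
    refine Submodule.sum_mem _ fun a ha => ?_
    have h1 : monomial a (coeff a G) = coeff a G • monomial a (1 : k) := by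
      rw [smul_monomial, smul_eq_mul, mul_one]
    rw [h1]
    refine Submodule.smul_mem _ _ (Submodule.subset_span ⟨⟨a, mem_D.2 ?_⟩, rfl⟩)
    by_contra h2
    exact mem_support_iff.1 ha (hG.coeff_eq_zero h2)
  · rw [Submodule.span_le]
    rintro _ ⟨a, rfl⟩
    exact isHomogeneous_monomial _ (mem_D.1 a.2)

theorem finrank_hom (m : ℕ) :
    finrank k (homogeneousSubmodule (Fin 3) k m) = (D m).card := by
  rw [hom_eq_span, finrank_span_eq_card (monomial_li m), Fintype.card_coe]

instance finite_hom (m : ℕ) : Module.Finite k (homogeneousSubmodule (Fin 3) k m) := by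
  rw [hom_eq_span]
  exact FiniteDimensional.span_of_finite k (Set.finite_range _)

theorem hom_sum {m : ℕ} {g : MvPolynomial (Fin 3) k} (hg : g.IsHomogeneous m) :
    g = ∑ a ∈ D m, coeff a g • monomial a (1 : k) := by
  conv_lhs => rw [← MvPolynomial.support_sum_monomial_coeff g]
  refine (Finset.sum_subset (fun a ha => mem_D.2 ?_) fun a _ ha => ?_).trans
    (Finset.sum_congr rfl fun a _ => ?_)
  · by_contra h2
    exact mem_support_iff.1 ha (hg.coeff_eq_zero h2)
  · rw [notMem_support_iff.1 ha, map_zero]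
  · rw [smul_monomial, smul_eq_mul, mul_one]

/-- a homogeneous multiple of a form is the multiple by a form -/
theorem hom_factor {F Q : MvPolynomial (Fin 3) k} {e m : ℕ} (hF : F.IsHomogeneous e)
    (hk : e ≤ m) (h : (F * Q).IsHomogeneous m) :
    F * Q = F * homogeneousComponent (m - e) Q := by
  have h1 : homogeneousComponent m (F * Q) = F * Q := homogeneousComponent_eq_self h
  rw [← h1]
  conv_lhs => rw [← sum_homogeneousComponent Q, mul_sum, map_sum]
  have h2 : ∀ i, homogeneousComponent m (F * homogeneousComponent i Q) =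
      if m = e + i then F * homogeneousComponent i Q else 0 := fun i =>
    homogeneousComponent_of_mem (hF.mul (homogeneousComponent_isHomogeneous i Q))
  rw [sum_congr rfl fun i _ => h2 i]
  by_cases h3 : m - e ∈ range (Q.totalDegree + 1)
  · rw [sum_eq_single (m - e)]
    · rw [if_pos (by omega)]
    · intro i _ hi
      rw [if_neg (by omega)]
    · intro h4; exact absurd h3 h4
  · rw [homogeneousComponent_eq_zero _ _ (by rw [mem_range] at h3; omega), mul_zero]
    refine sum_eq_zero fun i hi => ?_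
    rw [mem_range] at hi h3
    rw [if_neg (by omega)]

/-- the forms of degree `m` which are divisible by `F` -/
def fm (F : MvPolynomial (Fin 3) k) (m : ℕ) : Submodule k (MvPolynomial (Fin 3) k) where
  carrier := {g | g.IsHomogeneous m ∧ F ∣ g}
  add_mem' := fun ha hb => ⟨ha.1.add hb.1, dvd_add ha.2 hb.2⟩
  zero_mem' := ⟨isHomogeneous_zero _ _ _, dvd_zero _⟩
  smul_mem' := fun c g hg => ⟨(homogeneousSubmodule (Fin 3) k m).smul_mem c hg.1, by
    rw [smul_eq_C_mul]; exact Dvd.dvd.mul_left hg.2 _⟩

theorem mem_fm {F g : MvPolynomial (Fin 3) k} {m : ℕ} :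
    g ∈ fm F m ↔ g.IsHomogeneous m ∧ F ∣ g := Iff.rfl

theorem fm_le (F : MvPolynomial (Fin 3) k) (m : ℕ) : fm F m ≤ homogeneousSubmodule (Fin 3) k m :=
  fun _ h => h.1

instance finite_fm (F : MvPolynomial (Fin 3) k) (m : ℕ) : Module.Finite k (fm F m) :=
  Submodule.finiteDimensional_of_le (fm_le F m)

/-- the dimension of the multiples of a form of degree `d` among the forms of degree `m` -/
noncomputable def fc (d m : ℕ) : ℕ := if d ≤ m then (D (m - d)).card else 0

theorem finrank_fm {F : MvPolynomial (Fin 3) k} {d : ℕ} (hF : F.IsHomogeneous d) (hF0 : F ≠ 0)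
    (m : ℕ) : finrank k (fm F m) = fc d m := by
  unfold fc
  split_ifs with hdm
  · have h1 : fm F m = (homogeneousSubmodule (Fin 3) k (m - d)).map (LinearMap.mulLeft k F) := by
      ext g
      rw [mem_fm, Submodule.mem_map]
      constructor
      · rintro ⟨hg, Q, rfl⟩
        exact ⟨homogeneousComponent (m - d) Q, homogeneousComponent_isHomogeneous _ _,
          (hom_factor hF hdm hg).symm⟩
      · rintro ⟨Q, hQ, rfl⟩
        have h2 := hF.mul (show Q.IsHomogeneous (m - d) from hQ)
        rw [Nat.add_sub_cancel' hdm] at h2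
        exact ⟨h2, dvd_mul_right _ _⟩
    have h2 : Function.Injective (LinearMap.mulLeft k F) := fun a b hab => mul_left_cancel₀ hF0 hab
    rw [h1, ← (Submodule.equivMapOfInjective _ h2 _).finrank_eq, finrank_hom]
  · rw [Submodule.finrank_eq_zero, eq_bot_iff]
    rintro g ⟨hg, Q, rfl⟩
    rw [Submodule.mem_bot]
    by_contra hne
    have hQ0 : Q ≠ 0 := right_ne_zero_of_mul hne
    have h1 := hg.totalDegree hne
    rw [totalDegree_mul_of_isDomain hF0 hQ0, hF.totalDegree hF0] at h1
    omega

theorem fm_zero (m : ℕ) : fm (0 : MvPolynomial (Fin 3) k) m = ⊥ := by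
  rw [eq_bot_iff]
  rintro g ⟨-, hg⟩
  rw [Submodule.mem_bot]
  exact zero_dvd_iff.1 hg

end field

end Pool.Agent.H13.QP
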