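import Mathlib
import Pool.Agent.H13.QP.Hom

/-!
Two coprime forms in three variables have finitely many common rational zeros.
-/

set_option autoImplicit false
set_option linter.unusedSectionVars false

namespace Pool.Agent.H13.QP

open MvPolynomial Module Finset

section

variable {k : Type} [Field k]

/-- restriction to a line through the origin -/
noncomputable def ln (f : Fin 3 → k) : MvPolynomial (Fin 3) k →ₐ[k] Polynomial k :=
  aeval fun i => Polynomial.C (f i) * Polynomial.X

theorem ln_hom (f : Fin 3 → k) {d : ℕ} {g : MvPolynomial (Fin 3) k} (hg : g.IsHomogeneous d) :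
    ln f g = Polynomial.C (eval f g) * Polynomial.X ^ d := by
  rw [hom_sum hg, map_sum, map_sum, map_sum, Finset.sum_mul]
  refine Finset.sum_congr rfl fun a ha => ?_
  rw [mem_D, Finsupp.degree_eq_sum] at ha
  rw [map_smul, ← ha]
  simp only [ln, aeval_monomial, eval_monomial, smul_eval, Finsupp.prod_fintype, pow_zero,
    implies_true, mul_pow, Finset.prod_mul_distrib, Finset.prod_pow_eq_pow_sum, map_one, one_mul,
    Algebra.smul_def, map_mul, map_prod, map_pow]
  rw [mul_assoc, MvPolynomial.algebraMap_eq, eval_C]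
  rfl

/-- the ideal of a line through the origin -/
noncomputable def il (f : Fin 3 → k) : Ideal (MvPolynomial (Fin 3) k) := RingHom.ker (ln f).toRingHom

instance il_prime (f : Fin 3 → k) : (il f).IsPrime := RingHom.ker_isPrime _

theorem mem_il (f : Fin 3 → k) (g : MvPolynomial (Fin 3) k) : g ∈ il f ↔ ln f g = 0 := Iff.rfl

theorem mem_il_hom (f : Fin 3 → k) {d : ℕ} {g : MvPolynomial (Fin 3) k} (hg : g.IsHomogeneous d) :
    g ∈ il f ↔ eval f g = 0 := by
  rw [mem_il, ln_hom f hg]
  simp

theorem minor_mem (f : Fin 3 → k) (i j : Fin 3) : C (f j) * X i - C (f i) * X j ∈ il f := by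
  rw [mem_il]
  simp [ln]
  ring

theorem il_eq_span (f : Fin 3 → k) (j : Fin 3) (hj : f j ≠ 0) :
    il f = Ideal.span ((fun i => C (f j) * X i - C (f i) * X j) '' {i | i ≠ j}) := by
  classical
  set J := Ideal.span ((fun i => C (f j) * X i - C (f i) * X j) '' {i | i ≠ j}) with hJ
  apply le_antisymm
  · intro g hg
    rw [mem_il] at hg
    -- a retraction
    let ψ : Polynomial k →ₐ[k] (MvPolynomial (Fin 3) k ⧸ J) :=
      Polynomial.aeval (Ideal.Quotient.mk J (C (f j)⁻¹ * X j))
    have h1 : ψ.comp (ln f) = Ideal.Quotient.mkₐ k J := by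
      apply MvPolynomial.algHom_ext
      intro i
      have h2 : ψ (ln f (X i)) = Ideal.Quotient.mk J (C (f i) * (C (f j)⁻¹ * X j)) := by
        simp only [ln, aeval_X, map_mul, ψ, Polynomial.aeval_X, Polynomial.aeval_C]
        rfl
      rw [AlgHom.comp_apply, h2]
      show _ = Ideal.Quotient.mk J (X i)
      rw [Ideal.Quotient.eq]
      by_cases hij : i = j
      · subst hij
        have h3 : C (f i) * (C (f i)⁻¹ * X i) - X i = (0 : MvPolynomial (Fin 3) k) := by
          rw [← mul_assoc, ← C_mul, mul_inv_cancel₀ hj, C_1, one_mul, sub_self]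
        rw [h3]
        exact J.zero_mem
      · have h3 : C (f i) * (C (f j)⁻¹ * X j) - X i =
            - C (f j)⁻¹ * (C (f j) * X i - C (f i) * X j) := by
          have h4 : C (f j)⁻¹ * C (f j) = (1 : MvPolynomial (Fin 3) k) := by
            rw [← C_mul, inv_mul_cancel₀ hj, C_1]
          linear_combination (X i) * h4
        rw [h3]
        exact J.mul_mem_left _ (Ideal.subset_span ⟨i, hij, rfl⟩)
    have h2 := congrArg (fun φ : MvPolynomial (Fin 3) k →ₐ[k] _ => φ g) h1
    simp only [AlgHom.comp_apply, hg, map_zero] at h2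
    exact Ideal.Quotient.eq_zero_iff_mem.1 h2.symm
  · rw [hJ, Ideal.span_le]
    rintro _ ⟨i, -, rfl⟩
    exact minor_mem f i j

theorem height_il (f : Fin 3 → k) (hf : f ≠ 0) : (il f).height ≤ 2 := by
  classical
  obtain ⟨j, hj⟩ := Function.ne_iff.1 hf
  have h1 := il_eq_span f j hj
  set s : Set (MvPolynomial (Fin 3) k) := (fun i => C (f j) * X i - C (f i) * X j) '' {i | i ≠ j}
    with hs
  have h2 : il f ∈ (Ideal.span s).minimalPrimes := by
    rw [← h1, Ideal.minimalPrimes_eq_subsingleton_self]
    exact Set.mem_singleton _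
  have hsf : s.Finite := Set.toFinite _
  refine (Ideal.height_le_card_of_mem_minimalPrimes_span hsf h2).trans ?_
  have h3 : s.ncard ≤ 2 := by
    refine (Set.ncard_image_le (Set.toFinite _)).trans ?_
    have h4 : {i : Fin 3 | i ≠ j} = ((univ.erase j : Finset (Fin 3)) : Set (Fin 3)) := by
      ext i
      simp
    rw [h4, Set.ncard_coe_finset, Finset.card_erase_of_mem (Finset.mem_univ _), Finset.card_univ,
      Fintype.card_fin]
  exact_mod_cast h3

theorem bez_min {F H : MvPolynomial (Fin 3) k} (hF : Irreducible F) {d e : ℕ}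
    (hFd : F.IsHomogeneous d) (hHe : H.IsHomogeneous e) (hFH : ¬ F ∣ H) (f : Fin 3 → k)
    (hf : f ≠ 0) (h1 : eval f F = 0) (h2 : eval f H = 0) :
    il f ∈ (Ideal.span {F, H}).minimalPrimes := by
  have hle : Ideal.span {F, H} ≤ il f := by
    rw [Ideal.span_le]
    rintro g (rfl | rfl)
    · exact (mem_il_hom f hFd).2 h1
    · exact (mem_il_hom f hHe).2 h2
  obtain ⟨Q, hQ, hQle⟩ := Ideal.exists_minimalPrimes_le hle
  have hQp : Q.IsPrime := hQ.1.1
  rcases hQle.eq_or_lt with h | hlt
  · rw [← h]; exact hQ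
  exfalso
  have hFp : (Ideal.span {F}).IsPrime := (Ideal.span_singleton_prime hF.ne_zero).2 hF.prime
  have h3 : (⊥ : Ideal (MvPolynomial (Fin 3) k)) < Ideal.span {F} := by
    rw [bot_lt_iff_ne_bot, Ne, Ideal.span_singleton_eq_bot]
    exact hF.ne_zero
  have hHQ : H ∈ Q := hQ.1.2 (Ideal.subset_span (by simp))
  have hFQ : F ∈ Q := hQ.1.2 (Ideal.subset_span (by simp))
  have h4 : Ideal.span {F} < Q := by
    refine lt_of_le_of_ne ?_ ?_
    · rw [Ideal.span_singleton_le_iff_mem]
      exact hFQ
    · intro h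
      apply hFH
      rw [← Ideal.mem_span_singleton, h]
      exact hHQ
  have h5 := Ideal.height_add_one_le_of_lt_of_isPrime h3
  have h6 := Ideal.height_add_one_le_of_lt_of_isPrime h4
  have h7 := Ideal.height_add_one_le_of_lt_of_isPrime hlt
  have h8 := height_il f hf
  have h9 : (3 : ℕ∞) ≤ (il f).height := by
    calc (3 : ℕ∞) = 0 + 1 + 1 + 1 := by norm_num
      _ ≤ (Ideal.span {F}).height + 1 + 1 := by
          gcongr
          exact le_trans (by gcongr; exact zero_le) h5
      _ ≤ Q.height + 1 := by gcongr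
      _ ≤ _ := h7
  have h10 : (3 : ℕ∞) ≤ 2 := h9.trans h8
  exact absurd h10 (by decide)

theorem il_eq {f g : Fin 3 → k} (h : il f = il g) (i j : Fin 3) : f j * g i = f i * g j := by
  have h1 := minor_mem f i j
  rw [h, mem_il] at h1
  simp only [ln, map_sub, map_mul, aeval_C, aeval_X] at h1
  have h2 := congrArg (Polynomial.eval 1) h1
  simp at h2
  exact sub_eq_zero.1 h2

end

end Pool.Agent.H13.QP
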