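import Mathlib
import Pool.Agent.H13.QP.Bez

/-!
Coordinates on the forms of degree `n` modulo a rational form.
-/

set_option autoImplicit false
set_option linter.unusedSectionVars false

namespace Pool.Agent.H13.QP

open MvPolynomial Module Finset

variable {K : Type} [Field K] [Algebra ℚ K]

/-- the base change of a rational form -/
noncomputable abbrev bc (K : Type) [Field K] [Algebra ℚ K] (F : MvPolynomial (Fin 3) ℚ) :
    MvPolynomial (Fin 3) K := map (algebraMap ℚ K) F

/-- rational coordinates on the forms of degree `n` modulo `F` -/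
structure Sys (K : Type) [Field K] [Algebra ℚ K] (F : MvPolynomial (Fin 3) ℚ) (n N : ℕ) where
  /-- the rational forms -/
  G : Fin N → MvPolynomial (Fin 3) ℚ
  hG : ∀ i, (G i).IsHomogeneous n
  hind : ∀ z : Fin N → ℚ, z ≠ 0 → ¬ F ∣ ∑ i, C (z i) * G i
  hmono : ∀ a ∈ D n, ∃ z : Fin N → ℚ, F ∣ monomial a 1 - ∑ i, C (z i) * G i
  /-- the coordinates -/
  u : MvPolynomial (Fin 3) K →ₗ[K] (Fin N → K)
  hu : ∀ g : MvPolynomial (Fin 3) K, g.IsHomogeneous n →
    bc K F ∣ g - ∑ i, C (u g i) * bc K (G i)
  hk : ∀ g : MvPolynomial (Fin 3) K, g.IsHomogeneous n → (u g = 0 ↔ bc K F ∣ g)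
  hs : ∀ y : Fin N → K, ∃ g : MvPolynomial (Fin 3) K, g.IsHomogeneous n ∧ u g = y

theorem exists_sys (F : MvPolynomial (Fin 3) ℚ) {d : ℕ} (hF : F = 0 ∨ F.IsHomogeneous d) (n N : ℕ)
    (hN : N + finrank ℚ (fm F n) = (D n).card) : Nonempty (Sys K F n N) := by
  classical
  set V := homogeneousSubmodule (Fin 3) ℚ n with hV
  set W : Submodule ℚ V := (fm F n).comap V.subtype with hW
  have hWf : finrank ℚ W = finrank ℚ (fm F n) := by
    have h1 : (fm F n).comap V.subtype ≃ₗ[ℚ] fm F n :=
      Submodule.comapSubtypeEquivOfLe (fm_le F n)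
    exact h1.finrank_eq
  have hVf : finrank ℚ V = (D n).card := finrank_hom n
  have hq : finrank ℚ (V ⧸ W) = N := by
    have := Submodule.finrank_quotient_add_finrank W
    omega
  let b : Basis (Fin N) ℚ (V ⧸ W) := (finBasis ℚ (V ⧸ W)).reindex (finCongr hq)
  choose G hG using fun i => Submodule.Quotient.mk_surjective W (b i)
  let c : V →ₗ[ℚ] (Fin N → ℚ) := b.equivFun.toLinearMap.comp W.mkQ
  have hc : ∀ g : V, F ∣ g.1 - ∑ i, C (c g i) * (G i).1 := by
    intro g
    have h1 : g - ∑ i, c g i • G i ∈ W := by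
      rw [← Submodule.Quotient.mk_eq_zero, Submodule.Quotient.mk_sub]
      have h2 : Submodule.Quotient.mk (p := W) (∑ i, c g i • G i) = ∑ i, c g i • b i := by
        have h3 : W.mkQ (∑ i, c g i • G i) = ∑ i, c g i • W.mkQ (G i) := by
          rw [map_sum]
          exact Finset.sum_congr rfl fun i _ => map_smul _ _ _
        have h4 : ∀ i, W.mkQ (G i) = b i := hG
        simp only [h4] at h3
        exact h3
      rw [h2]
      have h5 := b.sum_equivFun (Submodule.Quotient.mk g)
      have h6 : ∀ i, c g i = b.equivFun (Submodule.Quotient.mk g) i := fun i => rfl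
      simp only [h6]
      rw [h5, sub_self]
    have h2 : (g - ∑ i, c g i • G i : V).1 = g.1 - ∑ i, C (c g i) * (G i).1 := by
      simp [smul_eq_C_mul]
    have h3 := (mem_fm.1 (Submodule.mem_comap.1 h1)).2
    rw [← h2]
    exact h3
  have hc0 : ∀ g : V, F ∣ g.1 → c g = 0 := by
    intro g hg
    have h1 : g ∈ W := by
      rw [hW, Submodule.mem_comap, mem_fm]
      exact ⟨g.2, hg⟩
    show b.equivFun (Submodule.Quotient.mk g) = 0
    rw [(Submodule.Quotient.mk_eq_zero W).2 h1, map_zero]
  have hcG : ∀ j, c (G j) = Pi.single j 1 := by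
    intro j
    show b.equivFun (Submodule.Quotient.mk (G j)) = _
    rw [hG j]
    funext i
    simp [Finsupp.single_apply, Pi.single_apply, eq_comm]
  let mo : (Fin 3 →₀ ℕ) → V := fun a =>
    if h : a ∈ D n then ⟨monomial a 1, isHomogeneous_monomial _ (mem_D.1 h)⟩ else 0
  let u : MvPolynomial (Fin 3) K →ₗ[K] (Fin N → K) :=
    ∑ a ∈ D n, (MvPolynomial.lcoeff K a).smulRight (fun i => algebraMap ℚ K (c (mo a) i))
  have hua : ∀ g i, u g i = ∑ a ∈ D n, coeff a g * algebraMap ℚ K (c (mo a) i) := by
    intro g i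
    simp only [u, LinearMap.sum_apply, Finset.sum_apply, LinearMap.smulRight_apply, Pi.smul_apply,
      smul_eq_mul]
    rfl
  have hu : ∀ g : MvPolynomial (Fin 3) K, g.IsHomogeneous n →
      bc K F ∣ g - ∑ i, C (u g i) * bc K (G i).1 := by
    intro g hg
    have h1 : g - ∑ i, C (u g i) * bc K (G i).1 = ∑ a ∈ D n, C (coeff a g) *
        bc K (monomial a 1 - ∑ i, C (c (mo a) i) * (G i).1) := by
      conv_lhs => rw [hom_sum hg]
      have h2 : ∀ i, u g i = ∑ a ∈ D n, coeff a g * algebraMap ℚ K (c (mo a) i) := hua g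
      rw [← hom_sum hg]
      conv_lhs => rw [hom_sum hg]
      simp only [← hom_sum hg, h2]
      simp only [map_sub, map_sum, map_mul, map_C, map_monomial, map_one, mul_sub,
        Finset.sum_sub_distrib, Finset.mul_sum, Finset.sum_mul]
      congr 1
      · conv_lhs => rw [hom_sum hg]
        refine Finset.sum_congr rfl fun a _ => ?_
        rw [smul_eq_C_mul]
      · rw [Finset.sum_comm]
        refine Finset.sum_congr rfl fun a _ => Finset.sum_congr rfl fun i _ => ?_
        ring
    rw [h1]
    refine Finset.dvd_sum fun a ha => Dvd.dvd.mul_left (map_dvd _ ?_) _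
    have h2 := hc (mo a)
    have h3 : (mo a).1 = monomial a 1 := by
      simp only [mo, ha, dif_pos]
    rwa [h3] at h2
  have hur : ∀ g : V, u (bc K g.1) = fun i => algebraMap ℚ K (c g i) := by
    intro g
    funext i
    have h1 : c g = ∑ a ∈ D n, coeff a g.1 • c (mo a) := by
      have h2 : g = ∑ a ∈ D n, coeff a g.1 • mo a := by
        apply Subtype.ext
        rw [AddSubmonoidClass.coe_finsetSum]
        conv_lhs => rw [hom_sum g.2]
        refine Finset.sum_congr rfl fun a ha => ?_
        simp only [mo, ha, dif_pos, Submodule.coe_smul]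
      conv_lhs => rw [h2]
      rw [map_sum]
      exact Finset.sum_congr rfl fun a _ => map_smul _ _ _
    rw [hua, h1, Finset.sum_apply, map_sum]
    refine Finset.sum_congr rfl fun a _ => ?_
    rw [Pi.smul_apply, smul_eq_mul, map_mul, coeff_map]
  have huG : ∀ j, u (bc K (G j).1) = Pi.single j 1 := by
    intro j
    rw [hur, hcG]
    funext i
    by_cases h : i = j
    · subst h; simp
    · simp [h]
  have hGK : ∀ j, (bc K (G j).1).IsHomogeneous n := fun j => (G j).2.map _
  have hsurj : ∀ y : Fin N → K, ∃ g : MvPolynomial (Fin 3) K, g.IsHomogeneous n ∧ u g = y := by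
    intro y
    refine ⟨∑ j, y j • bc K (G j).1, ?_, ?_⟩
    · exact Submodule.sum_mem (homogeneousSubmodule (Fin 3) K n) fun j _ =>
        Submodule.smul_mem _ _ (hGK j)
    · rw [map_sum]
      simp only [map_smul, huG]
      funext i
      rw [Finset.sum_apply, Finset.sum_eq_single i]
      · simp
      · intro j _ hj
        simp [Ne.symm hj]
      · intro h
        exact absurd (Finset.mem_univ _) h
  refine ⟨⟨fun i => (G i).1, fun i => (G i).2, ?_, ?_, u, hu, ?_, hsurj⟩⟩
  · intro z hz hdvd
    apply hz
    have h1 : (∑ i, z i • G i : V).1 = ∑ i, C (z i) * (G i).1 := by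
      simp [smul_eq_C_mul]
    rw [← h1] at hdvd
    have h2 := hc0 _ hdvd
    rw [map_sum] at h2
    simp only [map_smul, hcG] at h2
    funext i
    have h3 := congrFun h2 i
    rw [Finset.sum_apply, Finset.sum_eq_single i] at h3
    · simpa using h3
    · intro j _ hj
      simp [Ne.symm hj]
    · intro h
      exact absurd (Finset.mem_univ _) h
  · intro a ha
    have h2 := hc (mo a)
    have h3 : (mo a).1 = monomial a 1 := by
      simp only [mo, ha, dif_pos]
    exact ⟨c (mo a), by rwa [h3] at h2⟩
  · -- the kernel, by dimensions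
    set VK := homogeneousSubmodule (Fin 3) K n with hVK
    set uV : VK →ₗ[K] (Fin N → K) := u.domRestrict VK with huV
    have hrange : LinearMap.range uV = ⊤ := by
      rw [LinearMap.range_eq_top]
      intro y
      obtain ⟨g, hg, rfl⟩ := hsurj y
      exact ⟨⟨g, hg⟩, rfl⟩
    have h1 := LinearMap.finrank_range_add_finrank_ker uV
    rw [hrange, finrank_top, finrank_fin_fun, finrank_hom] at h1
    set WK : Submodule K VK := (fm (bc K F) n).comap VK.subtype with hWK
    have hWKf : finrank K WK = finrank K (fm (bc K F) n) := by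
      have h1 : (fm (bc K F) n).comap VK.subtype ≃ₗ[K] fm (bc K F) n :=
        Submodule.comapSubtypeEquivOfLe (fm_le _ n)
      exact h1.finrank_eq
    have hdim : finrank K (fm (bc K F) n) = finrank ℚ (fm F n) := by
      by_cases hF0 : F = 0
      · subst hF0
        have e1 : bc K (0 : MvPolynomial (Fin 3) ℚ) = 0 := map_zero _
        rw [e1, fm_zero, fm_zero, finrank_bot, finrank_bot]
      · have hF' := hF.resolve_left hF0
        have hinj : Function.Injective (algebraMap ℚ K) := (algebraMap ℚ K).injective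
        have hFK0 : bc K F ≠ 0 := by
          intro h
          exact hF0 (MvPolynomial.map_injective _ hinj (h.trans (map_zero _).symm))
        rw [finrank_fm (hF'.map _) hFK0, finrank_fm hF' hF0]
    have hle : LinearMap.ker uV ≤ WK := by
      intro g hg
      rw [hWK, Submodule.mem_comap, mem_fm]
      refine ⟨g.2, ?_⟩
      have h2 := hu g.1 g.2
      have h3 : u g.1 = 0 := hg
      simp only [h3, Pi.zero_apply, map_zero, zero_mul, Finset.sum_const_zero, sub_zero] at h2
      exact h2
    have heq : LinearMap.ker uV = WK := by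
      apply Submodule.eq_of_le_of_finrank_eq hle
      rw [hWKf, hdim]
      omega
    intro g hg
    constructor
    · intro h
      have h2 : (⟨g, hg⟩ : VK) ∈ WK := by
        rw [← heq]
        exact h
      exact (mem_fm.1 (Submodule.mem_comap.1 h2)).2
    · intro h
      have h2 : (⟨g, hg⟩ : VK) ∈ LinearMap.ker uV := by
        rw [heq, hWK, Submodule.mem_comap, mem_fm]
        exact ⟨hg, h⟩
      exact h2

end Pool.Agent.H13.QP
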