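import Mathlib
import Pool.Agent.H13.QP.Sys
import Pool.Agent.H13.WS.Loc

/-!
The subspace theorem for the forms of degree `n` modulo a rational form.
-/

set_option autoImplicit false
set_option linter.unusedSectionVars false

namespace Pool.Agent.H13.QP

open MvPolynomial Module Finset
open NumberField IsDedekindDomain Height
open Pool.Agent.R405 (exv dot Good schV)
open Pool.Agent.W180.OP (Pl av wt nrm le_nrm nrm_pos nrm_nonneg exists_nrm wt_nonneg)

variable {K : Type} [Field K] [NumberField K]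

theorem eval_bc (F : MvPolynomial (Fin 3) ℚ) (x : Fin 3 → ℚ) :
    eval (exv K x) (bc K F) = algebraMap ℚ K (eval x F) := by
  have h1 : exv K x = fun i => algebraMap ℚ K (x i) := rfl
  rw [h1, bc, eval_map]
  have h2 := MvPolynomial.eval₂_comp_left (algebraMap ℚ K) (RingHom.id ℚ) x F
  rw [RingHom.comp_id] at h2
  exact h2.symm

/-- the rational components of a form -/
theorem comps {n : ℕ} (g : MvPolynomial (Fin 3) K) (hg : g.IsHomogeneous n) :
    ∃ (ι : Type) (_ : Fintype ι) (b : Basis ι ℚ K) (c : ι → MvPolynomial (Fin 3) ℚ),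
      (∀ j, (c j).IsHomogeneous n) ∧ g = ∑ j, C (b j) * bc K (c j) := by
  classical
  refine ⟨Fin (finrank ℚ K), inferInstance, finBasis ℚ K, fun j => ∑ a ∈ D n, monomial a ((finBasis ℚ K).repr (coeff a g) j),
    fun j => ?_, ?_⟩
  · exact Submodule.sum_mem (homogeneousSubmodule (Fin 3) ℚ n) fun a ha =>
      isHomogeneous_monomial _ (mem_D.1 ha)
  · conv_lhs => rw [hom_sum hg]
    simp only [map_sum, map_monomial, Finset.mul_sum]
    rw [Finset.sum_comm]
    refine Finset.sum_congr rfl fun a _ => ?_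
    have h1 := (finBasis ℚ K).sum_repr (coeff a g)
    conv_lhs => rw [← h1]
    rw [Finset.sum_smul]
    refine Finset.sum_congr rfl fun j _ => ?_
    rw [smul_monomial, C_mul_monomial, smul_eq_mul, mul_one, Algebra.smul_def, mul_comm]

/-- a form over `K` not divisible by the rational form `F` -/
theorem comp_ne {F : MvPolynomial (Fin 3) ℚ} {n : ℕ} (g : MvPolynomial (Fin 3) K)
    (hg : g.IsHomogeneous n) (hF : ¬ bc K F ∣ g) : ∃ z : MvPolynomial (Fin 3) ℚ,
      z.IsHomogeneous n ∧ ¬ F ∣ z ∧ ∀ x : Fin 3 → ℚ, eval x z ≠ 0 → eval (exv K x) g ≠ 0 := by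
  classical
  obtain ⟨ι, _, b, c, hc, hgc⟩ := comps g hg
  have h1 : ∃ j, ¬ F ∣ c j := by
    by_contra h
    push Not at h
    apply hF
    rw [hgc]
    exact Finset.dvd_sum fun j _ => Dvd.dvd.mul_left (map_dvd _ (h j)) _
  obtain ⟨j, hj⟩ := h1
  refine ⟨c j, hc j, hj, fun x hx h0 => hx ?_⟩
  rw [hgc, map_sum] at h0
  simp only [map_mul, eval_C, eval_bc] at h0
  have h2 : ∑ j, (eval x (c j)) • b j = 0 := by
    rw [← h0]
    refine Finset.sum_congr rfl fun j _ => ?_
    rw [Algebra.smul_def, mul_comm]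
  exact Fintype.linearIndependent_iff.1 b.linearIndependent _ h2 j

variable {F : MvPolynomial (Fin 3) ℚ} {n N : ℕ}

theorem Sys.eval_eq (Y : Sys K F n N) (g : MvPolynomial (Fin 3) K) (hg : g.IsHomogeneous n)
    (x : Fin 3 → ℚ) (hx : eval x F = 0) :
    eval (exv K x) g = dot (Y.u g) (exv K fun i => eval x (Y.G i)) := by
  have h1 := Y.hu g hg
  obtain ⟨Q, hQ⟩ := h1
  have h2 := congrArg (eval (exv K x)) hQ
  rw [map_mul, eval_bc, hx, map_zero, zero_mul, map_sub, map_sum] at h2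
  simp only [map_mul, eval_C, eval_bc] at h2
  exact sub_eq_zero.1 h2

theorem Sys.norm_le (Y : Sys K F n N) (w : AbsoluteValue ℚ ℝ) : ∃ c : ℝ, 0 < c ∧
    ∀ x : Fin 3 → ℚ, eval x F = 0 → nrm w x ^ n ≤ c * nrm w fun i => eval x (Y.G i) := by
  classical
  have h1 : ∀ j : Fin 3, Finsupp.single j n ∈ D n := fun j => by
    rw [mem_D, Finsupp.degree_single]
  choose z hz using fun j => Y.hmono _ (h1 j)
  refine ⟨1 + ∑ j, ∑ i, w (z j i), ?_, fun x hx => ?_⟩
  · have : 0 ≤ ∑ j, ∑ i, w (z j i) := Finset.sum_nonneg fun j _ =>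
      Finset.sum_nonneg fun i _ => w.nonneg _
    linarith
  · obtain ⟨j, hj⟩ := exists_nrm w (n := 3) (by norm_num) x
    set X := fun i => eval x (Y.G i) with hX
    have hX0 : 0 ≤ nrm w X := nrm_nonneg w X
    obtain ⟨Q, hQ⟩ := hz j
    have h2 := congrArg (eval x) hQ
    rw [map_mul, hx, zero_mul, map_sub, map_sum] at h2
    simp only [map_mul, eval_C, eval_monomial, one_mul] at h2
    rw [Finsupp.prod_single_index (by simp)] at h2
    have h3 : x j ^ n = ∑ i, z j i * X i := sub_eq_zero.1 h2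
    rw [← hj, ← map_pow, h3]
    refine (w.sum_le _ _).trans ?_
    have h4 : ∑ i, w (z j i * X i) ≤ (∑ i, w (z j i)) * nrm w X := by
      rw [Finset.sum_mul]
      refine Finset.sum_le_sum fun i _ => ?_
      rw [map_mul]
      exact mul_le_mul_of_nonneg_left (le_nrm w X i) (w.nonneg _)
    refine h4.trans (mul_le_mul_of_nonneg_right ?_ hX0)
    have h5 : ∑ i, w (z j i) ≤ ∑ j, ∑ i, w (z j i) :=
      Finset.single_le_sum (f := fun j => ∑ i, w (z j i))
        (fun j _ => Finset.sum_nonneg fun i _ => w.nonneg _) (Finset.mem_univ j)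
    linarith

/-- **the subspace theorem for the forms of degree `n` modulo `F`** -/
theorem sub_sys [IsGalois ℚ K] (hi : ∃ z : K, z ^ 2 = -1) (hN : 1 ≤ N) (Y : Sys K F n N)
    {ι : Type} [Fintype ι] [DecidableEq ι] (M : ι → MvPolynomial (Fin 3) K)
    (hM : ∀ l, (M l).IsHomogeneous n) :
    ∃ Z : Finset (MvPolynomial (Fin 3) ℚ), (∀ z ∈ Z, z.IsHomogeneous n ∧ ¬ F ∣ z) ∧
      ∀ (S : Finset (Pl ℚ)) (f : Pl ℚ → AbsoluteValue K ℝ), (∀ v ∈ S, Good v (f v)) →
      ∀ ε : ℝ, 0 < ε → ∃ C : ℝ, 0 ≤ C ∧ ∀ x : Fin 3 → ℚ, x ≠ 0 → eval x F = 0 →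
        (∀ z ∈ Z, eval x z ≠ 0) → ∀ β : Pl ℚ → Fin N → ι,
        (∀ v ∈ S, LinearIndependent K fun a => Y.u (M (β v a))) →
        ∑ v ∈ S, wt v * ∑ a, (n * Real.log (nrm (av v) x) -
          Real.log (f v (eval (exv K x) (M (β v a))))) ≤ (N + ε) * (n * logHeight x) + C := by
  classical
  set ι' := {l : ι // Y.u (M l) ≠ 0} with hι'
  obtain ⟨Z0, hZ0, hsch⟩ := schV (k := ℚ) (K := K) hi hN (fun l : ι' => Y.u (M l.1))
  have hz : ∀ l : ι', ∃ z : MvPolynomial (Fin 3) ℚ,
      z.IsHomogeneous n ∧ ¬ F ∣ z ∧ ∀ x : Fin 3 → ℚ, eval x z ≠ 0 → eval (exv K x) (M l.1) ≠ 0 :=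
    fun l => comp_ne (M l.1) (hM _) fun h => l.2 ((Y.hk _ (hM _)).2 h)
  choose zl hzl1 hzl2 hzl3 using hz
  refine ⟨Z0.image (fun z => ∑ i, C (z i) * Y.G i) ∪ univ.image zl, ?_, ?_⟩
  · intro z hz
    rcases Finset.mem_union.1 hz with hz | hz
    · obtain ⟨y, hy, rfl⟩ := Finset.mem_image.1 hz
      exact ⟨Submodule.sum_mem (homogeneousSubmodule (Fin 3) ℚ n) fun i _ => (Y.hG i).C_mul _,
        Y.hind y (hZ0 y hy)⟩
    · obtain ⟨l, -, rfl⟩ := Finset.mem_image.1 hz
      exact ⟨hzl1 l, hzl2 l⟩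
  intro S f hf ε hε
  obtain ⟨C1, hC1, hmain⟩ := hsch S f hf ε hε
  have : Nonempty (Fin N) := ⟨⟨0, hN⟩⟩
  obtain ⟨C2, hC2⟩ := logHeight_eval_le' (K := ℚ) (ι := Fin 3) (ι' := Fin N) Y.hG
  choose c hc0 hc using fun v : Pl ℚ => Y.norm_le (av v)
  set C3 : ℝ := ∑ v ∈ S, wt v * (N * |Real.log (c v)|) with hC3
  have hC30 : 0 ≤ C3 := Finset.sum_nonneg fun v _ => mul_nonneg (wt_nonneg v)
    (mul_nonneg (Nat.cast_nonneg _) (abs_nonneg _))
  refine ⟨C1 + (N + ε) * |C2| + C3, by positivity, fun x hx hxF hxZ β hβ => ?_⟩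
  have hlh : 0 ≤ logHeight x := logHeight_nonneg x
  by_cases hne : Nonempty ι'
  swap
  · have hSe : S = ∅ := by
      by_contra h
      obtain ⟨v, hv⟩ := Finset.nonempty_iff_ne_empty.2 h
      exact hne ⟨⟨β v ⟨0, hN⟩, (hβ v hv).ne_zero _⟩⟩
    rw [hSe, Finset.sum_empty]
    positivity
  obtain ⟨l0⟩ := hne
  set X : Fin N → ℚ := fun i => eval x (Y.G i) with hX
  have hX0 : X ≠ 0 := by
    intro h0
    have h1 := hc (Sum.inl Rat.infinitePlace) x hxF
    rw [← hX, h0] at h1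
    have h2 : nrm (av (Sum.inl Rat.infinitePlace : Pl ℚ)) (0 : Fin N → ℚ) = 0 := by
      unfold nrm
      simp
    rw [h2, mul_zero] at h1
    have h3 := pow_pos (nrm_pos (av (Sum.inl Rat.infinitePlace : Pl ℚ)) hx) n
    linarith
  set β' : Pl ℚ → Fin N → ι' := fun v a => if h : Y.u (M (β v a)) ≠ 0 then ⟨β v a, h⟩ else l0
    with hβ'
  have hββ : ∀ v ∈ S, ∀ a, (β' v a).1 = β v a := by
    intro v hv a
    have h1 : Y.u (M (β v a)) ≠ 0 := (hβ v hv).ne_zero a
    simp only [hβ', h1, ne_eq, not_false_eq_true, dif_pos]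
  have h1 := hmain X hX0 (fun z hz => by
      have h2 := hxZ _ (Finset.mem_union_left _ (Finset.mem_image_of_mem _ hz))
      rw [map_sum] at h2
      simp only [map_mul, eval_C] at h2
      exact h2) (fun l => by
      have h2 := hzl3 l x (hxZ _ (Finset.mem_union_right _
        (Finset.mem_image_of_mem _ (Finset.mem_univ l))))
      rwa [Y.eval_eq _ (hM _) x hxF] at h2) β' (fun v hv => by
      have h2 : LinearIndependent K fun a => Y.u (M (β' v a).1) := by
        have h3 : (fun a => Y.u (M (β' v a).1)) = fun a => Y.u (M (β v a)) := by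
          funext a
          rw [hββ v hv a]
        rw [h3]
        exact hβ v hv
      have h3 := Matrix.linearIndependent_rows_iff_isUnit.1
        (show LinearIndependent K (Matrix.of fun a => Y.u (M (β' v a).1)).row from h2)
      exact ((Matrix.isUnit_iff_isUnit_det _).1 h3).ne_zero)
  have h2 : logHeight X ≤ |C2| + n * logHeight x := (hC2 x).trans (by
    have := le_abs_self C2
    linarith)
  have h3 : ∑ v ∈ S, wt v * ∑ a, (n * Real.log (nrm (av v) x) -
      Real.log (f v (eval (exv K x) (M (β v a))))) ≤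
      ∑ v ∈ S, wt v * ∑ a, (Real.log (nrm (av v) X) -
        Real.log (f v (dot (Y.u (M (β' v a).1)) (exv K X)))) + C3 := by
    rw [hC3, ← Finset.sum_add_distrib]
    refine Finset.sum_le_sum fun v hv => ?_
    rw [← mul_add]
    refine mul_le_mul_of_nonneg_left ?_ (wt_nonneg v)
    have h4 : (N : ℝ) * |Real.log (c v)| = ∑ _a : Fin N, |Real.log (c v)| := by
      rw [Finset.sum_const, Finset.card_univ, Fintype.card_fin, nsmul_eq_mul]
    rw [h4, ← Finset.sum_add_distrib]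
    refine Finset.sum_le_sum fun a _ => ?_
    rw [← Y.eval_eq _ (hM _) x hxF, hββ v hv a]
    have h5 := hc v x hxF
    have h6 : 0 < nrm (av v) X := nrm_pos _ hX0
    have h7 := Real.log_le_log (pow_pos (nrm_pos (av v) hx) n) h5
    rw [Real.log_pow, Real.log_mul (hc0 v).ne' h6.ne'] at h7
    have h8 := le_abs_self (Real.log (c v))
    linarith
  refine h3.trans ?_
  have h4 : ((N : ℝ) + ε) * logHeight X ≤ (N + ε) * (|C2| + n * logHeight x) :=
    mul_le_mul_of_nonneg_left h2 (by positivity)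
  linarith

end Pool.Agent.H13.QP
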