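import Mathlib
import Pool.Agent.H13.QP.SubSys

/-!
Bases adapted to a filtration of the forms of degree `n` modulo `F`.
-/

set_option autoImplicit false
set_option linter.unusedSectionVars false

namespace Pool.Agent.H13.QP

open MvPolynomial Module Finset

variable {K : Type} [Field K] [NumberField K] {F : MvPolynomial (Fin 3) ℚ} {n N : ℕ}

/-- a basis adapted to a family of subspaces -/
theorem flag (Y : Sys K F n N) (T : ℕ) (U : ℕ → Submodule K (MvPolynomial (Fin 3) K))
    (hU0 : U 0 = homogeneousSubmodule (Fin 3) K n) (r : ℕ → ℕ)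
    (hr : ∀ t, 1 ≤ t → t ≤ T → r t ≤ finrank K ((U t).map Y.u)) :
    ∃ (M : Fin N → MvPolynomial (Fin 3) K) (s : Fin N → ℕ), (∀ a, s a ≤ T) ∧
      (∀ a, M a ∈ U (s a)) ∧ LinearIndependent K (fun a => Y.u (M a)) ∧
      ∑ t ∈ Finset.Icc 1 T, r t ≤ ∑ a, s a := by
  classical
  -- bases of the images
  set W : ℕ → Submodule K (Fin N → K) := fun t => (U t).map Y.u with hW
  let b : ∀ t, Basis (Fin (finrank K (W t))) K (W t) := fun t => finBasis K (W t)
  set ι := Σ t : Fin (T + 1), Fin (finrank K (W t)) with hι
  set φ : ι → (Fin N → K) := fun i => (b i.1.val i.2 : Fin N → K) with hφ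
  have hlift : ∀ i : ι, ∃ g ∈ U i.1.val, Y.u g = φ i := by
    intro i
    have := (b i.1.val i.2).2
    exact Submodule.mem_map.1 this
  choose g hg hgu using hlift
  have hspan : ∀ t : Fin (T + 1), Submodule.span K (φ '' {i | i.1 = t}) = W t := by
    intro t
    have h1 : φ '' {i | i.1 = t} = Set.range fun j => ((b t.val j : W t.val) : Fin N → K) := by
      ext z
      constructor
      · rintro ⟨⟨t', j⟩, ht, rfl⟩
        obtain rfl : t' = t := ht
        exact ⟨j, rfl⟩
      · rintro ⟨j, rfl⟩
        exact ⟨⟨t, j⟩, rfl, rfl⟩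
    rw [h1]
    have h2 : (Set.range fun j => ((b t.val j : W t.val) : Fin N → K)) =
        (W t.val).subtype '' Set.range (b t.val) := by
      rw [← Set.range_comp]
      rfl
    rw [h2, ← Submodule.map_span, (b t.val).span_eq, Submodule.map_top, Submodule.range_subtype]
  have htop : Submodule.span K (Set.range φ) = ⊤ := by
    rw [eq_top_iff]
    intro y _
    obtain ⟨g, hg, rfl⟩ := Y.hs y
    have h1 : Y.u g ∈ W 0 := Submodule.mem_map_of_mem (by rw [hU0]; exact hg)
    have h2 := hspan ⟨0, Nat.succ_pos T⟩
    have h3 : Y.u g ∈ Submodule.span K (φ '' {i | i.1 = ⟨0, Nat.succ_pos T⟩}) := by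
      rw [h2]
      exact h1
    exact Submodule.span_mono (Set.image_subset_range _ _) h3
  obtain ⟨β, hβi, hβ⟩ := Pool.Agent.NH28.greedy φ htop (fun i => (i.1.val : ℝ)) N
    (finrank_fin_fun K)
  refine ⟨fun a => g (β a), fun a => (β a).1.val, fun a => Nat.lt_succ_iff.1 (β a).1.2,
    fun a => hg (β a), ?_, ?_⟩
  · have h1 : (fun a => Y.u (g (β a))) = fun a => φ (β a) := funext fun a => hgu (β a)
    rw [h1]
    exact hβi
  · have h1 : ∀ a : Fin N, (β a).1.val = ∑ t ∈ Finset.Icc 1 T, if t ≤ (β a).1.val then 1 else 0 := by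
      intro a
      rw [← Finset.sum_filter, Finset.sum_const, smul_eq_mul, mul_one]
      have h2 : (Finset.Icc 1 T).filter (fun t => t ≤ (β a).1.val) = Finset.Icc 1 (β a).1.val := by
        ext t
        simp only [Finset.mem_filter, Finset.mem_Icc]
        have := (β a).1.2
        omega
      rw [h2, Nat.card_Icc]
      omega
    rw [Finset.sum_congr rfl fun a _ => h1 a, Finset.sum_comm]
    refine Finset.sum_le_sum fun t ht => ?_
    rw [Finset.mem_Icc] at ht
    rw [← Finset.sum_filter, Finset.sum_const, smul_eq_mul, mul_one]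
    refine (hr t ht.1 ht.2).trans ?_
    have h2 := hβ t
    have h3 : finrank K (W t) ≤ finrank K (Submodule.span K (φ '' {i | (t : ℝ) ≤ i.1.val})) := by
      have h4 := hspan ⟨t, by omega⟩
      have h5 : W t = Submodule.span K (φ '' {i | i.1 = ⟨t, by omega⟩}) := h4.symm
      rw [h5]
      refine Submodule.finrank_mono (Submodule.span_mono (Set.image_mono ?_))
      intro i hi
      have : i.1.val = t := congrArg Fin.val hi
      show (t : ℝ) ≤ i.1.val
      rw [this]
    refine h3.trans (h2.trans (le_of_eq ?_))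
    congr 1
    ext a
    simp

/-- the filtration by the powers of `P` -/
theorem flag_pow (Y : Sys K F n N) (P : MvPolynomial (Fin 3) K) (p : ℕ) (hp : 1 ≤ p)
    (hP : P.IsHomogeneous p)
    (hinj : ∀ g : MvPolynomial (Fin 3) K, bc K F ∣ P * g → bc K F ∣ g) :
    ∃ (M : Fin N → MvPolynomial (Fin 3) K) (s : Fin N → ℕ),
      (∀ a, (M a).IsHomogeneous n) ∧ LinearIndependent K (fun a => Y.u (M a)) ∧
      (∀ a, p * s a ≤ n ∧ ∃ g : MvPolynomial (Fin 3) K, g.IsHomogeneous (n - p * s a) ∧
        M a = P ^ s a * g) ∧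
      ∑ t ∈ Finset.Icc 1 (n / p), ((D (n - p * t)).card - finrank K (fm (bc K F) (n - p * t))) ≤
        ∑ a, s a := by
  classical
  have hinj' : ∀ (t : ℕ) (g : MvPolynomial (Fin 3) K), bc K F ∣ P ^ t * g → bc K F ∣ g := by
    intro t
    induction t with
    | zero => intro g h; simpa using h
    | succ t ih =>
      intro g h
      rw [pow_succ', mul_assoc] at h
      exact ih g (hinj _ h)
  have hle : ∀ t, t ≤ n / p → p * t ≤ n := fun t ht => by
    have := Nat.mul_le_mul_left p ht
    exact this.trans (Nat.mul_div_le n p)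
  obtain ⟨M, s, hs, hMU, hli, hsum⟩ := flag Y (n / p)
    (fun t => (homogeneousSubmodule (Fin 3) K (n - p * t)).map (LinearMap.mulLeft K (P ^ t)))
    (by
      simp only [pow_zero, mul_zero, Nat.sub_zero]
      have : LinearMap.mulLeft K (1 : MvPolynomial (Fin 3) K) = LinearMap.id :=
        LinearMap.mulLeft_one _ _
      rw [this, Submodule.map_id])
    (fun t => (D (n - p * t)).card - finrank K (fm (bc K F) (n - p * t))) (by
      intro t _ ht
      set m := n - p * t with hm
      set H := homogeneousSubmodule (Fin 3) K m with hH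
      -- the composite map
      set θ : H →ₗ[K] (Fin N → K) := (Y.u.comp (LinearMap.mulLeft K (P ^ t))).domRestrict H with hθ
      have h1 : LinearMap.range θ = (H.map (LinearMap.mulLeft K (P ^ t))).map Y.u := by
        rw [hθ, LinearMap.range_domRestrict, Submodule.map_comp]
      rw [← h1]
      have h2 := LinearMap.finrank_range_add_finrank_ker θ
      rw [finrank_hom] at h2
      have hhom : ∀ g : H, (P ^ t * g.1).IsHomogeneous n := by
        intro g
        have h3 := (hP.pow t).mul (show g.1.IsHomogeneous m from g.2)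
        have h4 : p * t + m = n := by
          have := hle t ht
          omega
        rwa [h4] at h3
      have h3 : finrank K (LinearMap.ker θ) = finrank K (fm (bc K F) m) := by
        have h4 : LinearMap.ker θ = (fm (bc K F) m).comap H.subtype := by
          ext g
          rw [LinearMap.mem_ker, Submodule.mem_comap, mem_fm]
          have h5 : θ g = Y.u (P ^ t * g.1) := rfl
          rw [h5, Y.hk _ (hhom g)]
          constructor
          · intro h
            exact ⟨g.2, hinj' t _ h⟩
          · intro h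
            exact Dvd.dvd.mul_left h.2 _
        rw [h4]
        exact (Submodule.comapSubtypeEquivOfLe (fm_le _ m)).finrank_eq
      omega)
  refine ⟨M, s, fun a => ?_, hli, fun a => ?_, hsum⟩
  · obtain ⟨g, hg, hgM⟩ := Submodule.mem_map.1 (hMU a)
    rw [← hgM]
    have h3 := (hP.pow (s a)).mul (show g.IsHomogeneous _ from hg)
    have h4 : p * s a + (n - p * s a) = n := by
      have := hle _ (hs a)
      omega
    rw [h4] at h3
    exact h3
  · refine ⟨hle _ (hs a), ?_⟩
    obtain ⟨g, hg, hgM⟩ := Submodule.mem_map.1 (hMU a)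
    exact ⟨g, hg, hgM.symm⟩

end Pool.Agent.H13.QP
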