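import Mathlib
import Pool.Agent.H13.QP.Flag

/-!
The filtration of `K[b][δ]` modulo a polynomial by the weights `i + w j` of `b ^ i δ ^ j`.
-/

set_option autoImplicit false
set_option linter.unusedSectionVars false

namespace Pool.Agent.H13.QP

open Module Finset Polynomial

section

variable {K : Type} [Field K]

/-- the coefficient of `b ^ i δ ^ j` -/
noncomputable def cf2 (h : K[X][X]) (i j : ℕ) : K := (h.coeff j).coeff i

/-- the monomial `b ^ i δ ^ j` -/
noncomputable def mo (K : Type) [Field K] (i j : ℕ) : K[X][X] := C (X ^ i) * X ^ j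

theorem cf2_mo_mul (i j : ℕ) (h : K[X][X]) (i' j' : ℕ) :
    cf2 (mo K i j * h) i' j' = if i ≤ i' ∧ j ≤ j' then cf2 h (i' - i) (j' - j) else 0 := by
  unfold cf2 mo
  rw [mul_assoc, coeff_C_mul, coeff_X_pow_mul', coeff_X_pow_mul']
  by_cases hj : j ≤ j' <;> by_cases hi : i ≤ i' <;> simp [hi, hj]

theorem cf2_mo (i j i' j' : ℕ) : cf2 (mo K i j) i' j' = if i = i' ∧ j = j' then 1 else 0 := by
  have h := cf2_mo_mul (K := K) i j 1 i' j'
  rw [mul_one] at h
  rw [h]
  unfold cf2
  by_cases hi : i ≤ i' <;> by_cases hj : j ≤ j'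
  · by_cases hj' : j = j'
    · subst hj'
      by_cases hi' : i = i'
      · subst hi'
        simp
      · have : i' - i ≠ 0 := by omega
        simp [hi, hi', coeff_one, this]
    · have : j' - j ≠ 0 := by omega
      simp [hi, hj, hj', coeff_one, this]
  · have : j ≠ j' := by omega
    simp [hj, this]
  · have : i ≠ i' := by omega
    simp [hi, this]
  · have : i ≠ i' := by omega
    simp [hi, this]

theorem cf2_add (h h' : K[X][X]) (i j : ℕ) : cf2 (h + h') i j = cf2 h i j + cf2 h' i j := by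
  simp [cf2]

theorem cf2_sub (h h' : K[X][X]) (i j : ℕ) : cf2 (h - h') i j = cf2 h i j - cf2 h' i j := by
  simp [cf2]

theorem cf2_smul (c : K) (h : K[X][X]) (i j : ℕ) : cf2 (c • h) i j = c * cf2 h i j := by
  simp [cf2]

/-- the polynomials of weight at least `t` -/
def J (K : Type) [Field K] (w t : ℕ) : Submodule K (K[X][X]) where
  carrier := {h | ∀ i j, cf2 h i j ≠ 0 → t ≤ i + w * j}
  add_mem' := fun {a b} ha hb i j h => by
    rw [cf2_add] at h
    by_cases h1 : cf2 a i j = 0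
    · exact hb i j (by rwa [h1, zero_add] at h)
    · exact ha i j h1
  zero_mem' := fun i j h => absurd (by simp [cf2]) h
  smul_mem' := fun c a ha i j h => ha i j (by
    rw [cf2_smul] at h
    exact right_ne_zero_of_mul h)

theorem mem_J {w t : ℕ} {h : K[X][X]} : h ∈ J K w t ↔ ∀ i j, cf2 h i j ≠ 0 → t ≤ i + w * j := Iff.rfl

theorem J_mul {w t : ℕ} {h : K[X][X]} (hh : h ∈ J K w t) (i j : ℕ) :
    mo K i j * h ∈ J K w (t + (i + w * j)) := by
  intro i' j' h1
  rw [cf2_mo_mul] at h1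
  split_ifs at h1 with h2
  · have h3 := hh _ _ h1
    obtain ⟨h4, h5⟩ := h2
    have h6 : w * (j' - j) + w * j = w * j' := by
      rw [← Nat.mul_add, Nat.sub_add_cancel h5]
    omega
  · exact absurd rfl h1

theorem J_anti {w t t' : ℕ} (h : t ≤ t') : J K w t' ≤ J K w t := fun _ hg i j h1 =>
  h.trans (hg i j h1)

theorem mo_mem (i j w : ℕ) : mo K i j ∈ J K w (i + w * j) := by
  intro i' j' h
  rw [cf2_mo] at h
  split_ifs at h with h1
  · obtain ⟨rfl, rfl⟩ := h1
    exact le_rfl
  · exact absurd rfl h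

theorem sum_mo (h : K[X][X]) : h = ∑ j ∈ h.support, ∑ i ∈ (h.coeff j).support,
    cf2 h i j • mo K i j := by
  conv_lhs => rw [h.as_sum_support_C_mul_X_pow]
  refine Finset.sum_congr rfl fun j _ => ?_
  conv_lhs => rw [(h.coeff j).as_sum_support_C_mul_X_pow]
  rw [map_sum, Finset.sum_mul]
  refine Finset.sum_congr rfl fun i _ => ?_
  unfold cf2 mo
  rw [map_mul, Algebra.smul_def, mul_assoc]
  rfl

/-- polynomials of weight at least `t`, modulo `Fh` -/
noncomputable def Q (Fh : K[X][X]) (w t : ℕ) : Submodule K (K[X][X]) :=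
  J K w t ⊔ (Ideal.span {Fh}).restrictScalars K

theorem J_le_Q (Fh : K[X][X]) (w t : ℕ) : J K w t ≤ Q Fh w t := le_sup_left

theorem mul_mem_Q (Fh q : K[X][X]) (w t : ℕ) : q * Fh ∈ Q Fh w t :=
  le_sup_right (a := J K w t) (Ideal.mul_mem_left _ q (Ideal.subset_span (Set.mem_singleton Fh)))

theorem mem_Q {Fh h : K[X][X]} {w t : ℕ} : h ∈ Q Fh w t ↔ ∃ g ∈ J K w t, ∃ q, h = g + q * Fh := by
  constructor
  · intro hh
    obtain ⟨g, hg, r, hr, rfl⟩ := Submodule.mem_sup.1 hh
    obtain ⟨q, rfl⟩ := Ideal.mem_span_singleton'.1 (show r ∈ Ideal.span {Fh} from hr)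
    exact ⟨g, hg, q, rfl⟩
  · rintro ⟨g, hg, q, rfl⟩
    exact Submodule.add_mem _ (J_le_Q _ _ _ hg) (mul_mem_Q _ _ _ _)

theorem Q_anti {Fh : K[X][X]} {w t t' : ℕ} (h : t ≤ t') : Q Fh w t' ≤ Q Fh w t :=
  sup_le_sup_right (J_anti h) _

theorem Q_zero (Fh : K[X][X]) (w : ℕ) : Q Fh w 0 = ⊤ := by
  rw [eq_top_iff]
  intro h _
  exact J_le_Q _ _ _ fun i j _ => Nat.zero_le _

/-- the leading terms -/
theorem lead {Fh : K[X][X]} {w : ℕ} (hw : 1 ≤ w) {E : K[X]} (hE : Fh.coeff 0 = X ^ w * E) :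
    Fh - cf2 Fh w 0 • mo K w 0 - cf2 Fh 0 1 • mo K 0 1 ∈ J K w (w + 1) := by
  intro i j h
  rw [cf2_sub, cf2_sub, cf2_smul, cf2_smul, cf2_mo, cf2_mo] at h
  by_contra hlt
  push Not at hlt
  apply h
  rcases Nat.lt_or_ge j 1 with hj | hj
  · obtain rfl : j = 0 := by omega
    rcases Nat.lt_or_ge i w with hi | hi
    · have h1 : cf2 Fh i 0 = 0 := by
        unfold cf2
        rw [hE, coeff_X_pow_mul', if_neg (by omega)]
      have h2 : ¬ (w = i ∧ 0 = 0) := by omega
      have h3 : ¬ (0 = i ∧ 1 = 0) := by omega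
      rw [h1, if_neg h2, if_neg h3]
      ring
    · obtain rfl : i = w := by omega
      have h3 : ¬ (0 = i ∧ 1 = 0) := by omega
      rw [if_neg h3, if_pos ⟨rfl, rfl⟩]
      ring
  · have h4 : w * 1 ≤ w * j := Nat.mul_le_mul_left w hj
    have h5 : j = 1 := by
      by_contra hne
      have h6 : 2 ≤ j := by omega
      have h7 : w * 2 ≤ w * j := Nat.mul_le_mul_left w h6
      omega
    subst h5
    obtain rfl : i = 0 := by omega
    have h3 : ¬ (w = 0 ∧ 0 = 1) := by omega
    rw [if_neg h3, if_pos ⟨rfl, rfl⟩]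
    ring

theorem mo_mul (i j i' j' : ℕ) : mo K i j * mo K i' j' = mo K (i + i') (j + j') := by
  unfold mo
  rw [pow_add, pow_add, map_mul]
  ring

/-- modulo weight `t + 1` and `Fh` there is one monomial of weight `t` -/
theorem mo_red {Fh : K[X][X]} {w : ℕ} (hw : 1 ≤ w) {E : K[X]} (hE : Fh.coeff 0 = X ^ w * E)
    (hE0 : E.coeff 0 ≠ 0) (t : ℕ) : ∀ i j : ℕ, i + w * j = t →
      mo K i j ∈ Submodule.span K {mo K (t % w) (t / w)} ⊔ Q Fh w (t + 1) := by
  intro i
  induction i using Nat.strong_induction_on with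
  | _ i ih =>
    intro j hij
    by_cases hi : i < w
    · have h1 : t % w = i := by
        rw [← hij, Nat.add_mul_mod_self_left, Nat.mod_eq_of_lt hi]
      have h2 : t / w = j := by
        rw [← hij, Nat.add_mul_div_left _ _ hw, Nat.div_eq_of_lt hi, zero_add]
      rw [h1, h2]
      exact Submodule.mem_sup_left (Submodule.mem_span_singleton_self _)
    · push Not at hi
      have he : cf2 Fh w 0 ≠ 0 := by
        unfold cf2
        rw [hE, coeff_X_pow_mul', if_pos le_rfl, Nat.sub_self]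
        exact hE0
      have h1 := J_mul (lead hw hE) (i - w) j
      have h2 : w + 1 + (i - w + w * j) = t + 1 := by omega
      rw [h2] at h1
      have h3 := ih (i - w) (by omega) (j + 1) (by
        rw [Nat.mul_add, Nat.mul_one]
        omega)
      have h4 : mo K i j = (cf2 Fh w 0)⁻¹ • (mo K (i - w) j * Fh - cf2 Fh 0 1 • mo K (i - w) (j + 1) -
          mo K (i - w) j * (Fh - cf2 Fh w 0 • mo K w 0 - cf2 Fh 0 1 • mo K 0 1)) := by
        rw [mul_sub, mul_sub, mul_smul_comm, mul_smul_comm, mo_mul, mo_mul, Nat.sub_add_cancel hi,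
          add_zero, add_zero]
        have h5 : mo K (i - w) j * Fh - cf2 Fh 0 1 • mo K (i - w) (j + 1) -
            (mo K (i - w) j * Fh - cf2 Fh w 0 • mo K i j - cf2 Fh 0 1 • mo K (i - w) (j + 1)) =
            cf2 Fh w 0 • mo K i j := by abel
        rw [h5, smul_smul, inv_mul_cancel₀ he, one_smul]
      rw [h4]
      refine Submodule.smul_mem _ _ (Submodule.sub_mem _ (Submodule.sub_mem _ ?_ ?_) ?_)
      · exact Submodule.mem_sup_right (mul_mem_Q _ _ _ _)
      · exact Submodule.smul_mem _ _ h3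
      · exact Submodule.mem_sup_right (J_le_Q _ _ _ h1)

theorem Q_succ {Fh : K[X][X]} {w : ℕ} (hw : 1 ≤ w) {E : K[X]} (hE : Fh.coeff 0 = X ^ w * E)
    (hE0 : E.coeff 0 ≠ 0) (t : ℕ) :
    Q Fh w t ≤ Submodule.span K {mo K (t % w) (t / w)} ⊔ Q Fh w (t + 1) := by
  refine sup_le ?_ ?_
  · intro h hh
    rw [sum_mo h]
    refine Submodule.sum_mem _ fun j _ => Submodule.sum_mem _ fun i hi => ?_
    have h1 : cf2 h i j ≠ 0 := Polynomial.mem_support_iff.1 hi
    have h2 := hh i j h1
    refine Submodule.smul_mem _ _ ?_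
    rcases h2.eq_or_lt with h3 | h3
    · exact mo_red hw hE hE0 t i j h3.symm
    · exact Submodule.mem_sup_right (J_le_Q _ _ _ (J_anti h3 (mo_mem i j w)))
  · exact le_sup_right.trans le_sup_right

/-- the codimensions -/
theorem codim {V : Type} [AddCommGroup V] [Module K V] (ψ : V →ₗ[K] K[X][X]) (H : Submodule K V)
    [Module.Finite K H] {Fh : K[X][X]} {w : ℕ} (hw : 1 ≤ w) {E : K[X]}
    (hE : Fh.coeff 0 = X ^ w * E) (hE0 : E.coeff 0 ≠ 0) (t : ℕ) :
    finrank K H ≤ finrank K (H ⊓ (Q Fh w t).comap ψ : Submodule K V) + t := by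
  induction t with
  | zero => rw [Q_zero, Submodule.comap_top, inf_top_eq]; omega
  | succ t ih =>
    refine ih.trans ?_
    set U := H ⊓ (Q Fh w t).comap ψ with hU
    set U' := H ⊓ (Q Fh w (t + 1)).comap ψ with hU'
    have hfinU : Module.Finite K U := Submodule.finiteDimensional_of_le inf_le_left
    have hfinU' : Module.Finite K U' := Submodule.finiteDimensional_of_le inf_le_left
    by_cases hle : U ≤ U'
    · have := Submodule.finrank_mono hle
      omega
    · obtain ⟨g0, hg0, hg0'⟩ := SetLike.not_le_iff_exists.1 hle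
      obtain ⟨hg0H, hg0Q⟩ := hg0
      obtain ⟨m0, hm0, q0, hq0, he0⟩ := Submodule.mem_sup.1 (Q_succ hw hE hE0 t hg0Q)
      obtain ⟨c0, rfl⟩ := Submodule.mem_span_singleton.1 hm0
      have hc0 : c0 ≠ 0 := by
        rintro rfl
        apply hg0'
        rw [zero_smul, zero_add] at he0
        refine ⟨hg0H, Submodule.mem_comap.2 ?_⟩
        rw [← he0]
        exact hq0
      have hle2 : U ≤ Submodule.span K {g0} ⊔ U' := by
        rintro g ⟨hgH, hgQ⟩
        obtain ⟨m1, hm1, q1, hq1, he1⟩ := Submodule.mem_sup.1 (Q_succ hw hE hE0 t hgQ)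
        obtain ⟨c1, rfl⟩ := Submodule.mem_span_singleton.1 hm1
        refine Submodule.mem_sup.2 ⟨(c1 * c0⁻¹) • g0, Submodule.mem_span_singleton.2 ⟨_, rfl⟩,
          g - (c1 * c0⁻¹) • g0, ⟨H.sub_mem hgH (H.smul_mem _ hg0H), Submodule.mem_comap.2 ?_⟩,
          by abel⟩
        rw [map_sub, map_smul, ← he0, ← he1, smul_add, smul_smul, mul_assoc, inv_mul_cancel₀ hc0,
          mul_one]
        have h5 : c1 • mo K (t % w) (t / w) + q1 - (c1 • mo K (t % w) (t / w) +
            (c1 * c0⁻¹) • q0) = q1 - (c1 * c0⁻¹) • q0 := by abel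
        rw [h5]
        exact Submodule.sub_mem _ hq1 (Submodule.smul_mem _ _ hq0)
      have h6 := Submodule.finrank_mono hle2
      have h7 := Submodule.finrank_add_le_finrank_add_finrank (Submodule.span K {g0}) U'
      have h8 : finrank K (Submodule.span K {g0}) ≤ 1 := by
        have := finrank_span_le_card (R := K) ({g0} : Set V)
        simpa using this
      omega

end

end Pool.Agent.H13.QP
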