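import Mathlib
import Pool.Agent.H13.QP.Tan

/-!
The forms of high weight near the double point `(X - α) ^ 2`: the chart and the multiplicity.
-/

set_option autoImplicit false
set_option linter.unusedSectionVars false

namespace Pool.Agent.H13.QP

open Module Finset Polynomial
open Pool.Agent.W180.OP (nrm le_nrm nrm_pos nrm_nonneg exists_nrm)

section

variable {K : Type} [Field K]

/-- the linear form `f ↦ f(α)` on the forms `f = y₀ + y₁ X + y₂ X²` -/
noncomputable def La (α : K) : MvPolynomial (Fin 3) K :=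
  MvPolynomial.X 0 + MvPolynomial.C α * MvPolynomial.X 1 + MvPolynomial.C (α ^ 2) * MvPolynomial.X 2

/-- the discriminant -/
noncomputable def De (K : Type) [Field K] : MvPolynomial (Fin 3) K :=
  MvPolynomial.X 1 ^ 2 - MvPolynomial.C 4 * (MvPolynomial.X 0 * MvPolynomial.X 2)

theorem La_hom (α : K) : (La α).IsHomogeneous 1 := by
  unfold La
  refine ((MvPolynomial.isHomogeneous_X _ _).add ?_).add ?_
  · exact (MvPolynomial.isHomogeneous_X _ _).C_mul _
  · exact (MvPolynomial.isHomogeneous_X _ _).C_mul _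

theorem De_hom : (De K).IsHomogeneous 2 := by
  unfold De
  refine MvPolynomial.IsHomogeneous.sub ?_ ?_
  · exact (MvPolynomial.isHomogeneous_X K (1 : Fin 3)).pow 2
  · exact ((MvPolynomial.isHomogeneous_X K (0 : Fin 3)).mul
      (MvPolynomial.isHomogeneous_X K (2 : Fin 3))).C_mul _

theorem eval_La (α : K) (y : Fin 3 → K) :
    MvPolynomial.eval y (La α) = y 0 + α * y 1 + α ^ 2 * y 2 := by
  simp [La]

theorem eval_De (y : Fin 3 → K) : MvPolynomial.eval y (De K) = y 1 ^ 2 - 4 * (y 0 * y 2) := by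
  simp [De]

theorem eval_smul' {n : ℕ} {g : MvPolynomial (Fin 3) K} (hg : g.IsHomogeneous n) (c : K)
    (z : Fin 3 → K) : MvPolynomial.eval (fun i => c * z i) g = c ^ n * MvPolynomial.eval z g := by
  rw [hom_sum hg, map_sum, map_sum, Finset.mul_sum]
  refine Finset.sum_congr rfl fun a ha => ?_
  rw [mem_D, Finsupp.degree_eq_sum] at ha
  simp only [MvPolynomial.smul_eval, MvPolynomial.eval_monomial, Finsupp.prod_fintype, pow_zero,
    implies_true, mul_pow, Finset.prod_mul_distrib, Finset.prod_pow_eq_pow_sum, one_mul]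
  rw [ha]
  ring

/-- the chart at the double point `(X - α) ^ 2` -/
noncomputable def psi (α : K) : MvPolynomial (Fin 3) K →ₐ[K] K[X][X] :=
  MvPolynomial.aeval ![C (C (α ^ 2)) - C (C α) * C X + C (C (4 : K)⁻¹) * (C X ^ 2 - X),
    C X - C (C (2 * α)), 1]

theorem evalEval_psi (α b0 d0 : K) (g : MvPolynomial (Fin 3) K) :
    evalEval b0 d0 (psi α g) = MvPolynomial.eval
      ![α ^ 2 - α * b0 + 4⁻¹ * (b0 ^ 2 - d0), b0 - 2 * α, 1] g := by
  have h1 : ∀ h : K[X][X], evalEval b0 d0 h = evalEvalRingHom b0 d0 h := fun _ => rfl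
  rw [h1, psi]
  have h2 : (evalEvalRingHom b0 d0).comp ((MvPolynomial.aeval (R := K) ![C (C (α ^ 2)) -
      C (C α) * C X + C (C (4 : K)⁻¹) * (C X ^ 2 - X), C X - C (C (2 * α)), (1 : K[X][X])]).toRingHom) =
      (MvPolynomial.eval ![α ^ 2 - α * b0 + 4⁻¹ * (b0 ^ 2 - d0), b0 - 2 * α, 1]) := by
    apply MvPolynomial.ringHom_ext
    · intro r
      simp
    · intro i
      fin_cases i <;> simp
  exact congrArg (fun φ : MvPolynomial (Fin 3) K →+* K => φ g) h2

theorem eval_chart [CharZero K] (α : K) {n : ℕ} {g : MvPolynomial (Fin 3) K}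
    (hg : g.IsHomogeneous n) (y : Fin 3 → K) (hy : y 2 ≠ 0) :
    MvPolynomial.eval y g = y 2 ^ n *
      evalEval ((y 1 + 2 * α * y 2) / y 2) (MvPolynomial.eval y (De K) / y 2 ^ 2) (psi α g) := by
  rw [evalEval_psi, ← eval_smul' hg, eval_De]
  congr 1
  congr 1
  funext i
  fin_cases i
  · simp
    field_simp
    ring
  · simp
    field_simp
    ring
  · simp

end

section

variable {K : Type} [Field K] [Algebra ℚ K]

/-- the restriction of a form to the double points -/
noncomputable def Phi (F : MvPolynomial (Fin 3) ℚ) : ℚ[X] :=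
  MvPolynomial.aeval ![X ^ 2, C (-2) * X, 1] F

theorem psi_coeff_zero (α : K) (F : MvPolynomial (Fin 3) ℚ) :
    (psi α (bc K F)).coeff 0 = ((Phi F).map (algebraMap ℚ K)).comp (C α - C (2 : K)⁻¹ * X) := by
  have hchar : CharZero K := charZero_of_injective_algebraMap (algebraMap ℚ K).injective
  have h1 : ∀ h : K[X][X], h.coeff 0 = constantCoeff h := fun _ => rfl
  rw [h1]
  have h22 : (C (2 : K) * C (2 : K)⁻¹ : K[X]) = 1 := by
    rw [← C_mul, mul_inv_cancel₀ (two_ne_zero), C_1]
  have h23 : (2 : K[X]) = C 2 := rfl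
  have h2 : ((constantCoeff (R := K[X])).comp (psi α).toRingHom).comp
      (MvPolynomial.map (algebraMap ℚ K)) =
      ((compRingHom (C α - C (2 : K)⁻¹ * X)).comp (mapRingHom (algebraMap ℚ K))).comp
        (MvPolynomial.aeval (R := ℚ) ![(X : ℚ[X]) ^ 2, C (-2) * X, 1]).toRingHom := by
    apply MvPolynomial.ringHom_ext
    · intro r
      simp [psi]
    · intro i
      fin_cases i
      · simp [psi]
        have h4 : (C (4 : K)⁻¹ : K[X]) = C (2 : K)⁻¹ ^ 2 := by
          rw [← C_pow]; congr 1; norm_num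
        have h6 : ((C (C α) : K[X][X]) ^ 2).coeff 0 = C α ^ 2 := by
          rw [← C_pow, coeff_C_zero]
        have h7 : ((C X : K[X][X]) ^ 2).coeff 0 = X ^ 2 := by
          rw [← C_pow, coeff_C_zero]
        rw [h6, h7, h4]
        linear_combination (C α * X : K[X]) * h22 + (C α * X * C (2 : K)⁻¹ : K[X]) * h23
      · simp [psi]
        linear_combination (-X : K[X]) * h22
      · simp [psi]
  exact congrArg (fun φ : MvPolynomial (Fin 3) ℚ →+* K[X] => φ F) h2

theorem natDegree_Phi {d : ℕ} {F : MvPolynomial (Fin 3) ℚ} (hF : F.IsHomogeneous d) :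
    (Phi F).natDegree ≤ 2 * d := by
  unfold Phi
  rw [hom_sum hF, map_sum]
  refine natDegree_sum_le_of_forall_le _ _ fun a ha => ?_
  rw [mem_D, Finsupp.degree_eq_sum] at ha
  rw [map_smul, MvPolynomial.aeval_monomial]
  refine (natDegree_smul_le _ _).trans ?_
  rw [Finsupp.prod_fintype _ _ (by simp), Fin.prod_univ_three]
  rw [Fin.sum_univ_three] at ha
  simp only [map_one, one_mul, Matrix.cons_val_zero, Matrix.cons_val_one, Matrix.cons_val_two,
    Matrix.head_cons, Matrix.tail_cons, one_pow, mul_one]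
  refine natDegree_mul_le.trans ?_
  have h1 : ((X ^ 2 : ℚ[X]) ^ a 0).natDegree ≤ a 0 * 2 := by
    refine natDegree_pow_le.trans ?_
    exact Nat.mul_le_mul_left _ (natDegree_X_pow_le 2)
  have h2 : ((C (-2) * X : ℚ[X]) ^ a 1).natDegree ≤ a 1 * 1 := by
    refine natDegree_pow_le.trans ?_
    exact Nat.mul_le_mul_left _ (natDegree_C_mul_le _ _ |>.trans natDegree_X_le)
  omega

/-- the multiplicity of an irrational point -/
theorem exists_mult [FiniteDimensional ℚ K] (α : K) (hα : ∀ r : ℚ, algebraMap ℚ K r ≠ α) {d : ℕ}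
    {F : MvPolynomial (Fin 3) ℚ} (hF : F.IsHomogeneous d) (hPhi : Phi F ≠ 0) :
    ∃ (m : ℕ) (E : K[X]), m ≤ d ∧ (psi α (bc K F)).coeff 0 = X ^ m * E ∧ E.coeff 0 ≠ 0 := by
  have hchar : CharZero K := charZero_of_injective_algebraMap (algebraMap ℚ K).injective
  have hint : IsIntegral ℚ α := IsIntegral.of_finite ℚ α
  set μ := minpoly ℚ α with hμ
  have hirr : Irreducible μ := minpoly.irreducible hint
  have hdeg : 2 ≤ μ.natDegree := by
    have h1 : μ.natDegree ≠ 0 := (minpoly.natDegree_pos hint).ne'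
    have h2 : μ.natDegree ≠ 1 := by
      intro h
      obtain ⟨r, hr⟩ := minpoly.mem_range_of_degree_eq_one ℚ α (by
        rw [degree_eq_natDegree hirr.ne_zero, h]; rfl)
      exact hα r hr
    omega
  have hfm : FiniteMultiplicity μ (Phi F) :=
    FiniteMultiplicity.of_not_isUnit hirr.not_isUnit hPhi
  obtain ⟨R, hR, hRn⟩ := hfm.exists_eq_pow_mul_and_not_dvd
  set m := multiplicity μ (Phi F) with hm
  have hR0 : R ≠ 0 := by
    rintro rfl
    exact hRn (dvd_zero _)
  have hRα : aeval α R ≠ 0 := fun h => hRn (minpoly.dvd ℚ α h)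
  -- the simple root
  have hroot : (μ.map (algebraMap ℚ K)).IsRoot α := by
    rw [IsRoot.def, eval_map_algebraMap]
    exact minpoly.aeval ℚ α
  obtain ⟨T, hT⟩ := dvd_iff_isRoot.2 hroot
  have hTα : T.eval α ≠ 0 := by
    intro h0
    have hsep : (μ.map (algebraMap ℚ K)).Separable := (hirr.separable).map
    obtain ⟨a, b, hab⟩ := hsep
    have h1 := congrArg (eval α) hab
    rw [hT] at h1
    simp [h0] at h1
  have hmap : (Phi F).map (algebraMap ℚ K) =
      (X - C α) ^ m * (T ^ m * R.map (algebraMap ℚ K)) := by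
    rw [hR, Polynomial.map_mul, Polynomial.map_pow, hT, mul_pow, mul_assoc]
  refine ⟨m, C ((-(2 : K)⁻¹) ^ m) * (T ^ m * R.map (algebraMap ℚ K)).comp (C α - C (2 : K)⁻¹ * X),
    ?_, ?_, ?_⟩
  · have h1 := natDegree_Phi hF
    rw [hR, natDegree_mul (pow_ne_zero _ hirr.ne_zero) hR0, natDegree_pow] at h1
    have h2 : m * 2 ≤ m * μ.natDegree := Nat.mul_le_mul_left m hdeg
    omega
  · rw [psi_coeff_zero, hmap, mul_comp, pow_comp, sub_comp, X_comp, C_comp]
    have h1 : C α - C (2 : K)⁻¹ * X - C α = C (-(2 : K)⁻¹) * X := by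
      rw [map_neg]; ring
    rw [h1, mul_pow, ← C_pow]
    ring
  · rw [coeff_zero_eq_eval_zero, eval_mul, eval_C, eval_comp]
    simp only [eval_sub, eval_C, eval_mul, eval_X, mul_zero, sub_zero, eval_pow]
    rw [eval_map_algebraMap]
    refine mul_ne_zero (pow_ne_zero _ ?_) (mul_ne_zero (pow_ne_zero _ hTα) hRα)
    exact neg_ne_zero.2 (inv_ne_zero two_ne_zero)

end

end Pool.Agent.H13.QP
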