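import Mathlib
import Pool.Agent.H13.QP.TanE

/-!
Estimates near the double point `(X - α) ^ 2`.
-/

set_option autoImplicit false
set_option linter.unusedSectionVars false

namespace Pool.Agent.H13.QP

open Module Finset Polynomial
open Pool.Agent.W180.OP (nrm le_nrm nrm_pos nrm_nonneg exists_nrm lam lam_eq not_small)

section

variable {K : Type} [Field K]

theorem evalEval_mo (b0 d0 : K) (i j : ℕ) : evalEval b0 d0 (mo K i j) = b0 ^ i * d0 ^ j := by
  simp [mo, evalEval]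

theorem est1 (f : AbsoluteValue K ℝ) (B : ℝ) (hB : 0 ≤ B) (w t : ℕ) (h : K[X][X])
    (hh : h ∈ J K w t) :
    ∃ C : ℝ, 0 ≤ C ∧ ∀ (b0 d0 : K) (ρ : ℝ), 0 ≤ ρ → ρ ≤ 1 → f b0 ≤ B * ρ → f d0 ≤ ρ ^ w →
      f (evalEval b0 d0 h) ≤ C * ρ ^ t := by
  refine ⟨∑ j ∈ h.support, ∑ i ∈ (h.coeff j).support, f (cf2 h i j) * B ^ i,
    Finset.sum_nonneg fun j _ => Finset.sum_nonneg fun i _ =>
      mul_nonneg (f.nonneg _) (pow_nonneg hB _), ?_⟩
  intro b0 d0 ρ h0 h1 hb hd
  have h2 : evalEval b0 d0 h = ∑ j ∈ h.support, ∑ i ∈ (h.coeff j).support,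
      cf2 h i j * (b0 ^ i * d0 ^ j) := by
    conv_lhs => rw [sum_mo h]
    have h3 : ∀ p : K[X][X], evalEval b0 d0 p = evalEvalRingHom b0 d0 p := fun _ => rfl
    rw [h3, map_sum]
    refine Finset.sum_congr rfl fun j _ => ?_
    rw [map_sum]
    refine Finset.sum_congr rfl fun i _ => ?_
    rw [Algebra.smul_def, map_mul, ← h3 (mo K i j), evalEval_mo]
    congr 1
    have h4 : algebraMap K K[X][X] (cf2 h i j) = C (C (cf2 h i j)) := rfl
    rw [h4, ← h3, evalEval_C, eval_C]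
  rw [h2, Finset.sum_mul]
  refine (f.sum_le _ _).trans (Finset.sum_le_sum fun j _ => ?_)
  rw [Finset.sum_mul]
  refine (f.sum_le _ _).trans (Finset.sum_le_sum fun i hi => ?_)
  have h3 : t ≤ i + w * j := hh i j (mem_support_iff.1 hi)
  rw [map_mul, map_mul, map_pow, map_pow, mul_assoc]
  refine mul_le_mul_of_nonneg_left ?_ (f.nonneg _)
  have h4 : f b0 ^ i ≤ (B * ρ) ^ i := pow_le_pow_left₀ (f.nonneg _) hb i
  have h5 : f d0 ^ j ≤ (ρ ^ w) ^ j := pow_le_pow_left₀ (f.nonneg _) hd j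
  calc f b0 ^ i * f d0 ^ j ≤ (B * ρ) ^ i * (ρ ^ w) ^ j :=
        mul_le_mul h4 h5 (pow_nonneg (f.nonneg _) _) (pow_nonneg (mul_nonneg hB h0) _)
    _ = B ^ i * ρ ^ (i + w * j) := by rw [mul_pow, ← pow_mul, pow_add]; ring
    _ ≤ B ^ i * ρ ^ t := mul_le_mul_of_nonneg_left (pow_le_pow_of_le_one h0 h1 h3)
        (pow_nonneg hB _)

theorem mem_J_zero (h : K[X][X]) : h ∈ J K 0 0 := fun _ _ _ => Nat.zero_le _

theorem est2 (f : AbsoluteValue K ℝ) {Fh : K[X][X]} {w : ℕ} {E : K[X]}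
    (hE : Fh.coeff 0 = X ^ w * E) (hE0 : E.coeff 0 ≠ 0) :
    ∃ η C : ℝ, 0 < η ∧ 0 < C ∧ ∀ b0 d0 : K, evalEval b0 d0 Fh = 0 → f b0 ≤ η → f d0 ≤ 1 →
      f b0 ^ w ≤ C * f d0 := by
  obtain ⟨C1, hC1, h1⟩ := est1 f 1 zero_le_one 0 0 Fh.divX (mem_J_zero _)
  obtain ⟨C2, hC2, h2⟩ := est1 f 1 zero_le_one 0 0 (C E.divX) (mem_J_zero _)
  have hp : 0 < f (E.coeff 0) := f.pos_iff.2 hE0
  refine ⟨min 1 (f (E.coeff 0) / (2 * (C2 + 1))), C1 * (2 / f (E.coeff 0)) + 1, by positivity,
    by positivity, fun b0 d0 h0 hb hd => ?_⟩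
  have hb1 : f b0 ≤ 1 := hb.trans (min_le_left _ _)
  have hb2 : f b0 ≤ f (E.coeff 0) / (2 * (C2 + 1)) := hb.trans (min_le_right _ _)
  have h3 := h1 b0 d0 1 zero_le_one le_rfl (by simpa using hb1) (by simpa using hd)
  have h4 := h2 b0 d0 1 zero_le_one le_rfl (by simpa using hb1) (by simpa using hd)
  rw [pow_zero, mul_one] at h3 h4
  rw [evalEval_C] at h4
  have h5 : evalEval b0 d0 Fh = evalEval b0 d0 Fh.divX * d0 + b0 ^ w * E.eval b0 := by
    conv_lhs => rw [← divX_mul_X_add Fh]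
    rw [evalEval_add, evalEval_mul, evalEval_C, hE, eval_mul, eval_pow, eval_X, evalEval_X]
  have h6 : E.eval b0 = E.divX.eval b0 * b0 + E.coeff 0 := by
    conv_lhs => rw [← divX_mul_X_add E]
    simp
  have h7 : f (E.coeff 0) / 2 ≤ f (E.eval b0) := by
    have h8 : E.coeff 0 = E.eval b0 - E.divX.eval b0 * b0 := by rw [h6]; ring
    have h9 : f (E.coeff 0) ≤ f (E.eval b0) + f (E.divX.eval b0) * f b0 := by
      conv_lhs => rw [h8, sub_eq_add_neg]
      refine (f.add_le _ _).trans ?_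
      rw [f.map_neg, map_mul]
    have h10 : f (E.divX.eval b0) * f b0 ≤ C2 * (f (E.coeff 0) / (2 * (C2 + 1))) :=
      mul_le_mul h4 hb2 (f.nonneg _) hC2
    have h11 : C2 * (f (E.coeff 0) / (2 * (C2 + 1))) ≤ f (E.coeff 0) / 2 := by
      rw [mul_div_assoc', div_le_div_iff₀ (by positivity) (by norm_num)]
      nlinarith
    linarith
  have h8 : f b0 ^ w * f (E.eval b0) ≤ C1 * f d0 := by
    have h9 : b0 ^ w * E.eval b0 = - (evalEval b0 d0 Fh.divX * d0) := by
      rw [h0] at h5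
      linear_combination -h5
    rw [← map_pow, ← map_mul, h9, f.map_neg, map_mul]
    exact mul_le_mul_of_nonneg_right h3 (f.nonneg _)
  have h9 : f b0 ^ w * (f (E.coeff 0) / 2) ≤ C1 * f d0 :=
    (mul_le_mul_of_nonneg_left h7 (pow_nonneg (f.nonneg _) _)).trans h8
  have h10 : f b0 ^ w = f b0 ^ w * (f (E.coeff 0) / 2) * (2 / f (E.coeff 0)) := by
    field_simp
  rw [h10]
  have h11 : f b0 ^ w * (f (E.coeff 0) / 2) * (2 / f (E.coeff 0)) ≤
      C1 * f d0 * (2 / f (E.coeff 0)) := mul_le_mul_of_nonneg_right h9 (by positivity)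
  have h12 := f.nonneg d0
  nlinarith

theorem ns_chart (α : K) (L : Type) [Field L] [Algebra K L] (x : Fin 3 → L)
    (h : ∀ i : Fin 3, MvPolynomial.aeval x ((![La α, De K, MvPolynomial.X 2] :
      Fin 3 → MvPolynomial (Fin 3) K) i) = 0) : x = 0 := by
  have h0 := h 0
  have h1 := h 1
  have h2 := h 2
  simp only [Matrix.cons_val_zero, Matrix.cons_val_one, Matrix.cons_val_two, Matrix.head_cons,
    Matrix.tail_cons, La, De, map_add, map_sub, map_mul, map_pow, MvPolynomial.aeval_X] at h0 h1 h2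
  rw [h2, mul_zero, mul_zero, sub_zero] at h1
  have h3 : x 1 = 0 := by simpa using h1
  rw [h2, h3] at h0
  have h4 : x 0 = 0 := by simpa using h0
  funext i
  fin_cases i <;> assumption

end

section

variable {K : Type} [Field K] [Algebra ℚ K]

/-- the position of a point of the curve near the double point -/
theorem near (f : AbsoluteValue K ℝ) (α : K) {d : ℕ} {F : MvPolynomial (Fin 3) ℚ}
    (hF : F.IsHomogeneous d) {w : ℕ} {E : K[X]} (hE : (psi α (bc K F)).coeff 0 = X ^ w * E)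
    (hE0 : E.coeff 0 ≠ 0) :
    ∃ c C1 B : ℝ, 0 < c ∧ 0 < B ∧ ∀ y : Fin 3 → K, y ≠ 0 → MvPolynomial.eval y (bc K F) = 0 →
      MvPolynomial.eval y (De K) ≠ 0 → MvPolynomial.eval y (La α) ≠ 0 →
      C1 ≤ lam f 1 (La α) y → lam f 1 (La α) y ≤ lam f 2 (De K) y →
      y 2 ≠ 0 ∧ c * nrm f y ≤ f (y 2) ∧ f (MvPolynomial.eval y (De K) / y 2 ^ 2) ≤ 1 ∧
      evalEval ((y 1 + 2 * α * y 2) / y 2) (MvPolynomial.eval y (De K) / y 2 ^ 2)
        (psi α (bc K F)) = 0 ∧
      f ((y 1 + 2 * α * y 2) / y 2) ^ w ≤ B * f (MvPolynomial.eval y (De K) / y 2 ^ 2) := by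
  have hchar : CharZero K := charZero_of_injective_algebraMap (algebraMap ℚ K).injective
  obtain ⟨η, B, hη, hB, hest⟩ := est2 f hE hE0
  obtain ⟨c, hc, hns⟩ := not_small (n := 3) (by norm_num)
    (![La α, De K, MvPolynomial.X 2] : Fin 3 → MvPolynomial (Fin 3) K) ![1, 2, 1] (by
      intro i
      fin_cases i
      · exact La_hom α
      · exact De_hom
      · exact MvPolynomial.isHomogeneous_X _ _) (ns_chart α) f
  -- the threshold
  set κ : ℝ := 1 / c ^ 2 + f 4 / c with hκ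
  have hκ0 : 0 < κ := by
    have := f.nonneg 4
    positivity
  set r : ℝ := min (min 1 (c / 2)) (min (c ^ 2) (η ^ 2 / κ)) with hr
  have hr0 : 0 < r := by positivity
  refine ⟨c, - Real.log r, B, hc, hB, fun y hy hyF hyD hyL hA hAW => ?_⟩
  have hn := nrm_pos f hy
  have hLp : 0 < f (MvPolynomial.eval y (La α)) := f.pos_iff.2 hyL
  have hDp : 0 < f (MvPolynomial.eval y (De K)) := f.pos_iff.2 hyD
  -- the size of `L`
  have h1 : f (MvPolynomial.eval y (La α)) ≤ r * nrm f y := by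
    rw [lam_eq f _ _ hy hyL] at hA
    have h2 : Real.log (f (MvPolynomial.eval y (La α))) ≤ Real.log (r * nrm f y) := by
      rw [Real.log_mul hr0.ne' hn.ne']
      push_cast at hA
      linarith
    exact (Real.log_le_log_iff hLp (mul_pos hr0 hn)).1 h2
  have h2 : f (MvPolynomial.eval y (De K)) ≤ nrm f y * f (MvPolynomial.eval y (La α)) := by
    rw [lam_eq f _ _ hy hyL, lam_eq f _ _ hy hyD] at hAW
    have h3 : Real.log (f (MvPolynomial.eval y (De K))) ≤
        Real.log (nrm f y * f (MvPolynomial.eval y (La α))) := by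
      rw [Real.log_mul hn.ne' hLp.ne']
      push_cast at hAW
      linarith
    exact (Real.log_le_log_iff hDp (mul_pos hn hLp)).1 h3
  have hr1 : r ≤ c / 2 := (min_le_left _ _).trans (min_le_right _ _)
  have hr1' : r ≤ 1 := (min_le_left _ _).trans (min_le_left _ _)
  have hr2 : r ≤ c ^ 2 := (min_le_right _ _).trans (min_le_left _ _)
  have hr3 : r ≤ η ^ 2 / κ := (min_le_right _ _).trans (min_le_right _ _)
  have h3 : c * nrm f y ≤ f (y 2) := by
    obtain ⟨i, hi⟩ := hns y hy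
    fin_cases i
    · exfalso
      simp only [Fin.zero_eta, Matrix.cons_val_zero, pow_one] at hi
      have : r * nrm f y ≤ c / 2 * nrm f y := mul_le_mul_of_nonneg_right hr1 hn.le
      nlinarith
    · exfalso
      simp only [Fin.mk_one, Matrix.cons_val_one, Matrix.cons_val_zero] at hi
      have h4 : nrm f y * f (MvPolynomial.eval y (La α)) ≤ nrm f y * (c / 2 * nrm f y) :=
        mul_le_mul_of_nonneg_left (h1.trans (mul_le_mul_of_nonneg_right hr1 hn.le)) hn.le
      have h5 : 0 < c * nrm f y ^ 2 := by positivity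
      nlinarith
    · simpa using hi
  have hy2p : 0 < f (y 2) := (mul_pos hc hn).trans_le h3
  have hy2 : y 2 ≠ 0 := f.pos_iff.1 hy2p
  set δ := MvPolynomial.eval y (De K) / y 2 ^ 2 with hδ
  set b := (y 1 + 2 * α * y 2) / y 2 with hb
  have hfδ : f δ ≤ f (MvPolynomial.eval y (La α)) / nrm f y * (1 / c ^ 2) := by
    rw [hδ, map_div₀, map_pow, div_le_iff₀ (pow_pos hy2p 2)]
    refine h2.trans ?_
    have h4 : (c * nrm f y) ^ 2 ≤ f (y 2) ^ 2 := pow_le_pow_left₀ (by positivity) h3 2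
    calc nrm f y * f (MvPolynomial.eval y (La α)) =
        f (MvPolynomial.eval y (La α)) / nrm f y * (1 / c ^ 2) * (c * nrm f y) ^ 2 := by
          field_simp
      _ ≤ _ := mul_le_mul_of_nonneg_left h4 (by positivity)
  have he : f (MvPolynomial.eval y (La α)) / nrm f y ≤ r := by
    rw [div_le_iff₀ hn]
    exact h1
  have he0 : 0 ≤ f (MvPolynomial.eval y (La α)) / nrm f y := by positivity
  have hδ1 : f δ ≤ 1 := by
    refine hfδ.trans ?_
    calc f (MvPolynomial.eval y (La α)) / nrm f y * (1 / c ^ 2) ≤ c ^ 2 * (1 / c ^ 2) :=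
          mul_le_mul_of_nonneg_right (he.trans hr2) (by positivity)
      _ = 1 := by field_simp
  have hbsq : b ^ 2 = δ + 4 * (MvPolynomial.eval y (La α) / y 2) := by
    rw [hb, hδ, eval_De, eval_La]
    field_simp
    ring
  have hbη : f b ≤ η := by
    have h4 : f b ^ 2 ≤ η ^ 2 := by
      rw [← map_pow, hbsq]
      refine (f.add_le _ _).trans ?_
      have h5 : f (4 * (MvPolynomial.eval y (La α) / y 2)) ≤
          f (MvPolynomial.eval y (La α)) / nrm f y * (f 4 / c) := by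
        rw [map_mul, map_div₀]
        have h6 : f (MvPolynomial.eval y (La α)) / f (y 2) ≤
            f (MvPolynomial.eval y (La α)) / (c * nrm f y) :=
          div_le_div_of_nonneg_left hLp.le (mul_pos hc hn) h3
        calc f 4 * (f (MvPolynomial.eval y (La α)) / f (y 2)) ≤
            f 4 * (f (MvPolynomial.eval y (La α)) / (c * nrm f y)) :=
              mul_le_mul_of_nonneg_left h6 (f.nonneg _)
          _ = _ := by field_simp
      calc f δ + f (4 * (MvPolynomial.eval y (La α) / y 2)) ≤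
          f (MvPolynomial.eval y (La α)) / nrm f y * (1 / c ^ 2) +
            f (MvPolynomial.eval y (La α)) / nrm f y * (f 4 / c) := add_le_add hfδ h5
        _ = f (MvPolynomial.eval y (La α)) / nrm f y * κ := by rw [hκ]; ring
        _ ≤ η ^ 2 / κ * κ := mul_le_mul_of_nonneg_right (he.trans hr3) hκ0.le
        _ = η ^ 2 := by field_simp
    exact (pow_le_pow_iff_left₀ (f.nonneg _) hη.le (by norm_num)).1 h4
  have hFz : evalEval b δ (psi α (bc K F)) = 0 := by
    have h4 := eval_chart α (hF.map (algebraMap ℚ K)) y hy2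
    rw [hyF] at h4
    rcases mul_eq_zero.1 h4.symm with h5 | h5
    · exact absurd h5 (pow_ne_zero _ hy2)
    · exact h5
  exact ⟨hy2, h3, hδ1, hFz, hest b δ hFz hbη hδ1⟩

end

end Pool.Agent.H13.QP
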