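import Mathlib
import Pool.Agent.H13.QP.TanF

/-!
The system of forms for a point near the double point `(X - α) ^ 2`.
-/

set_option autoImplicit false
set_option linter.unusedSectionVars false

namespace Pool.Agent.H13.QP

open Module Finset Polynomial
open Pool.Agent.W180.OP (nrm le_nrm nrm_pos nrm_nonneg exists_nrm lam lam_eq not_small abv_mv cs
  cs_nonneg)

theorem sum_id_Icc (m : ℕ) : ∑ t ∈ Finset.Icc 1 m, (t : ℝ) = m * (m + 1) / 2 := by
  induction m with
  | zero => simp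
  | succ m ih =>
    rw [Finset.sum_Icc_succ_top (by omega), ih]
    push_cast
    ring

theorem lam_ge {K : Type} [Field K] (f : AbsoluteValue K ℝ) {m d : ℕ}
    (G : MvPolynomial (Fin m) K) (hG : G.IsHomogeneous d) :
    ∃ C : ℝ, 0 ≤ C ∧ ∀ x : Fin m → K, x ≠ 0 → MvPolynomial.eval x G ≠ 0 → -C ≤ lam f d G x := by
  have h0 := cs_nonneg f G
  refine ⟨Real.log (1 + cs f G), Real.log_nonneg (by linarith), fun x hx hGx => ?_⟩
  have hn := nrm_pos f hx
  have h1 := abv_mv f G hG x
  have h2 : f (MvPolynomial.eval x G) ≤ (1 + cs f G) * nrm f x ^ d :=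
    h1.trans (mul_le_mul_of_nonneg_right (by linarith) (pow_nonneg hn.le _))
  have h3 := Real.log_le_log (f.pos_iff.2 hGx) h2
  rw [Real.log_mul (by linarith) (pow_pos hn _).ne', Real.log_pow] at h3
  rw [lam_eq f _ _ hx hGx]
  linarith

section

variable {K : Type} [Field K] [NumberField K]

theorem tang (α : K) (hα : ∀ r : ℚ, algebraMap ℚ K r ≠ α) {d n N : ℕ} (hd : 1 ≤ d)
    {F : MvPolynomial (Fin 3) ℚ} (hF : F.IsHomogeneous d) (hPhi : Phi F ≠ 0) (Y : Sys K F n N)
    (hN : N + finrank K (fm (bc K F) n) = (D n).card) :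
    ∃ M : Fin N → MvPolynomial (Fin 3) K, (∀ a, (M a).IsHomogeneous n) ∧
      LinearIndependent K (fun a => Y.u (M a)) ∧ ∀ f : AbsoluteValue K ℝ, ∃ C : ℝ,
      ∀ y : Fin 3 → K, y ≠ 0 → MvPolynomial.eval y (bc K F) = 0 →
      MvPolynomial.eval y (De K) ≠ 0 → MvPolynomial.eval y (La α) ≠ 0 →
      (∀ a, MvPolynomial.eval y (M a) ≠ 0) →
      C ≤ lam f 1 (La α) y → lam f 1 (La α) y ≤ lam f 2 (De K) y →
      (N * (N - 1) / (2 * d) : ℝ) * lam f 2 (De K) y ≤ ∑ a, lam f n (M a) y + C := by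
  classical
  obtain ⟨w, E, hwd, hE, hE0⟩ := exists_mult α hα hF hPhi
  have hd0 : (0 : ℝ) < d := by exact_mod_cast hd
  have hκ : (0 : ℝ) ≤ N * (N - 1) / (2 * d) := by
    rcases Nat.eq_zero_or_pos N with h | h
    · rw [h]; simp
    · have h1 : (1 : ℝ) ≤ N := by exact_mod_cast h
      have h2 : (0 : ℝ) ≤ N - 1 := by linarith
      positivity
  rcases Nat.eq_zero_or_pos w with hw | hw
  · subst hw
    obtain ⟨M, s, -, hMU, hli, -⟩ := flag Y 0
      (fun _ => MvPolynomial.homogeneousSubmodule (Fin 3) K n) rfl (fun _ => 0) (by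
        intro t h1 h2
        omega)
    refine ⟨M, fun a => hMU a, hli, fun f => ?_⟩
    obtain ⟨c, C1, B, hc, hB, hnear⟩ := near f α hF hE hE0
    choose Ca hCa0 hCa using fun a => lam_ge f (M a) (show (M a).IsHomogeneous n from hMU a)
    refine ⟨max C1 (∑ a, Ca a + (N * (N - 1) / (2 * d) : ℝ) * |Real.log B - 2 * Real.log c|),
      fun y hy hyF hyD hyL hyM hA hAW => ?_⟩
    obtain ⟨hy2, hcy, hδ1, hFz, hbδ⟩ := hnear y hy hyF hyD hyL ((le_max_left _ _).trans hA) hAW
    have hn := nrm_pos f hy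
    have hy2p : 0 < f (y 2) := f.pos_iff.2 hy2
    have hDp : 0 < f (MvPolynomial.eval y (De K)) := f.pos_iff.2 hyD
    rw [pow_zero, map_div₀, map_pow] at hbδ
    have h1 : f (y 2) ^ 2 ≤ B * f (MvPolynomial.eval y (De K)) := by
      rw [mul_div_assoc', le_div_iff₀ (pow_pos hy2p 2), one_mul] at hbδ
      exact hbδ
    have h2 : (c * nrm f y) ^ 2 ≤ B * f (MvPolynomial.eval y (De K)) :=
      (pow_le_pow_left₀ (by positivity) hcy 2).trans h1
    have h3 := Real.log_le_log (by positivity) h2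
    rw [Real.log_pow, Real.log_mul hc.ne' hn.ne', Real.log_mul hB.ne' hDp.ne'] at h3
    have h4 : lam f 2 (De K) y ≤ |Real.log B - 2 * Real.log c| := by
      rw [lam_eq f _ _ hy hyD]
      have := le_abs_self (Real.log B - 2 * Real.log c)
      push_cast at h3 ⊢
      linarith
    have h5 := mul_le_mul_of_nonneg_left h4 hκ
    have h6 : - ∑ a, Ca a ≤ ∑ a, lam f n (M a) y := by
      rw [← Finset.sum_neg_distrib]
      exact Finset.sum_le_sum fun a _ => hCa a y hy (hyM a)
    have h7 := le_max_right C1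
      (∑ a, Ca a + (N * (N - 1) / (2 * d) : ℝ) * |Real.log B - 2 * Real.log c|)
    linarith
  · have hw0 : (0 : ℝ) < w := by exact_mod_cast hw
    obtain ⟨M, s, hsN, hMU, hli, hsum⟩ := flag Y N
      (fun t => MvPolynomial.homogeneousSubmodule (Fin 3) K n ⊓
        (Q (psi α (bc K F)) w t).comap (psi α).toLinearMap) (by
          rw [Q_zero, Submodule.comap_top, inf_top_eq]) (fun t => N - t) (by
        intro t _ _
        set U : Submodule K (MvPolynomial (Fin 3) K) :=
          MvPolynomial.homogeneousSubmodule (Fin 3) K n ⊓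
            (Q (psi α (bc K F)) w t).comap (psi α).toLinearMap with hU
        have hfinU : Module.Finite K U := Submodule.finiteDimensional_of_le inf_le_left
        have h1 := codim (psi α).toLinearMap (MvPolynomial.homogeneousSubmodule (Fin 3) K n) hw
          hE hE0 t
        rw [finrank_hom, ← hU] at h1
        have h2 := LinearMap.finrank_range_add_finrank_ker (Y.u.domRestrict U)
        rw [LinearMap.range_domRestrict] at h2
        have h3 : finrank K (LinearMap.ker (Y.u.domRestrict U)) ≤ finrank K (fm (bc K F) n) := by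
          rw [← Submodule.finrank_map_subtype_eq U (LinearMap.ker (Y.u.domRestrict U))]
          refine Submodule.finrank_mono ?_
          rintro g hg
          obtain ⟨g', hg', rfl⟩ := Submodule.mem_map.1 hg
          have h4 : Y.u g'.1 = 0 := hg'
          have h5 : g'.1.IsHomogeneous n := g'.2.1
          exact ⟨h5, (Y.hk _ h5).1 h4⟩
        omega)
    have hMh : ∀ a, (M a).IsHomogeneous n := fun a => (hMU a).1
    refine ⟨M, hMh, hli, fun f => ?_⟩
    obtain ⟨c, C1, B, hc, hB, hnear⟩ := near f α hF hE hE0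
    have hdec : ∀ a, ∃ g ∈ J K w (s a), ∃ q, psi α (M a) = g + q * psi α (bc K F) :=
      fun a => mem_Q.1 (hMU a).2
    choose g hg q hq using hdec
    choose Ca hCa0 hCa using fun a => est1 f (max B 1) (by positivity) w (s a) (g a) (hg a)
    set C2 : ℝ := ∑ a, Real.log (Ca a + 1) + N * N * |2 * Real.log c| with hC2
    refine ⟨max 0 (max C1 C2), fun y hy hyF hyD hyL hyM hA hAW => ?_⟩
    have hC1 : C1 ≤ max 0 (max C1 C2) := (le_max_left _ _).trans (le_max_right _ _)
    have hC2' : C2 ≤ max 0 (max C1 C2) := (le_max_right _ _).trans (le_max_right _ _)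
    obtain ⟨hy2, hcy, hδ1, hFz, hbδ⟩ := hnear y hy hyF hyD hyL (hC1.trans hA) hAW
    have hn := nrm_pos f hy
    have hy2p : 0 < f (y 2) := f.pos_iff.2 hy2
    have hDp : 0 < f (MvPolynomial.eval y (De K)) := f.pos_iff.2 hyD
    set δ := MvPolynomial.eval y (De K) / y 2 ^ 2 with hδ
    set b := (y 1 + 2 * α * y 2) / y 2 with hb
    have hδ0 : δ ≠ 0 := div_ne_zero hyD (pow_ne_zero _ hy2)
    have hδp : 0 < f δ := f.pos_iff.2 hδ0
    set ρ : ℝ := f δ ^ ((w : ℝ)⁻¹) with hρ
    have hρ0 : 0 < ρ := Real.rpow_pos_of_pos hδp _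
    have hρw : ρ ^ w = f δ := Real.rpow_inv_natCast_pow hδp.le hw.ne'
    have hρ1 : ρ ≤ 1 := Real.rpow_le_one hδp.le hδ1 (by positivity)
    have hρl : Real.log ρ = (w : ℝ)⁻¹ * Real.log (f δ) := Real.log_rpow hδp _
    have hbρ : f b ≤ max B 1 * ρ := by
      have h1 : f b ^ w ≤ (max B 1 * ρ) ^ w := by
        rw [mul_pow, hρw]
        refine hbδ.trans (mul_le_mul_of_nonneg_right ?_ hδp.le)
        exact (le_max_left B 1).trans (le_self_pow₀ (le_max_right B 1) hw.ne')
      exact (pow_le_pow_iff_left₀ (f.nonneg _) (by positivity) hw.ne').1 h1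
    have hlδ : Real.log (f δ) ≤ - lam f 2 (De K) y - 2 * Real.log c := by
      rw [hδ, map_div₀, map_pow, Real.log_div hDp.ne' (pow_pos hy2p 2).ne', Real.log_pow,
        lam_eq f _ _ hy hyD]
      have h1 := Real.log_le_log (mul_pos hc hn) hcy
      rw [Real.log_mul hc.ne' hn.ne'] at h1
      push_cast
      linarith
    have hlam : ∀ a, - Real.log (Ca a + 1) + s a * ((w : ℝ)⁻¹ * (lam f 2 (De K) y +
        2 * Real.log c)) ≤ lam f n (M a) y := by
      intro a
      have h1 : evalEval b δ (psi α (M a)) = evalEval b δ (g a) := by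
        rw [hq a, evalEval_add, evalEval_mul, hFz, mul_zero, add_zero]
      have h2 : f (MvPolynomial.eval y (M a)) ≤ nrm f y ^ n * ((Ca a + 1) * ρ ^ s a) := by
        have hchar : CharZero K := inferInstance
        rw [eval_chart α (hMh a) y hy2, map_mul, map_pow, ← hδ, ← hb, h1]
        refine mul_le_mul (pow_le_pow_left₀ (f.nonneg _) (le_nrm f y 2) n) ?_ (f.nonneg _)
          (pow_nonneg hn.le _)
        refine (hCa a b δ ρ hρ0.le hρ1 hbρ hρw.ge).trans ?_
        exact mul_le_mul_of_nonneg_right (by linarith) (pow_nonneg hρ0.le _)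
      have h3 := Real.log_le_log (f.pos_iff.2 (hyM a)) h2
      have hCp : 0 < Ca a + 1 := by
        have := hCa0 a
        linarith
      rw [Real.log_mul (pow_pos hn _).ne' (mul_pos hCp (pow_pos hρ0 _)).ne',
        Real.log_mul hCp.ne' (pow_pos hρ0 _).ne', Real.log_pow, Real.log_pow, hρl] at h3
      rw [lam_eq f _ _ hy (hyM a)]
      have h4 : (s a : ℝ) * ((w : ℝ)⁻¹ * Real.log (f δ)) ≤
          s a * ((w : ℝ)⁻¹ * (- lam f 2 (De K) y - 2 * Real.log c)) :=
        mul_le_mul_of_nonneg_left (mul_le_mul_of_nonneg_left hlδ (by positivity))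
          (Nat.cast_nonneg _)
      have h5 : (s a : ℝ) * ((w : ℝ)⁻¹ * (- lam f 2 (De K) y - 2 * Real.log c)) =
          - (s a * ((w : ℝ)⁻¹ * (lam f 2 (De K) y + 2 * Real.log c))) := by ring
      linarith
    have hsl := Finset.sum_le_sum fun a (_ : a ∈ (univ : Finset (Fin N))) => hlam a
    rw [Finset.sum_add_distrib, Finset.sum_neg_distrib, ← Finset.sum_mul] at hsl
    -- the sum of the exponents
    have hS : (N : ℝ) * (N - 1) / 2 ≤ ∑ a, (s a : ℝ) := by
      have h1 : ((∑ t ∈ Finset.Icc 1 N, (N - t) : ℕ) : ℝ) ≤ ((∑ a, s a : ℕ) : ℝ) := by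
        exact_mod_cast hsum
      rw [Nat.cast_sum, Nat.cast_sum] at h1
      have h2 : ∑ t ∈ Finset.Icc 1 N, ((N - t : ℕ) : ℝ) = N * (N - 1) / 2 := by
        have h3 : ∀ t ∈ Finset.Icc 1 N, ((N - t : ℕ) : ℝ) = N - t := fun t ht => by
          rw [Nat.cast_sub (Finset.mem_Icc.1 ht).2]
        rw [Finset.sum_congr rfl h3, Finset.sum_sub_distrib, sum_id_Icc, Finset.sum_const,
          Nat.card_Icc, nsmul_eq_mul]
        push_cast
        ring
      rwa [h2] at h1
    have hSN : ∑ a, (s a : ℝ) ≤ N * N := by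
      calc ∑ a, (s a : ℝ) ≤ ∑ _a : Fin N, (N : ℝ) :=
            Finset.sum_le_sum fun a _ => by exact_mod_cast hsN a
        _ = N * N := by rw [Finset.sum_const, Finset.card_univ, Fintype.card_fin, nsmul_eq_mul]
    have hS0 : 0 ≤ ∑ a, (s a : ℝ) := Finset.sum_nonneg fun a _ => Nat.cast_nonneg _
    have hW0 : 0 ≤ lam f 2 (De K) y := ((le_max_left _ _).trans hA).trans hAW
    have hwd' : (w : ℝ) ≤ d := by exact_mod_cast hwd
    have h1 : (N * (N - 1) / (2 * d) : ℝ) * lam f 2 (De K) y ≤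
        (∑ a, (s a : ℝ)) * ((w : ℝ)⁻¹ * lam f 2 (De K) y) := by
      rw [← mul_assoc]
      refine mul_le_mul_of_nonneg_right ?_ hW0
      rw [← div_eq_mul_inv, ← div_div]
      exact div_le_div₀ hS0 hS hw0 hwd'
    have h2 : (∑ a, (s a : ℝ)) * ((w : ℝ)⁻¹ * (lam f 2 (De K) y + 2 * Real.log c)) =
        (∑ a, (s a : ℝ)) * ((w : ℝ)⁻¹ * lam f 2 (De K) y) +
        (∑ a, (s a : ℝ)) * (w : ℝ)⁻¹ * (2 * Real.log c) := by ring
    have h3 : - (N * N * |2 * Real.log c|) ≤
        (∑ a, (s a : ℝ)) * (w : ℝ)⁻¹ * (2 * Real.log c) := by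
      have hw1 : (w : ℝ)⁻¹ ≤ 1 := inv_le_one_of_one_le₀ (by exact_mod_cast hw)
      have h4 : (∑ a, (s a : ℝ)) * (w : ℝ)⁻¹ ≤ N * N := by
        calc (∑ a, (s a : ℝ)) * (w : ℝ)⁻¹ ≤ (N * N) * 1 :=
              mul_le_mul hSN hw1 (by positivity) (by positivity)
          _ = N * N := mul_one _
      have h5 : (∑ a, (s a : ℝ)) * (w : ℝ)⁻¹ * |2 * Real.log c| ≤ N * N * |2 * Real.log c| :=
        mul_le_mul_of_nonneg_right h4 (abs_nonneg _)
      have h6 : -((∑ a, (s a : ℝ)) * (w : ℝ)⁻¹ * |2 * Real.log c|) ≤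
          (∑ a, (s a : ℝ)) * (w : ℝ)⁻¹ * (2 * Real.log c) := by
        rw [← mul_neg]
        exact mul_le_mul_of_nonneg_left (neg_abs_le _) (by positivity)
      linarith
    rw [h2] at hsl
    linarith

end

end Pool.Agent.H13.QP
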