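import Mathlib
import Pool.Agent.H13.QP.TanG

/-!
The systems of forms at a place, for the points of a curve.
-/

set_option autoImplicit false
set_option linter.unusedSectionVars false

namespace Pool.Agent.H13.QP

open MvPolynomial Module Finset
open Pool.Agent.W180.OP (nrm le_nrm nrm_pos nrm_nonneg exists_nrm lam lam_eq min_lam)

section

variable {K : Type} [Field K]

theorem ns_three {α β γ : K} (h1 : α ≠ β) (h2 : α ≠ γ) (h3 : β ≠ γ) (L : Type) [Field L]
    [Algebra K L] (x : Fin 3 → L)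
    (h : ∀ i : Fin 3, aeval x ((![La α, La β, La γ] : Fin 3 → MvPolynomial (Fin 3) K) i) = 0) :
    x = 0 := by
  have e0 := h 0
  have e1 := h 1
  have e2 := h 2
  simp only [Matrix.cons_val_zero, Matrix.cons_val_one, Matrix.cons_val_two, Matrix.head_cons,
    Matrix.tail_cons, La, map_add, map_mul, aeval_X, algHom_C] at e0 e1 e2
  have hi := (algebraMap K L).injective
  have h1' : algebraMap K L α - algebraMap K L β ≠ 0 := sub_ne_zero.2 (hi.ne h1)
  have h2' : algebraMap K L α - algebraMap K L γ ≠ 0 := sub_ne_zero.2 (hi.ne h2)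
  have h3' : algebraMap K L β - algebraMap K L γ ≠ 0 := sub_ne_zero.2 (hi.ne h3)
  rw [map_pow] at e0 e1 e2
  set a := algebraMap K L α
  set b := algebraMap K L β
  set c := algebraMap K L γ
  have g1 : x 1 + (a + b) * x 2 = 0 := by
    apply mul_left_cancel₀ h1'
    linear_combination e0 - e1
  have g2 : x 1 + (a + c) * x 2 = 0 := by
    apply mul_left_cancel₀ h2'
    linear_combination e0 - e2
  have g3 : x 2 = 0 := by
    apply mul_left_cancel₀ h3'
    linear_combination g1 - g2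
  rw [g3] at g1
  have g4 : x 1 = 0 := by linear_combination g1
  rw [g3, g4] at e0
  have g5 : x 0 = 0 := by linear_combination e0
  funext i
  fin_cases i <;> assumption

theorem ns_disc [CharZero K] {α β : K} (h1 : α ≠ β) (L : Type) [Field L]
    [Algebra K L] (x : Fin 3 → L)
    (h : ∀ i : Fin 3, aeval x ((![La α, La β, De K] : Fin 3 → MvPolynomial (Fin 3) K) i) = 0) :
    x = 0 := by
  have e0 := h 0
  have e1 := h 1
  have e2 := h 2
  simp only [Matrix.cons_val_zero, Matrix.cons_val_one, Matrix.cons_val_two, Matrix.head_cons,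
    Matrix.tail_cons, La, De, map_add, map_sub, map_mul, map_pow, aeval_X, algHom_C] at e0 e1 e2
  have hi := (algebraMap K L).injective
  have h1' : algebraMap K L α - algebraMap K L β ≠ 0 := sub_ne_zero.2 (hi.ne h1)
  have h4 : algebraMap K L 4 = 4 := map_ofNat _ 4
  rw [h4] at e2
  set a := algebraMap K L α
  set b := algebraMap K L β
  have g1 : x 1 + (a + b) * x 2 = 0 := by
    apply mul_left_cancel₀ h1'
    linear_combination e0 - e1
  have g2 : x 0 = a * b * x 2 := by linear_combination e0 - a * g1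
  have g3 : (a - b) ^ 2 * x 2 ^ 2 = 0 := by
    linear_combination e2 + 4 * x 2 * g2 - (x 1 - (a + b) * x 2) * g1
  have g4 : x 2 = 0 := by
    rcases mul_eq_zero.1 g3 with h | h
    · exact absurd h (pow_ne_zero _ h1')
    · simpa using h
  rw [g4] at g1 g2
  have g5 : x 1 = 0 := by linear_combination g1
  have g6 : x 0 = 0 := by linear_combination g2
  funext i
  fin_cases i <;> assumption

/-- at a place at most two of the forms are small -/
theorem sel [CharZero K] {ι : Type} [Fintype ι] (α : ι → K) (hα : Function.Injective α)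
    (f : AbsoluteValue K ℝ) (C1 : ℝ) :
    ∃ C0 : ℝ, 0 ≤ C0 ∧ ∀ y : Fin 3 → K, y ≠ 0 → (∀ i, eval y (La (α i)) ≠ 0) →
      eval y (De K) ≠ 0 →
      (∃ i j, i ≠ j ∧ lam f 2 (De K) y ≤ C0 ∧
        ∑ k, lam f 1 (La (α k)) y ≤ lam f 1 (La (α i)) y + lam f 1 (La (α j)) y + C0) ∨
      (∃ i, C1 ≤ lam f 1 (La (α i)) y ∧ ∑ k, lam f 1 (La (α k)) y ≤ lam f 1 (La (α i)) y + C0) ∨
      (∑ k, lam f 1 (La (α k)) y ≤ C0) := by
  classical
  -- the constants
  have hc3 : ∀ t : ι × ι × ι, ∃ C : ℝ, ∀ y : Fin 3 → K, y ≠ 0 → (∀ i, eval y (La (α i)) ≠ 0) →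
      t.1 ≠ t.2.1 → t.1 ≠ t.2.2 → t.2.1 ≠ t.2.2 →
      lam f 1 (La (α t.1)) y ≤ C ∨ lam f 1 (La (α t.2.1)) y ≤ C ∨
        lam f 1 (La (α t.2.2)) y ≤ C := by
    rintro ⟨i, j, k⟩
    by_cases hd : i ≠ j ∧ i ≠ k ∧ j ≠ k
    · obtain ⟨C, hC⟩ := min_lam (n := 3) (by norm_num)
        (![La (α i), La (α j), La (α k)] : Fin 3 → MvPolynomial (Fin 3) K) ![1, 1, 1] (by
          intro l
          fin_cases l <;> exact La_hom _)
        (ns_three (hα.ne hd.1) (hα.ne hd.2.1) (hα.ne hd.2.2)) f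
      refine ⟨C, fun y hy hL _ _ _ => ?_⟩
      obtain ⟨l, hl⟩ := hC y hy (by
        intro l
        fin_cases l
        · exact hL i
        · exact hL j
        · exact hL k)
      fin_cases l
      · exact Or.inl hl
      · exact Or.inr (Or.inl hl)
      · exact Or.inr (Or.inr hl)
    · refine ⟨0, fun y _ _ h1 h2 h3 => absurd ⟨h1, h2, h3⟩ hd⟩
  have hc2 : ∀ t : ι × ι, ∃ C : ℝ, ∀ y : Fin 3 → K, y ≠ 0 → (∀ i, eval y (La (α i)) ≠ 0) →
      eval y (De K) ≠ 0 → t.1 ≠ t.2 →
      lam f 1 (La (α t.1)) y ≤ C ∨ lam f 1 (La (α t.2)) y ≤ C ∨ lam f 2 (De K) y ≤ C := by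
    rintro ⟨i, j⟩
    by_cases hd : i ≠ j
    · obtain ⟨C, hC⟩ := min_lam (n := 3) (by norm_num)
        (![La (α i), La (α j), De K] : Fin 3 → MvPolynomial (Fin 3) K) ![1, 1, 2] (by
          intro l
          fin_cases l
          · exact La_hom _
          · exact La_hom _
          · exact De_hom) (ns_disc (hα.ne hd)) f
      refine ⟨C, fun y hy hL hD _ => ?_⟩
      obtain ⟨l, hl⟩ := hC y hy (by
        intro l
        fin_cases l
        · exact hL i
        · exact hL j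
        · exact hD)
      fin_cases l
      · exact Or.inl hl
      · exact Or.inr (Or.inl hl)
      · exact Or.inr (Or.inr hl)
    · refine ⟨0, fun y _ _ _ h1 => absurd h1 hd⟩
  choose c3 hc3 using hc3
  choose c2 hc2 using hc2
  set B : ℝ := |C1| + ∑ t, |c3 t| + ∑ t, |c2 t| with hB
  have hs3 : 0 ≤ ∑ t, |c3 t| := Finset.sum_nonneg fun _ _ => abs_nonneg _
  have hs2 : 0 ≤ ∑ t, |c2 t| := Finset.sum_nonneg fun _ _ => abs_nonneg _
  have hB0 : 0 ≤ B := by
    have := abs_nonneg C1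
    linarith
  have h3B : ∀ t, c3 t ≤ B := fun t => by
    have h1 := Finset.single_le_sum (f := fun t => |c3 t|) (fun _ _ => abs_nonneg _)
      (Finset.mem_univ t)
    have h2 := le_abs_self (c3 t)
    have h3 := abs_nonneg C1
    linarith
  have h2B : ∀ t, c2 t ≤ B := fun t => by
    have h1 := Finset.single_le_sum (f := fun t => |c2 t|) (fun _ _ => abs_nonneg _)
      (Finset.mem_univ t)
    have h2 := le_abs_self (c2 t)
    have h3 := abs_nonneg C1
    linarith
  have hC1B : C1 ≤ B := by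
    have := le_abs_self C1
    linarith
  refine ⟨(Fintype.card ι + 1) * B, by positivity, fun y hy hL hD => ?_⟩
  set A : ι → ℝ := fun i => lam f 1 (La (α i)) y with hA
  have hBle : B ≤ (Fintype.card ι + 1) * B := by
    have : (0 : ℝ) ≤ Fintype.card ι * B := by positivity
    linarith
  have hsumle : ∀ s : Finset ι, (∀ k ∈ s, A k ≤ B) → ∑ k ∈ s, A k ≤ (Fintype.card ι + 1) * B := by
    intro s hs
    calc ∑ k ∈ s, A k ≤ ∑ k ∈ s, B := Finset.sum_le_sum hs
      _ = s.card * B := by rw [Finset.sum_const, nsmul_eq_mul]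
      _ ≤ (Fintype.card ι + 1) * B := by
          refine mul_le_mul_of_nonneg_right ?_ hB0
          have : (s.card : ℝ) ≤ Fintype.card ι := by exact_mod_cast Finset.card_le_univ s
          linarith
  by_cases h0 : ∃ i, B < A i
  swap
  · push Not at h0
    refine Or.inr (Or.inr ?_)
    exact hsumle _ fun k _ => h0 k
  obtain ⟨i, hi⟩ := h0
  by_cases h1 : ∃ j, j ≠ i ∧ B < A j
  swap
  · push Not at h1
    refine Or.inr (Or.inl ⟨i, hC1B.trans hi.le, ?_⟩)
    rw [← Finset.add_sum_erase _ _ (Finset.mem_univ i)]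
    have := hsumle (univ.erase i) fun k hk => h1 k (Finset.ne_of_mem_erase hk)
    linarith
  obtain ⟨j, hji, hj⟩ := h1
  refine Or.inl ⟨i, j, hji.symm, ?_, ?_⟩
  · rcases hc2 (i, j) y hy hL hD hji.symm with h | h | h
    · have := h2B (i, j)
      simp only [hA] at hi
      linarith
    · have := h2B (i, j)
      simp only [hA] at hj
      linarith
    · exact (h.trans (h2B _)).trans hBle
  · rw [← Finset.add_sum_erase _ _ (Finset.mem_univ i),
      ← Finset.add_sum_erase _ _ (Finset.mem_erase.2 ⟨hji, Finset.mem_univ j⟩)]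
    have := hsumle ((univ.erase i).erase j) (by
      intro k hk
      have hkj : k ≠ j := Finset.ne_of_mem_erase hk
      have hki : k ≠ i := Finset.ne_of_mem_erase (Finset.mem_of_mem_erase hk)
      have h3 := h3B (i, j, k)
      rcases hc3 (i, j, k) y hy hL hji.symm hki.symm hkj.symm with h | h | h
      · simp only [hA] at hi
        linarith
      · simp only [hA] at hj
        linarith
      · exact h.trans h3)
    linarith

theorem lam_mul (f : AbsoluteValue K ℝ) {m d e : ℕ} (G H : MvPolynomial (Fin m) K)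
    {x : Fin m → K} (hx : x ≠ 0) (hG : eval x G ≠ 0) (hH : eval x H ≠ 0) :
    lam f (d + e) (G * H) x = lam f d G x + lam f e H x := by
  rw [lam_eq f _ _ hx hG, lam_eq f _ _ hx hH, lam_eq f _ _ hx (by
    rw [map_mul]; exact mul_ne_zero hG hH), map_mul, map_mul,
    Real.log_mul (f.pos_iff.2 hG).ne' (f.pos_iff.2 hH).ne']
  push_cast
  ring

theorem lam_pow (f : AbsoluteValue K ℝ) {m d : ℕ} (G : MvPolynomial (Fin m) K) (s : ℕ)
    {x : Fin m → K} (hx : x ≠ 0) (hG : eval x G ≠ 0) :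
    lam f (d * s) (G ^ s) x = s * lam f d G x := by
  rw [lam_eq f _ _ hx hG, lam_eq f _ _ hx (by
    rw [map_pow]; exact pow_ne_zero _ hG), map_pow, map_pow, Real.log_pow]
  push_cast
  ring

end

section

variable {K : Type} [Field K] [NumberField K] {F : MvPolynomial (Fin 3) ℚ} {n N : ℕ}

/-- the system of the powers of a form -/
theorem pow_type (Y : Sys K F n N) (P : MvPolynomial (Fin 3) K) (p : ℕ) (hp : 1 ≤ p)
    (hP : P.IsHomogeneous p)
    (hinj : ∀ g : MvPolynomial (Fin 3) K, bc K F ∣ P * g → bc K F ∣ g) (S : ℝ)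
    (hS : S ≤ ((∑ t ∈ Finset.Icc 1 (n / p),
      ((D (n - p * t)).card - finrank K (fm (bc K F) (n - p * t))) : ℕ) : ℝ)) :
    ∃ M : Fin N → MvPolynomial (Fin 3) K, (∀ a, (M a).IsHomogeneous n) ∧
      LinearIndependent K (fun a => Y.u (M a)) ∧ ∀ f : AbsoluteValue K ℝ, ∃ C : ℝ,
      ∀ y : Fin 3 → K, y ≠ 0 → eval y P ≠ 0 → (∀ a, eval y (M a) ≠ 0) →
      S * lam f p P y ≤ ∑ a, lam f n (M a) y + C := by
  classical
  obtain ⟨M, s, hMh, hli, hMs, hsum⟩ := flag_pow Y P p hp hP hinj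
  refine ⟨M, hMh, hli, fun f => ?_⟩
  choose hps g hg hMg using hMs
  choose Ca hCa0 hCa using fun a => lam_ge f (g a) (hg a)
  obtain ⟨C0, hC0, hlP⟩ := lam_ge f P hP
  have hSs : S ≤ ∑ a, (s a : ℝ) := by
    refine hS.trans ?_
    exact_mod_cast hsum
  refine ⟨(∑ a, (s a : ℝ) - S) * C0 + ∑ a, Ca a, fun y hy hyP hyM => ?_⟩
  have hgy : ∀ a, eval y (g a) ≠ 0 := fun a h => hyM a (by
    rw [hMg a, map_mul, h, mul_zero])
  have h1 : ∀ a, (s a : ℝ) * lam f p P y - Ca a ≤ lam f n (M a) y := by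
    intro a
    have h2 : n = p * s a + (n - p * s a) := by
      have := hps a
      omega
    have h3 : lam f n (M a) y = lam f (p * s a) (P ^ s a) y + lam f (n - p * s a) (g a) y := by
      conv_lhs => rw [hMg a, h2]
      exact lam_mul f _ _ hy (by rw [map_pow]; exact pow_ne_zero _ hyP) (hgy a)
    rw [h3, lam_pow f P (s a) hy hyP]
    have := hCa a y hy (hgy a)
    linarith
  have h2 := Finset.sum_le_sum fun a (_ : a ∈ (univ : Finset (Fin N))) => h1 a
  rw [Finset.sum_sub_distrib, ← Finset.sum_mul] at h2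
  have h3 := hlP y hy hyP
  have h4 : 0 ≤ (∑ a, (s a : ℝ) - S) * (lam f p P y + C0) :=
    mul_nonneg (by linarith) (by linarith)
  have h5 : (∑ a, (s a : ℝ) - S) * (lam f p P y + C0) = (∑ a, (s a : ℝ)) * lam f p P y -
      S * lam f p P y + (∑ a, (s a : ℝ) - S) * C0 := by ring
  linarith

/-- the systems for a curve -/
theorem local_curve {ι : Type} [Fintype ι] (α : ι → K) (hα : Function.Injective α)
    (hirr : ∀ i, ∀ r : ℚ, algebraMap ℚ K r ≠ α i) {d : ℕ} (hd : 1 ≤ d) (hF : F.IsHomogeneous d)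
    (hPhi : Phi F ≠ 0) (hFD : ∀ g : MvPolynomial (Fin 3) K, bc K F ∣ De K * g → bc K F ∣ g)
    (hFL : ∀ i, ∀ g : MvPolynomial (Fin 3) K, bc K F ∣ La (α i) * g → bc K F ∣ g)
    (Y : Sys K F n N) (hN : N + finrank K (fm (bc K F) n) = (D n).card) (κ : ℝ) (hκ : 0 ≤ κ)
    (h1 : 2 * κ ≤ N * (N - 1) / (2 * d))
    (h2 : 2 * κ ≤ ((∑ t ∈ Finset.Icc 1 (n / 1),
      ((D (n - 1 * t)).card - finrank K (fm (bc K F) (n - 1 * t))) : ℕ) : ℝ))
    (h3 : κ ≤ ((∑ t ∈ Finset.Icc 1 (n / 2),
      ((D (n - 2 * t)).card - finrank K (fm (bc K F) (n - 2 * t))) : ℕ) : ℝ)) :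
    ∃ (T : Type) (_ : Fintype T) (_ : DecidableEq T) (M : T → Fin N → MvPolynomial (Fin 3) K),
      (∀ t a, (M t a).IsHomogeneous n) ∧ (∀ t, LinearIndependent K fun a => Y.u (M t a)) ∧
      ∀ f : AbsoluteValue K ℝ, ∃ C : ℝ, ∀ y : Fin 3 → K, y ≠ 0 → eval y (bc K F) = 0 →
        (∀ i, eval y (La (α i)) ≠ 0) → eval y (De K) ≠ 0 → (∀ t a, eval y (M t a) ≠ 0) →
        ∃ t, κ * ∑ i, lam f 1 (La (α i)) y + κ * lam f 2 (De K) y ≤
          ∑ a, lam f n (M t a) y + C := by
  classical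
  have hP2 : ∀ i j, (La (α i) * La (α j)).IsHomogeneous 2 := fun i j => (La_hom _).mul (La_hom _)
  choose M1 hM1h hM1l hM1 using fun t : ι × ι => pow_type Y (La (α t.1) * La (α t.2)) 2
    (by norm_num) (hP2 _ _) (fun g h => hFL t.2 g (hFL t.1 _ (by rwa [mul_assoc] at h))) κ h3
  choose M2 hM2h hM2l hM2 using fun i : ι => pow_type Y (La (α i)) 1 le_rfl (La_hom _)
    (hFL i) (2 * κ) h2
  choose M3 hM3h hM3l hM3 using fun i : ι => tang (α i) (hirr i) hd hF hPhi Y hN
  obtain ⟨M4, hM4h, hM4l, hM4⟩ := pow_type Y (De K) 2 (by norm_num) De_hom hFD κ h3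
  refine ⟨(ι × ι) ⊕ (ι ⊕ (ι ⊕ Unit)), inferInstance, inferInstance,
    Sum.elim M1 (Sum.elim M2 (Sum.elim M3 fun _ => M4)), ?_, ?_, ?_⟩
  · rintro (t | t | t | t) a
    · exact hM1h t a
    · exact hM2h t a
    · exact hM3h t a
    · exact hM4h a
  · rintro (t | t | t | t)
    · exact hM1l t
    · exact hM2l t
    · exact hM3l t
    · exact hM4l
  intro f
  choose B1 hB1 using fun t => hM1 t f
  choose B2 hB2 using fun i => hM2 i f
  choose B3 hB3 using fun i => hM3 i f
  obtain ⟨B4, hB4⟩ := hM4 f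
  obtain ⟨C0, hC0, hsel⟩ := sel α hα f (∑ i, |B3 i|)
  have hB3le : ∀ i, B3 i ≤ ∑ i, |B3 i| := fun i =>
    (le_abs_self _).trans (Finset.single_le_sum (f := fun i => |B3 i|)
      (fun _ _ => abs_nonneg _) (Finset.mem_univ i))
  have hB2le : ∀ i, B2 i ≤ ∑ i, |B2 i| := fun i =>
    (le_abs_self _).trans (Finset.single_le_sum (f := fun i => |B2 i|)
      (fun _ _ => abs_nonneg _) (Finset.mem_univ i))
  have hB1le : ∀ i, B1 i ≤ ∑ i, |B1 i| := fun i =>
    (le_abs_self _).trans (Finset.single_le_sum (f := fun i => |B1 i|)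
      (fun _ _ => abs_nonneg _) (Finset.mem_univ i))
  have hs1 : 0 ≤ ∑ i, |B1 i| := Finset.sum_nonneg fun _ _ => abs_nonneg _
  have hs2 : 0 ≤ ∑ i, |B2 i| := Finset.sum_nonneg fun _ _ => abs_nonneg _
  have hs3 : 0 ≤ ∑ i, |B3 i| := Finset.sum_nonneg fun _ _ => abs_nonneg _
  refine ⟨2 * (κ * C0) + ∑ i, |B1 i| + ∑ i, |B2 i| + ∑ i, |B3 i| + |B4|,
    fun y hy hyF hL hD hM => ?_⟩
  have hκC : 0 ≤ κ * C0 := mul_nonneg hκ hC0
  have h4 := abs_nonneg B4
  have h4' := le_abs_self B4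
  set A : ι → ℝ := fun i => lam f 1 (La (α i)) y with hA
  set W := lam f 2 (De K) y with hW
  rcases hsel y hy hL hD with ⟨i, j, hij, hW', hS⟩ | ⟨i, hi, hS⟩ | hS
  · refine ⟨Sum.inl (i, j), ?_⟩
    have h5 := hB1 (i, j) y hy (by
      rw [map_mul]
      exact mul_ne_zero (hL i) (hL j)) (fun a => hM (Sum.inl (i, j)) a)
    have h6 : lam f 2 (La (α i) * La (α j)) y = A i + A j :=
      lam_mul (d := 1) (e := 1) f _ _ hy (hL i) (hL j)
    rw [h6] at h5
    have h7 := mul_le_mul_of_nonneg_left hS hκ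
    have h8 := mul_le_mul_of_nonneg_left hW' hκ
    have h9 := hB1le (i, j)
    simp only [Sum.elim_inl]
    have h10 : κ * (lam f 1 (La (α i)) y + lam f 1 (La (α j)) y + C0) =
      κ * (A i + A j) + κ * C0 := by ring
    linarith
  · by_cases hc : W ≤ A i
    · refine ⟨Sum.inr (Sum.inl i), ?_⟩
      have h5 := hB2 i y hy (hL i) (fun a => hM (Sum.inr (Sum.inl i)) a)
      have h7 := mul_le_mul_of_nonneg_left hS hκ
      have h8 := mul_le_mul_of_nonneg_left hc hκ
      have h9 := hB2le i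
      simp only [Sum.elim_inl, Sum.elim_inr]
      have h10 : κ * (lam f 1 (La (α i)) y + C0) + κ * A i = 2 * κ * lam f 1 (La (α i)) y +
        κ * C0 := by ring
      linarith
    · push Not at hc
      refine ⟨Sum.inr (Sum.inr (Sum.inl i)), ?_⟩
      have h5 := hB3 i y hy hyF hD (hL i) (fun a => hM (Sum.inr (Sum.inr (Sum.inl i))) a)
        ((hB3le i).trans hi) hc.le
      have hW0 : 0 ≤ W := (hs3.trans hi).trans hc.le
      have h6 := mul_le_mul_of_nonneg_right h1 hW0
      have h7 := mul_le_mul_of_nonneg_left hS hκ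
      have h8 := mul_le_mul_of_nonneg_left hc.le hκ
      have h9 := hB3le i
      simp only [Sum.elim_inl, Sum.elim_inr]
      have h10 : κ * (lam f 1 (La (α i)) y + C0) = κ * A i + κ * C0 := by ring
      linarith
  · refine ⟨Sum.inr (Sum.inr (Sum.inr ())), ?_⟩
    have h5 := hB4 y hy hD (fun a => hM (Sum.inr (Sum.inr (Sum.inr ()))) a)
    have h7 := mul_le_mul_of_nonneg_left hS hκ
    simp only [Sum.elim_inr]
    linarith

end

end Pool.Agent.H13.QP
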