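import Mathlib
import Pool.Agent.H13.QP.Loc

/-!
From the systems at the places to the global inequality.
-/

set_option autoImplicit false
set_option linter.unusedSectionVars false

namespace Pool.Agent.H13.QP

open MvPolynomial Module Finset
open NumberField IsDedekindDomain Height
open Pool.Agent.R405 (exv dot Good)
open Pool.Agent.W180.OP (Pl av wt nrm le_nrm nrm_pos nrm_nonneg exists_nrm wt_nonneg lam lam_eq)

section

variable {K : Type} [Field K] [NumberField K] {F : MvPolynomial (Fin 3) ℚ} {n N : ℕ}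

theorem nrm_exv {v : Pl ℚ} {f : AbsoluteValue K ℝ} (h : Good v f) (x : Fin 3 → ℚ) :
    nrm f (exv K x) = nrm (av v) x := by
  unfold nrm
  congr 1
  funext j
  exact h.ext (x j)

theorem exv_ne' {x : Fin 3 → ℚ} (hx : x ≠ 0) : exv K x ≠ 0 := by
  obtain ⟨j, hj⟩ := Function.ne_iff.1 hx
  intro h
  apply hj
  have h1 := congrFun h j
  exact (algebraMap ℚ K).injective (by
    rw [Pi.zero_apply, map_zero]
    exact h1)

/-- the part of the inequality from the points of the divisor -/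
noncomputable def PA {ι : Type} [Fintype ι] (S : Finset (Pl ℚ)) (f : Pl ℚ → AbsoluteValue K ℝ)
    (α : ι → K) (x : Fin 3 → ℚ) : ℝ :=
  ∑ v ∈ S, wt v * ∑ i, lam (f v) 1 (La (α i)) (exv K x)

/-- the part of the inequality from the discriminant -/
noncomputable def PW (S : Finset (Pl ℚ)) (f : Pl ℚ → AbsoluteValue K ℝ) (x : Fin 3 → ℚ) : ℝ :=
  ∑ v ∈ S, wt v * lam (f v) 2 (De K) (exv K x)

theorem glob [IsGalois ℚ K] (hi : ∃ z : K, z ^ 2 = -1) (hN : 1 ≤ N) (Y : Sys K F n N)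
    {ι : Type} [Fintype ι] (α : ι → K) {T : Type} [Fintype T] [DecidableEq T]
    (M : T → Fin N → MvPolynomial (Fin 3) K) (hMh : ∀ t a, (M t a).IsHomogeneous n)
    (hMl : ∀ t, LinearIndependent K fun a => Y.u (M t a)) (κ1 κ2 : ℝ)
    (hloc : ∀ f : AbsoluteValue K ℝ, ∃ C : ℝ, ∀ y : Fin 3 → K, y ≠ 0 → eval y (bc K F) = 0 →
        (∀ i, eval y (La (α i)) ≠ 0) → eval y (De K) ≠ 0 → (∀ t a, eval y (M t a) ≠ 0) →
        ∃ t, κ1 * ∑ i, lam f 1 (La (α i)) y + κ2 * lam f 2 (De K) y ≤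
          ∑ a, lam f n (M t a) y + C) :
    ∃ Z : Finset (MvPolynomial (Fin 3) ℚ), (∀ z ∈ Z, z.IsHomogeneous n ∧ ¬ F ∣ z) ∧
      ∀ (S : Finset (Pl ℚ)) (f : Pl ℚ → AbsoluteValue K ℝ), (∀ v ∈ S, Good v (f v)) →
      ∀ ε : ℝ, 0 < ε → ∃ C : ℝ, 0 ≤ C ∧ ∀ x : Fin 3 → ℚ, x ≠ 0 → eval x F = 0 →
        (∀ z ∈ Z, eval x z ≠ 0) → (∀ i, eval (exv K x) (La (α i)) ≠ 0) →
        eval (exv K x) (De K) ≠ 0 →
        κ1 * PA S f α x + κ2 * PW S f x ≤ (N + ε) * (n * logHeight x) + C := by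
  classical
  obtain ⟨Z0, hZ0, hsub⟩ := sub_sys hi hN Y (fun l : T × Fin N => M l.1 l.2)
    (fun l => hMh l.1 l.2)
  have hz : ∀ l : T × Fin N, ∃ z : MvPolynomial (Fin 3) ℚ,
      z.IsHomogeneous n ∧ ¬ F ∣ z ∧
        ∀ x : Fin 3 → ℚ, eval x z ≠ 0 → eval (exv K x) (M l.1 l.2) ≠ 0 :=
    fun l => comp_ne (M l.1 l.2) (hMh _ _) fun h =>
      (hMl l.1).ne_zero l.2 ((Y.hk _ (hMh _ _)).2 h)
  choose zl hzl1 hzl2 hzl3 using hz
  refine ⟨Z0 ∪ univ.image zl, ?_, ?_⟩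
  · intro z hz
    rcases Finset.mem_union.1 hz with hz | hz
    · exact hZ0 z hz
    · obtain ⟨l, -, rfl⟩ := Finset.mem_image.1 hz
      exact ⟨hzl1 l, hzl2 l⟩
  intro S f hf ε hε
  obtain ⟨C1, hC1, hmain⟩ := hsub S f hf ε hε
  choose Cv hCv using fun v : Pl ℚ => hloc (f v)
  refine ⟨C1 + ∑ v ∈ S, wt v * |Cv v|, add_nonneg hC1 (Finset.sum_nonneg fun v _ =>
    mul_nonneg (wt_nonneg v) (abs_nonneg _)), fun x hx hxF hxZ hxL hxD => ?_⟩
  have hy0 : exv K x ≠ 0 := exv_ne' hx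
  have hyF : eval (exv K x) (bc K F) = 0 := by rw [eval_bc, hxF, map_zero]
  have hyM : ∀ t a, eval (exv K x) (M t a) ≠ 0 := fun t a =>
    hzl3 (t, a) x (hxZ _ (Finset.mem_union_right _ (Finset.mem_image_of_mem _
      (Finset.mem_univ _))))
  choose tv htv using fun v : Pl ℚ => hCv v (exv K x) hy0 hyF hxL hxD hyM
  have h1 := hmain x hx hxF (fun z hz => hxZ z (Finset.mem_union_left _ hz))
    (fun v a => (tv v, a)) (fun v _ => hMl (tv v))
  have h2 : κ1 * PA S f α x + κ2 * PW S f x = ∑ v ∈ S, wt v *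
      (κ1 * ∑ i, lam (f v) 1 (La (α i)) (exv K x) + κ2 * lam (f v) 2 (De K) (exv K x)) := by
    unfold PA PW
    rw [Finset.mul_sum, Finset.mul_sum, ← Finset.sum_add_distrib]
    refine Finset.sum_congr rfl fun v _ => ?_
    ring
  rw [h2]
  have h3 : ∀ v ∈ S, wt v * (κ1 * ∑ i, lam (f v) 1 (La (α i)) (exv K x) +
      κ2 * lam (f v) 2 (De K) (exv K x)) ≤ wt v * ∑ a, (n * Real.log (nrm (av v) x) -
          Real.log (f v (eval (exv K x) (M (tv v) a)))) + wt v * |Cv v| := by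
    intro v hv
    rw [← mul_add]
    refine mul_le_mul_of_nonneg_left ?_ (wt_nonneg v)
    have h4 := htv v
    have h5 : ∑ a, lam (f v) n (M (tv v) a) (exv K x) = ∑ a, (n * Real.log (nrm (av v) x) -
          Real.log (f v (eval (exv K x) (M (tv v) a)))) := by
      refine Finset.sum_congr rfl fun a _ => ?_
      rw [lam_eq (f v) _ _ hy0 (hyM _ _), nrm_exv (hf v hv)]
    rw [h5] at h4
    have h6 := le_abs_self (Cv v)
    linarith
  refine (Finset.sum_le_sum h3).trans ?_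
  rw [Finset.sum_add_distrib]
  linarith

end

end Pool.Agent.H13.QP
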