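import Mathlib
import Pool.Agent.H13.QP.Glob

/-!
The inequality on a curve, up to finitely many forms.
-/

set_option autoImplicit false
set_option linter.unusedSectionVars false

namespace Pool.Agent.H13.QP

open MvPolynomial Module Finset
open NumberField IsDedekindDomain Height
open Pool.Agent.R405 (exv dot Good)
open Pool.Agent.W180.OP (Pl av wt nrm le_nrm nrm_pos nrm_nonneg exists_nrm wt_nonneg lam lam_eq)

theorem fc_le (d m : ℕ) : fc d m ≤ (D m).card := by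
  unfold fc
  split_ifs with h
  · have h1 := card_D' m
    have h2 := card_D' (m - d)
    have h3 : (m - d + 1) * (m - d + 2) ≤ (m + 1) * (m + 2) := Nat.mul_le_mul (by omega) (by omega)
    omega
  · exact Nat.zero_le _

theorem dim_low (d m : ℕ) : (d : ℝ) * m - d ^ 2 ≤ (((D m).card - fc d m : ℕ) : ℝ) := by
  rw [Nat.cast_sub (fc_le d m)]
  unfold fc
  split_ifs with h
  · obtain ⟨e, rfl⟩ := Nat.exists_eq_add_of_le h
    rw [Nat.add_sub_cancel_left, card_D, card_D]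
    push_cast
    have hd : (0 : ℝ) ≤ d := Nat.cast_nonneg d
    have he : (0 : ℝ) ≤ e := Nat.cast_nonneg e
    nlinarith
  · push Not at h
    have h1 : (m : ℝ) < d := by exact_mod_cast h
    have hm : (0 : ℝ) ≤ m := Nat.cast_nonneg m
    have h2 : (0 : ℝ) ≤ ((D m).card : ℝ) := Nat.cast_nonneg _
    push_cast
    nlinarith

theorem dim_up {d m : ℕ} (h : d ≤ m) : (((D m).card - fc d m : ℕ) : ℝ) ≤ d * m + 2 * d := by
  rw [Nat.cast_sub (fc_le d m)]
  unfold fc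
  rw [if_pos h]
  obtain ⟨e, rfl⟩ := Nat.exists_eq_add_of_le h
  rw [Nat.add_sub_cancel_left, card_D, card_D]
  push_cast
  have hd : (0 : ℝ) ≤ d := Nat.cast_nonneg d
  have he : (0 : ℝ) ≤ e := Nat.cast_nonneg e
  nlinarith

theorem sum_low (d n p : ℕ) :
    ((n / p : ℕ) : ℝ) * (d * n - d ^ 2) - d * p * (((n / p : ℕ) : ℝ) * ((n / p : ℕ) + 1) / 2) ≤
    ((∑ t ∈ Finset.Icc 1 (n / p), ((D (n - p * t)).card - fc d (n - p * t)) : ℕ) : ℝ) := by
  rw [Nat.cast_sum]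
  have h1 : ∑ t ∈ Finset.Icc 1 (n / p), ((d : ℝ) * n - d ^ 2 - d * p * t) ≤
      ∑ t ∈ Finset.Icc 1 (n / p), ((((D (n - p * t)).card - fc d (n - p * t) : ℕ)) : ℝ) := by
    refine Finset.sum_le_sum fun t ht => ?_
    have h2 := dim_low d (n - p * t)
    have h3 : p * t ≤ n := (Nat.mul_le_mul_left p (Finset.mem_Icc.1 ht).2).trans
      (Nat.mul_div_le n p)
    rw [Nat.cast_sub h3] at h2
    push_cast at h2 ⊢
    linarith
  refine le_trans (le_of_eq ?_) h1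
  rw [Finset.sum_sub_distrib, ← Finset.mul_sum, sum_id_Icc, Finset.sum_const, Nat.card_Icc,
    nsmul_eq_mul, Nat.add_sub_cancel]

/-- the weight of the inequality on a curve of degree `d` -/
noncomputable def kap (d n : ℕ) : ℝ := d * n ^ 2 / 4 - (d ^ 2 + d + 1) * n

theorem ar1 {d n N : ℕ} (hd : (1 : ℝ) ≤ d) (hn : (d : ℝ) + 3 < n)
    (hN : (d : ℝ) * n - d ^ 2 ≤ N) : 2 * kap d n ≤ N * (N - 1) / (2 * d) := by
  have hm : 3 * (d : ℝ) ≤ d * n - d ^ 2 := by nlinarith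
  rw [le_div_iff₀ (by positivity)]
  have h3 : ((d : ℝ) * n - d ^ 2) * (d * n - d ^ 2 - 1) ≤ N * (N - 1) := by
    nlinarith
  refine le_trans ?_ h3
  rw [kap]
  have hn0 : (0 : ℝ) ≤ n := Nat.cast_nonneg n
  have h4 : 0 ≤ (d : ℝ) ^ 2 * n := by positivity
  have h5 : 0 ≤ (d : ℝ) * n := by positivity
  have h6 : 0 ≤ (d : ℝ) ^ 3 * n := by positivity
  have h7 : 0 ≤ (d : ℝ) ^ 4 := by positivity
  nlinarith

theorem ar2 (d n : ℕ) : 2 * kap d n ≤ ((∑ t ∈ Finset.Icc 1 (n / 1),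
      ((D (n - 1 * t)).card - fc d (n - 1 * t)) : ℕ) : ℝ) := by
  refine le_trans ?_ (sum_low d n 1)
  rw [Nat.div_one, kap]
  have h4 : 0 ≤ (d : ℝ) ^ 2 * n := by positivity
  have h5 : 0 ≤ (d : ℝ) * n := by positivity
  have h6 : 0 ≤ (n : ℝ) := Nat.cast_nonneg n
  push_cast
  nlinarith

theorem ar3 {d n : ℕ} (_ : 1 ≤ n) : kap d n ≤ ((∑ t ∈ Finset.Icc 1 (n / 2),
      ((D (n - 2 * t)).card - fc d (n - 2 * t)) : ℕ) : ℝ) := by
  refine le_trans ?_ (sum_low d n 2)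
  rw [kap]
  obtain ⟨T, hT⟩ : ∃ T, T = n / 2 := ⟨_, rfl⟩
  rw [← hT]
  have h4 : n = 2 * T ∨ n = 2 * T + 1 := by omega
  have hT0 : (0 : ℝ) ≤ T := Nat.cast_nonneg _
  have hd0 : (0 : ℝ) ≤ d := Nat.cast_nonneg _
  have hd2 : 0 ≤ (d : ℝ) * T := by positivity
  have hd3 : 0 ≤ (d : ℝ) ^ 2 * T := by positivity
  have hd4 : 0 ≤ (d : ℝ) ^ 2 := by positivity
  rcases h4 with h4 | h4
  · have h5 : (n : ℝ) = 2 * T := by exact_mod_cast h4
    rw [h5]
    push_cast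
    nlinarith
  · have h5 : (n : ℝ) = 2 * T + 1 := by exact_mod_cast h4
    rw [h5]
    push_cast
    nlinarith

section

variable {K : Type} [Field K] [NumberField K]

theorem curve_bd [IsGalois ℚ K] (hi : ∃ z : K, z ^ 2 = -1) {ι : Type} [Fintype ι] (α : ι → K)
    (hα : Function.Injective α) (hirr : ∀ i, ∀ r : ℚ, algebraMap ℚ K r ≠ α i)
    {F : MvPolynomial (Fin 3) ℚ} {d : ℕ} (hd : 1 ≤ d) (hF : F.IsHomogeneous d) (hF0 : F ≠ 0)
    (hPhi : Phi F ≠ 0) (hFD : ∀ g : MvPolynomial (Fin 3) K, bc K F ∣ De K * g → bc K F ∣ g)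
    (hFL : ∀ i, ∀ g : MvPolynomial (Fin 3) K, bc K F ∣ La (α i) * g → bc K F ∣ g)
    (ε : ℝ) (hε : 0 < ε) :
    ∃ (n : ℕ) (Z : Finset (MvPolynomial (Fin 3) ℚ)), (∀ z ∈ Z, z.IsHomogeneous n ∧ ¬ F ∣ z) ∧
      ∀ (S : Finset (Pl ℚ)) (f : Pl ℚ → AbsoluteValue K ℝ), (∀ v ∈ S, Good v (f v)) →
      ∃ C : ℝ, 0 ≤ C ∧ ∀ x : Fin 3 → ℚ, x ≠ 0 → eval x F = 0 →
        (∀ z ∈ Z, eval x z ≠ 0) → (∀ i, eval (exv K x) (La (α i)) ≠ 0) →
        eval (exv K x) (De K) ≠ 0 →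
        PA S f α x + PW S f x ≤ (4 + ε) * logHeight x + C := by
  classical
  obtain ⟨n, hn⟩ := exists_nat_gt (4 * (2 * d + 1 + (4 + ε) * (d ^ 2 + d + 1)) / (ε * d) + d + 3)
  have hd0 : (1 : ℝ) ≤ d := by exact_mod_cast hd
  have hεd : 0 < ε * d := by positivity
  have hq0 : 0 ≤ 4 * (2 * d + 1 + (4 + ε) * (d ^ 2 + d + 1)) / (ε * d) := by positivity
  have hn1 : (d : ℝ) + 3 < n := by linarith
  have hn2 : 2 * d + 1 + (4 + ε) * (d ^ 2 + d + 1) ≤ ε * d * n / 4 := by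
    have h1 : 4 * (2 * d + 1 + (4 + ε) * (d ^ 2 + d + 1)) / (ε * d) ≤ n := by linarith
    rw [div_le_iff₀ hεd] at h1
    linarith
  have hdn : d ≤ n := by
    have : (d : ℝ) ≤ n := by linarith
    exact_mod_cast this
  have hn0 : (0 : ℝ) < n := by linarith
  set κ : ℝ := kap d n with hκ
  have hbal : (d * n + 2 * d + 1) * n ≤ κ * (4 + ε) := by
    rw [hκ, kap]
    have h1 := mul_le_mul_of_nonneg_right hn2 hn0.le
    nlinarith
  have hκ0 : 0 < κ := by
    by_contra h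
    push Not at h
    have h1 : κ * (4 + ε) ≤ 0 := mul_nonpos_of_nonpos_of_nonneg h (by linarith)
    have h2 : 0 < (d * n + 2 * d + 1 : ℝ) * n := by positivity
    linarith
  set N : ℕ := (D n).card - fc d n with hN
  have hNlow : (d : ℝ) * n - d ^ 2 ≤ N := dim_low d n
  have hNup : (N : ℝ) ≤ d * n + 2 * d := dim_up hdn
  have hFK : (bc K F).IsHomogeneous d := hF.map _
  have hFK0 : bc K F ≠ 0 := by
    intro h
    apply hF0
    exact MvPolynomial.map_injective _ (algebraMap ℚ K).injective (by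
      rw [map_zero]
      exact h)
  obtain ⟨Y⟩ := exists_sys (K := K) F (Or.inr hF) n N (by
    rw [finrank_fm hF hF0]
    have := fc_le d n
    omega)
  have hNK : N + finrank K (fm (bc K F) n) = (D n).card := by
    rw [finrank_fm hFK hFK0]
    have := fc_le d n
    omega
  have hm : 3 * (d : ℝ) ≤ d * n - d ^ 2 := by nlinarith
  have h1 : 2 * κ ≤ N * (N - 1) / (2 * d) := ar1 hd0 hn1 hNlow
  have h2 : 2 * κ ≤ ((∑ t ∈ Finset.Icc 1 (n / 1),
      ((D (n - 1 * t)).card - finrank K (fm (bc K F) (n - 1 * t))) : ℕ) : ℝ) := by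
    have h4 := ar2 d n
    have h5 : ∀ m, finrank K (fm (bc K F) m) = fc d m := finrank_fm hFK hFK0
    simp only [h5]
    exact h4
  have h3 : κ ≤ ((∑ t ∈ Finset.Icc 1 (n / 2),
      ((D (n - 2 * t)).card - finrank K (fm (bc K F) (n - 2 * t))) : ℕ) : ℝ) := by
    have h4 := ar3 (d := d) (n := n) (by
      have : (0 : ℝ) < n := hn0
      exact_mod_cast this)
    have h5 : ∀ m, finrank K (fm (bc K F) m) = fc d m := finrank_fm hFK hFK0
    simp only [h5]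
    exact h4
  have hN1 : 1 ≤ N := by
    have : (0 : ℝ) < N := by nlinarith
    exact_mod_cast this
  obtain ⟨T, _, _, M, hMh, hMl, hloc⟩ := local_curve α hα hirr hd hF hPhi hFD hFL Y hNK κ hκ0.le
    h1 h2 h3
  obtain ⟨Z, hZ, hglob⟩ := glob hi hN1 Y α M hMh hMl κ κ hloc
  refine ⟨n, Z, hZ, fun S f hf => ?_⟩
  obtain ⟨C, hC, hmain⟩ := hglob S f hf 1 one_pos
  refine ⟨C / κ, by positivity, fun x hx hxF hxZ hxL hxD => ?_⟩
  have h4 := hmain x hx hxF hxZ hxL hxD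
  have hlh := logHeight_nonneg x
  have h5 : ((N : ℝ) + 1) * (n * logHeight x) ≤ κ * (4 + ε) * logHeight x := by
    rw [← mul_assoc]
    refine mul_le_mul_of_nonneg_right ?_ hlh
    refine le_trans (mul_le_mul_of_nonneg_right ?_ hn0.le) hbal
    linarith
  have h6 : κ * (PA S f α x + PW S f x) ≤ κ * ((4 + ε) * logHeight x + C / κ) := by
    have h7 : κ * ((4 + ε) * logHeight x + C / κ) = κ * (4 + ε) * logHeight x + C := by
      field_simp
    rw [h7]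
    linarith
  exact le_of_mul_le_mul_left h6 hκ0

end

end Pool.Agent.H13.QP
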