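import Mathlib
import Pool.Agent.H13.QP.Curve

/-!
Algebra of an irreducible rational form: its zeros on another form, the double points on it, and
multiplication modulo it over a number field.
-/

set_option autoImplicit false
set_option linter.unusedSectionVars false

namespace Pool.Agent.H13.QP

open MvPolynomial Module Finset
open Pool.Agent.R405 (exv)

section field

variable {k : Type} [Field k]

/-- factors of homogeneous polynomials are homogeneous (as in `N752.HY.Fac` of the library) -/
theorem homog_of_dvd {σ : Type} [Finite σ] {F G : MvPolynomial σ k} {n : ℕ} (hF : F.IsHomogeneous n)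
    (hF0 : F ≠ 0) (h : G ∣ F) : G.IsHomogeneous G.totalDegree := by
  obtain ⟨K, rfl⟩ := h
  have hG0 : G ≠ 0 := left_ne_zero_of_mul hF0
  have hK0 : K ≠ 0 := right_ne_zero_of_mul hF0
  have hle : ∀ P : MvPolynomial σ k, P ≠ 0 → (P : MvPowerSeries σ k).order ≤ P.totalDegree := by
    intro P hP
    obtain ⟨d, hd⟩ := MvPolynomial.ne_zero_iff.1 hP
    have h1 : (P : MvPowerSeries σ k).order ≤ (d.degree : ℕ∞) :=
      MvPowerSeries.order_le (by simpa using hd)
    refine h1.trans ?_
    have h2 : d.degree ≤ P.totalDegree := by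
      have := MvPolynomial.le_totalDegree (p := P) (s := d) (MvPolynomial.mem_support_iff.2 hd)
      simpa [Finsupp.degree_apply, Finsupp.sum] using this
    exact_mod_cast h2
  have hmul : ((G * K : MvPolynomial σ k) : MvPowerSeries σ k).order =
      (G : MvPowerSeries σ k).order + (K : MvPowerSeries σ k).order := by
    rw [MvPolynomial.coe_mul, MvPowerSeries.order_mul]
  have hFo : (n : ℕ∞) ≤ ((G * K : MvPolynomial σ k) : MvPowerSeries σ k).order := by
    apply MvPowerSeries.nat_le_order
    intro d hd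
    rw [MvPolynomial.coeff_coe]
    by_contra hne
    have := hF hne
    have h' : d.degree = n := by rw [← this, Finsupp.degree_eq_weight_one]; rfl
    omega
  have hT : (G * K).totalDegree = n := hF.totalDegree hF0
  rw [MvPolynomial.totalDegree_mul_of_isDomain hG0 hK0] at hT
  have hGo := hle G hG0
  have hKo := hle K hK0
  rw [hmul] at hFo
  intro d hd
  have h1 : (G : MvPowerSeries σ k).order ≤ (d.degree : ℕ∞) :=
      MvPowerSeries.order_le (by simpa using hd)
  have h2 : d.degree ≤ G.totalDegree := by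
      have := MvPolynomial.le_totalDegree (p := G) (s := d) (MvPolynomial.mem_support_iff.2 hd)
      simpa [Finsupp.degree_apply, Finsupp.sum] using this
  have h3 : (n : ℕ∞) ≤ (d.degree : ℕ∞) + (K.totalDegree : ℕ∞) := hFo.trans (add_le_add h1 hKo)
  have h4 : n ≤ d.degree + K.totalDegree := by exact_mod_cast h3
  have h5 : d.degree = G.totalDegree := by omega
  rw [← h5, Finsupp.degree_eq_weight_one]
  rfl

/-- finitely many common zeros up to scaling -/
theorem bez_fin {F H : MvPolynomial (Fin 3) k} (hF : Irreducible F) {d e : ℕ}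
    (hFd : F.IsHomogeneous d) (hHe : H.IsHomogeneous e) (hFH : ¬ F ∣ H)
    (Ψ : (Fin 3 → k) → ℝ) (hΨ : ∀ (c : k) (x : Fin 3 → k), c ≠ 0 → Ψ (c • x) = Ψ x) :
    ∃ C : ℝ, ∀ x : Fin 3 → k, x ≠ 0 → eval x F = 0 → eval x H = 0 → Ψ x ≤ C := by
  classical
  have hfin : (Ideal.span {F, H}).minimalPrimes.Finite :=
    Ideal.finite_minimalPrimes_of_isNoetherianRing _ _
  set rep : Ideal (MvPolynomial (Fin 3) k) → (Fin 3 → k) := fun I =>
    if h : ∃ x : Fin 3 → k, x ≠ 0 ∧ il x = I then h.choose else 0 with hrep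
  refine ⟨∑ I ∈ hfin.toFinset, |Ψ (rep I)|, fun x hx h1 h2 => ?_⟩
  have h3 := bez_min hF hFd hHe hFH x hx h1 h2
  have hex : ∃ y : Fin 3 → k, y ≠ 0 ∧ il y = il x := ⟨x, hx, rfl⟩
  have hr : rep (il x) ≠ 0 ∧ il (rep (il x)) = il x := by
    rw [hrep]
    simp only [hex, dif_pos]
    exact hex.choose_spec
  set y := rep (il x) with hy
  obtain ⟨j, hj⟩ := Function.ne_iff.1 hr.1
  rw [Pi.zero_apply] at hj
  have h4 : x = (x j / y j) • y := by
    funext i
    rw [Pi.smul_apply, smul_eq_mul, div_mul_eq_mul_div, eq_div_iff hj]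
    have := il_eq hr.2 i j
    linear_combination this
  have h5 : x j / y j ≠ 0 := by
    intro h
    rw [h, zero_smul] at h4
    exact hx h4
  have h6 : Ψ x = Ψ y := by
    conv_lhs => rw [h4]
    exact hΨ _ _ h5
  rw [h6]
  exact (le_abs_self _).trans (Finset.single_le_sum (f := fun I => |Ψ (rep I)|)
    (fun _ _ => abs_nonneg _) (hfin.mem_toFinset.2 h3))

end field

theorem De_ne : De ℚ ≠ 0 := by
  intro h
  have h1 := congrArg (eval ![0, 1, 0]) h
  rw [eval_De] at h1
  norm_num at h1

/-- the form does not vanish at all double points -/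
theorem Phi_ne {F : MvPolynomial (Fin 3) ℚ} (hF : Irreducible F) {d : ℕ}
    (hFd : F.IsHomogeneous d) (hFD : ¬ F ∣ De ℚ) : Phi F ≠ 0 := by
  intro h0
  have hfin : (Ideal.span {F, De ℚ}).minimalPrimes.Finite :=
    Ideal.finite_minimalPrimes_of_isNoetherianRing _ _
  have hmem : ∀ t : ℚ, il (![t ^ 2, -2 * t, 1] : Fin 3 → ℚ) ∈
      (Ideal.span {F, De ℚ}).minimalPrimes := by
    intro t
    refine bez_min hF hFd De_hom hFD _ ?_ ?_ ?_
    · intro h
      have := congrFun h 2
      simp at this
    · have h1 : Polynomial.eval t (Phi F) = eval (![t ^ 2, -2 * t, 1] : Fin 3 → ℚ) F := by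
        unfold Phi
        have h2 : ((Polynomial.evalRingHom t).comp (aeval (R := ℚ) ![(Polynomial.X : Polynomial ℚ) ^ 2,
            Polynomial.C (-2) * Polynomial.X, 1]).toRingHom) =
            (eval (![t ^ 2, -2 * t, 1] : Fin 3 → ℚ)) := by
          apply MvPolynomial.ringHom_ext
          · intro r
            simp
          · intro i
            fin_cases i <;> simp
        exact congrArg (fun φ : MvPolynomial (Fin 3) ℚ →+* ℚ => φ F) h2
      rw [← h1, h0, Polynomial.eval_zero]
    · rw [eval_De]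
      simp
      ring
  have hinj : Function.Injective fun t : ℚ => il (![t ^ 2, -2 * t, 1] : Fin 3 → ℚ) := by
    intro s t hst
    have := il_eq hst 1 2
    simp at this
    linarith
  exact Set.infinite_range_of_injective hinj (hfin.subset (by
    rintro _ ⟨t, rfl⟩
    exact hmem t))

section

variable {K : Type} [Field K] [NumberField K]

/-- the rational components of a polynomial -/
theorem comps' (g : MvPolynomial (Fin 3) K) :
    ∃ c : Fin (finrank ℚ K) → MvPolynomial (Fin 3) ℚ,
      g = ∑ j, C (finBasis ℚ K j) * bc K (c j) := by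
  classical
  refine ⟨fun j => ∑ a ∈ g.support, monomial a ((finBasis ℚ K).repr (coeff a g) j), ?_⟩
  conv_lhs => rw [← support_sum_monomial_coeff g]
  simp only [map_sum, map_monomial, Finset.mul_sum]
  rw [Finset.sum_comm]
  refine Finset.sum_congr rfl fun a _ => ?_
  have h1 := (finBasis ℚ K).sum_repr (coeff a g)
  conv_lhs => rw [← h1]
  rw [map_sum]
  refine Finset.sum_congr rfl fun j _ => ?_
  rw [C_mul_monomial, Algebra.smul_def, mul_comm]

theorem comps_inj (c : Fin (finrank ℚ K) → MvPolynomial (Fin 3) ℚ)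
    (h : ∑ j, C (finBasis ℚ K j) * bc K (c j) = 0) : ∀ j, c j = 0 := by
  intro j
  ext a
  have h1 := congrArg (coeff a) h
  rw [coeff_sum, coeff_zero] at h1
  simp only [coeff_C_mul, coeff_map] at h1
  have h2 : ∑ j, (coeff a (c j)) • finBasis ℚ K j = 0 := by
    rw [← h1]
    refine Finset.sum_congr rfl fun j _ => ?_
    rw [Algebra.smul_def, mul_comm]
  have := Fintype.linearIndependent_iff.1 (finBasis ℚ K).linearIndependent _ h2 j
  rw [this, coeff_zero]

theorem dvd_comps {F : MvPolynomial (Fin 3) ℚ} (c : Fin (finrank ℚ K) → MvPolynomial (Fin 3) ℚ)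
    (h : bc K F ∣ ∑ j, C (finBasis ℚ K j) * bc K (c j)) : ∀ j, F ∣ c j := by
  obtain ⟨Q, hQ⟩ := h
  obtain ⟨q, hq⟩ := comps' Q
  have h1 : ∑ j, C (finBasis ℚ K j) * bc K (c j - F * q j) = 0 := by
    simp only [bc, map_sub, map_mul, mul_sub, Finset.sum_sub_distrib] at hQ hq ⊢
    rw [hQ, hq, Finset.mul_sum, sub_eq_zero]
    refine Finset.sum_congr rfl fun j _ => ?_
    ring
  intro j
  exact ⟨q j, sub_eq_zero.1 (comps_inj _ h1 j)⟩

theorem bc_De : bc K (De ℚ) = De K := by
  simp [bc, De]

/-- multiplication by the discriminant modulo `F` -/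
theorem inj_De {F : MvPolynomial (Fin 3) ℚ} (hF : Irreducible F) (hFD : ¬ F ∣ De ℚ)
    (g : MvPolynomial (Fin 3) K) (h : bc K F ∣ De K * g) : bc K F ∣ g := by
  obtain ⟨c, hc⟩ := comps' g
  have h1 : De K * g = ∑ j, C (finBasis ℚ K j) * bc K (De ℚ * c j) := by
    rw [hc, Finset.mul_sum]
    refine Finset.sum_congr rfl fun j _ => ?_
    rw [← bc_De]
    simp only [bc, map_mul]
    ring
  rw [h1] at h
  have h2 := dvd_comps _ h
  rw [hc]
  refine Finset.dvd_sum fun j _ => Dvd.dvd.mul_left (map_dvd _ ?_) _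
  exact (hF.prime.dvd_or_dvd (h2 j)).resolve_left hFD

theorem La_ne (β : K) : La β ≠ 0 := by
  intro h
  have h1 := congrArg (eval ![1, 0, 0]) h
  rw [eval_La] at h1
  simp at h1

theorem La_prime (β : K) : Prime (La β) := by
  apply Irreducible.prime
  apply irreducible_of_totalDegree_eq_one
  · exact (La_hom β).totalDegree (La_ne β)
  · intro x hx
    have h1 := hx (Finsupp.single 0 1)
    have h2 : coeff (Finsupp.single (0 : Fin 3) 1) (La β) = 1 := by
      rw [La, coeff_add, coeff_add, coeff_C_mul, coeff_C_mul, coeff_X, coeff_X, coeff_X]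
      have e1 : ¬ (Finsupp.single (1 : Fin 3) 1 = Finsupp.single 0 1) := by
        intro h
        have := (Finsupp.single_left_inj (one_ne_zero)).1 h
        exact absurd this (by decide)
      have e2 : ¬ (Finsupp.single (2 : Fin 3) 1 = Finsupp.single 0 1) := by
        intro h
        have := (Finsupp.single_left_inj (one_ne_zero)).1 h
        exact absurd this (by decide)
      rw [if_pos rfl, if_neg e1, if_neg e2]
      simp
    rw [h2] at h1
    exact isUnit_of_dvd_one h1

/-- multiplication by a linear form modulo `F` -/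
theorem inj_La {F : MvPolynomial (Fin 3) ℚ} (β : K) (hFL : ¬ La β ∣ bc K F)
    (g : MvPolynomial (Fin 3) K) (h : bc K F ∣ La β * g) : bc K F ∣ g := by
  obtain ⟨Q, hQ⟩ := h
  have h1 : La β ∣ bc K F * Q := ⟨g, hQ.symm⟩
  obtain ⟨R, hR⟩ := ((La_prime β).dvd_or_dvd h1).resolve_left hFL
  refine ⟨R, mul_left_cancel₀ (La_ne β) ?_⟩
  rw [hQ, hR]
  ring

/-- a form divisible by a linear form -/
theorem La_case {F : MvPolynomial (Fin 3) ℚ} {d : ℕ} (hd : 1 ≤ d) (hFd : F.IsHomogeneous d)
    (hF0 : F ≠ 0) (β : K) (hFL : La β ∣ bc K F) :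
    ∃ H : MvPolynomial (Fin 3) ℚ, H.IsHomogeneous (d - 1) ∧ ¬ F ∣ H ∧
      ∀ x : Fin 3 → ℚ, eval x F = 0 → eval (exv K x) (La β) ≠ 0 → eval x H = 0 := by
  classical
  obtain ⟨Q, hQ⟩ := hFL
  have hFK : (bc K F).IsHomogeneous d := hFd.map _
  have hFK0 : bc K F ≠ 0 := by
    intro h
    apply hF0
    exact MvPolynomial.map_injective _ (algebraMap ℚ K).injective (by
      rw [map_zero]
      exact h)
  have h1 := hom_factor (La_hom β) hd (Q := Q) (by rw [← hQ]; exact hFK)
  set g := homogeneousComponent (d - 1) Q with hg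
  have hgh : g.IsHomogeneous (d - 1) := homogeneousComponent_isHomogeneous _ _
  have hFg : bc K F = La β * g := by rw [hQ, h1]
  have hg0 : g ≠ 0 := by
    intro h
    rw [hFg, h, mul_zero] at hFK0
    exact hFK0 rfl
  obtain ⟨ι, _, b, c, hc, hgc⟩ := comps g hgh
  have h2 : ∃ j, c j ≠ 0 := by
    by_contra h
    push Not at h
    apply hg0
    rw [hgc]
    exact Finset.sum_eq_zero fun j _ => by rw [h j]; simp [bc]
  obtain ⟨j, hj⟩ := h2
  refine ⟨c j, hc j, ?_, ?_⟩
  · rintro ⟨R, hR⟩
    have hR0 : R ≠ 0 := by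
      rintro rfl
      rw [mul_zero] at hR
      exact hj hR
    have h3 := totalDegree_mul_of_isDomain hF0 hR0
    rw [← hR, (hc j).totalDegree hj, hFd.totalDegree hF0] at h3
    omega
  · intro x hxF hxL
    have h3 : eval (exv K x) g = 0 := by
      have h4 : eval (exv K x) (bc K F) = 0 := by rw [eval_bc, hxF, map_zero]
      rw [hFg, map_mul] at h4
      exact (mul_eq_zero.1 h4).resolve_left hxL
    rw [hgc, map_sum] at h3
    simp only [map_mul, eval_C, eval_bc] at h3
    have h4 : ∑ j, (eval x (c j)) • b j = 0 := by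
      rw [← h3]
      refine Finset.sum_congr rfl fun j _ => ?_
      rw [Algebra.smul_def, mul_comm]
    exact Fintype.linearIndependent_iff.1 b.linearIndependent _ h4 j

end

end Pool.Agent.H13.QP
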