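import Mathlib

/-!
The discriminant of a quadratic polynomial and of the field of its roots.
-/

set_option autoImplicit false

namespace Pool.Agent.H13.QP

open Polynomial IntermediateField Module

theorem isInt (x : ℂ) (f : ℤ[X]) (hf : f ≠ 0) (hx : aeval x f = 0) : IsIntegral ℚ x := by
  rw [← isAlgebraic_iff_isIntegral]
  refine ⟨f.map (algebraMap ℤ ℚ), ?_, ?_⟩
  · rw [Ne, Polynomial.map_eq_zero_iff (RingHom.injective_int _)]
    exact hf
  · rw [aeval_map_algebraMap]
    exact hx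

theorem numberField_of (x : ℂ) (f : ℤ[X]) (hf : f ≠ 0) (hx : aeval x f = 0) :
    NumberField ℚ⟮x⟯ := by
  have : FiniteDimensional ℚ ℚ⟮x⟯ := IntermediateField.adjoin.finiteDimensional (isInt x f hf hx)
  exact ⟨⟩

/-- the discriminant of a family of two integral elements -/
theorem disc_pair (K : Type) [Field K] [NumberField K] (h2 : finrank ℚ K = 2) (v : Fin 2 → K)
    (hv : ∀ i, IsIntegral ℤ (v i)) :
    ∃ c : ℤ, Algebra.discr ℚ v = (c : ℚ) ^ 2 * (NumberField.discr K : ℚ) := by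
  classical
  have hcard : Fintype.card (Module.Free.ChooseBasisIndex ℤ (NumberField.RingOfIntegers K)) = 2 := by
    rw [← h2, ← NumberField.RingOfIntegers.rank K, Module.finrank_eq_card_chooseBasisIndex]
  let e : Module.Free.ChooseBasisIndex ℤ (NumberField.RingOfIntegers K) ≃ Fin 2 :=
    Fintype.equivFinOfCardEq hcard
  let b : Basis (Fin 2) ℤ (NumberField.RingOfIntegers K) := (NumberField.RingOfIntegers.basis K).reindex e
  let b' : Basis (Fin 2) ℚ K := (NumberField.integralBasis K).reindex e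
  have hb : ∀ i, b' i = algebraMap (NumberField.RingOfIntegers K) K (b i) := by
    intro i
    simp [b, b', NumberField.integralBasis_apply]
  let w : Fin 2 → NumberField.RingOfIntegers K := fun i => ⟨v i, hv i⟩
  let P : Matrix (Fin 2) (Fin 2) ℤ := Matrix.of fun i j => b.repr (w i) j
  have hvP : v = Matrix.mulVec ((P.map (Int.cast : ℤ → ℚ)).map (algebraMap ℚ K)) b' := by
    funext i
    have h1 : w i = ∑ j, b.repr (w i) j • b j := (b.sum_repr (w i)).symm
    have h3 : v i = algebraMap (NumberField.RingOfIntegers K) K (w i) := rfl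
    rw [h3, h1, map_sum, Matrix.mulVec, dotProduct]
    refine Finset.sum_congr rfl fun j _ => ?_
    rw [hb, zsmul_eq_mul, map_mul, map_intCast]
    simp [P]
  refine ⟨P.det, ?_⟩
  rw [hvP, Algebra.discr_of_matrix_mulVec, NumberField.coe_discr]
  have h4 : Algebra.discr ℚ b' = Algebra.discr ℚ (NumberField.integralBasis K) := by
    rw [Basis.coe_reindex]
    exact Algebra.discr_reindex ℚ (NumberField.integralBasis K) e
  rw [h4]
  congr 2
  have h5 := Int.cast_det (R := ℚ) P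
  exact h5.symm

theorem disc_quad (x : ℂ) (f : ℤ[X]) (hf : Irreducible f) (hdeg : f.natDegree = 2)
    (hx : aeval x f = 0) [NumberField ℚ⟮x⟯] :
    ∃ c : ℤ, f.discr = c ^ 2 * NumberField.discr ℚ⟮x⟯ := by
  have hf0 : f ≠ 0 := hf.ne_zero
  have hint := isInt x f hf0 hx
  have hprim : f.IsPrimitive := hf.isPrimitive (by omega)
  have hirr : Irreducible (f.map (algebraMap ℤ ℚ)) :=
    (hprim.irreducible_iff_irreducible_map_fraction_map).1 hf
  have hx' : aeval x (f.map (algebraMap ℤ ℚ)) = 0 := by rw [aeval_map_algebraMap]; exact hx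
  have hmin := minpoly.eq_of_irreducible hirr hx'
  have hinj : Function.Injective (algebraMap ℤ ℚ) := RingHom.injective_int _
  have hdeg' : (f.map (algebraMap ℤ ℚ)).natDegree = 2 := by
    rw [natDegree_map_eq_of_injective hinj, hdeg]
  have hlc : (f.map (algebraMap ℤ ℚ)).leadingCoeff = (f.coeff 2 : ℚ) := by
    rw [leadingCoeff, hdeg', coeff_map]
    rfl
  have ha : f.coeff 2 ≠ 0 := by
    rw [← hdeg]
    exact leadingCoeff_ne_zero.2 hf0
  have ha' : (f.coeff 2 : ℚ) ≠ 0 := by exact_mod_cast ha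
  have hmdeg : (minpoly ℚ x).natDegree = 2 := by
    rw [← hmin, natDegree_mul_C (by rw [hlc]; exact inv_ne_zero ha'), hdeg']
  have hfin : finrank ℚ ℚ⟮x⟯ = 2 := by
    rw [IntermediateField.adjoin.finrank hint, hmdeg]
  have hnext : (minpoly ℚ x).nextCoeff = (f.coeff 1 : ℚ) / f.coeff 2 := by
    rw [nextCoeff_of_natDegree_pos (by omega), hmdeg, ← hmin, coeff_mul_C, hlc, coeff_map]
    rfl
  set g := AdjoinSimple.gen ℚ x with hg
  have hgf : aeval g f = 0 := by
    have h1 : algebraMap ℚ⟮x⟯ ℂ (aeval g f) = 0 := by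
      rw [← Polynomial.aeval_algebraMap_apply, AdjoinSimple.algebraMap_gen, hx]
    exact (map_eq_zero (algebraMap ℚ⟮x⟯ ℂ)).1 h1
  have htr : Algebra.trace ℚ ℚ⟮x⟯ g = -((f.coeff 1 : ℚ) / f.coeff 2) := by
    rw [← hnext]
    exact trace_adjoinSimpleGen hint
  have htr1 : Algebra.trace ℚ ℚ⟮x⟯ 1 = 2 := by
    have h1 := Algebra.trace_algebraMap (R := ℚ) (S := ℚ⟮x⟯) 1
    rw [map_one, hfin] at h1
    rw [h1]
    norm_num
  have hrel : algebraMap ℚ ℚ⟮x⟯ (f.coeff 2) * g ^ 2 =
      - (algebraMap ℚ ℚ⟮x⟯ (f.coeff 1) * g) - algebraMap ℚ ℚ⟮x⟯ (f.coeff 0) := by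
    rw [aeval_eq_sum_range, hdeg, Finset.sum_range_succ, Finset.sum_range_succ,
      Finset.sum_range_one] at hgf
    simp only [pow_zero, pow_one, zsmul_eq_mul, mul_one] at hgf
    rw [map_intCast, map_intCast, map_intCast]
    linear_combination hgf
  set θ := algebraMap ℚ ℚ⟮x⟯ (f.coeff 2) * g with hθ
  have hθint : IsIntegral ℤ θ := by
    have h1 := isIntegral_leadingCoeff_smul f g hgf
    have h2 : f.leadingCoeff • g = θ := by
      rw [hθ, leadingCoeff, hdeg, zsmul_eq_mul, map_intCast]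
    rwa [h2] at h1
  obtain ⟨c, hc⟩ := disc_pair ℚ⟮x⟯ hfin ![1, θ] (by
    intro i
    fin_cases i
    · exact isIntegral_one
    · exact hθint)
  refine ⟨c, ?_⟩
  have htθ : Algebra.trace ℚ ℚ⟮x⟯ θ = -(f.coeff 1 : ℚ) := by
    rw [hθ, ← Algebra.smul_def, map_smul, htr, smul_eq_mul]
    field_simp
  have htθ2 : Algebra.trace ℚ ℚ⟮x⟯ (θ * θ) = (f.coeff 1 : ℚ) ^ 2 - 2 * (f.coeff 0) * (f.coeff 2) := by
    have h1 : θ * θ = - ((f.coeff 1 : ℚ) • θ) - ((f.coeff 0 : ℚ) * (f.coeff 2 : ℚ)) • (1 : ℚ⟮x⟯) := by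
      rw [Algebra.smul_def, Algebra.smul_def, map_mul, hθ]
      linear_combination (algebraMap ℚ ℚ⟮x⟯ (f.coeff 2)) * hrel
    rw [h1, map_sub, map_neg, map_smul, map_smul, htθ, htr1, smul_eq_mul, smul_eq_mul]
    ring
  have hd : Algebra.discr ℚ (![1, θ] : Fin 2 → ℚ⟮x⟯) = (f.discr : ℚ) := by
    rw [Algebra.discr_def, Matrix.det_fin_two, discr_of_degree_eq_two (by
      rw [degree_eq_natDegree hf0, hdeg]; rfl)]
    simp only [Algebra.traceMatrix_apply, Algebra.traceForm_apply, Matrix.cons_val_zero,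
      Matrix.cons_val_one, one_mul, mul_one]
    rw [htr1, htθ, htθ2]
    push_cast
    ring
  rw [hd] at hc
  exact_mod_cast hc

theorem disc_lin (x : ℂ) (f : ℤ[X]) (hf0 : f ≠ 0) (hdeg : f.natDegree = 1)
    (hx : aeval x f = 0) [NumberField ℚ⟮x⟯] : NumberField.discr ℚ⟮x⟯ = 1 := by
  have h1 : ∃ r : ℚ, algebraMap ℚ ℂ r = x := by
    rw [aeval_eq_sum_range, hdeg, Finset.sum_range_succ, Finset.sum_range_one] at hx
    simp only [pow_zero, pow_one, zsmul_eq_mul, mul_one] at hx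
    have ha : f.coeff 1 ≠ 0 := by
      rw [← hdeg]
      exact leadingCoeff_ne_zero.2 hf0
    have ha' : (f.coeff 1 : ℂ) ≠ 0 := by exact_mod_cast ha
    refine ⟨-(f.coeff 0 : ℚ) / f.coeff 1, ?_⟩
    simp only [map_div₀, map_neg, map_intCast]
    rw [div_eq_iff ha']
    linear_combination -hx
  obtain ⟨r, rfl⟩ := h1
  have h2 : ℚ⟮algebraMap ℚ ℂ r⟯ = ⊥ := by
    rw [IntermediateField.adjoin_simple_eq_bot_iff]
    exact ⟨r, rfl⟩
  rw [← Rat.numberField_discr]
  exact (NumberField.discr_eq_discr_of_algEquiv ℚ⟮algebraMap ℚ ℂ r⟯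
    ((IntermediateField.equivOfEq h2).trans (IntermediateField.botEquiv ℚ ℂ)))

end Pool.Agent.H13.QP
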