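import Mathlib
import Pool.Agent.H13.QP.Glob

/-!
The bases of the forms of degree `n` in three variables.
-/

set_option autoImplicit false
set_option linter.unusedSectionVars false

namespace Pool.Agent.H13.QP

open MvPolynomial Module Finset
open Pool.Agent.W180.OP (nrm le_nrm nrm_pos nrm_nonneg exists_nrm lam lam_eq)

section

variable {k : Type} [Field k]

/-- a family of forms closed under multiplication by the variables spans -/
theorem fam_span (e : (Fin 3 →₀ ℕ) → MvPolynomial (Fin 3) k)
    (he : ∀ p, (e p).IsHomogeneous p.degree) (h0 : e 0 = 1)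
    (hX : ∀ (p : Fin 3 →₀ ℕ) (j : Fin 3),
      X j * e p ∈ Submodule.span k (e '' {q | q.degree = p.degree + 1})) (n : ℕ) :
    homogeneousSubmodule (Fin 3) k n = Submodule.span k (e '' {q | q.degree = n}) := by
  have key : ∀ (n : ℕ) (a : Fin 3 →₀ ℕ), a.degree = n →
      monomial a (1 : k) ∈ Submodule.span k (e '' {q | q.degree = n}) := by
    intro n
    induction n with
    | zero =>
      intro a ha
      have h1 : a = 0 := (Finsupp.degree_eq_zero_iff a).1 ha
      subst h1
      refine Submodule.subset_span ⟨0, by simp, ?_⟩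
      rw [h0]
      rfl
    | succ n ih =>
      intro a ha
      have h1 : a ≠ 0 := by
        rintro rfl
        simp at ha
      obtain ⟨j, hj⟩ := Finsupp.ne_iff.1 h1
      rw [Finsupp.zero_apply] at hj
      have h2 : Finsupp.single j 1 ≤ a := by
        rw [Finsupp.single_le_iff]
        omega
      obtain ⟨b, rfl⟩ := exists_add_of_le h2
      rw [map_add, Finsupp.degree_single] at ha
      have h3 := ih b (by omega)
      have h4 : monomial (Finsupp.single j 1 + b) (1 : k) = X j * monomial b 1 := by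
        rw [X, monomial_mul, one_mul]
      rw [h4]
      have h5 : (Submodule.span k (e '' {q | q.degree = n})).map (LinearMap.mulLeft k (X j)) ≤
          Submodule.span k (e '' {q | q.degree = n + 1}) := by
        rw [Submodule.map_span, Submodule.span_le]
        rintro _ ⟨_, ⟨q, hq, rfl⟩, rfl⟩
        have h6 := hX q j
        have h7 : q.degree = n := hq
        rw [h7] at h6
        exact h6
      exact h5 (Submodule.mem_map_of_mem (f := LinearMap.mulLeft k (X j)) h3)
  apply le_antisymm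
  · rw [hom_eq_span, Submodule.span_le]
    rintro _ ⟨⟨a, ha⟩, rfl⟩
    exact key n a (mem_D.1 ha)
  · rw [Submodule.span_le]
    rintro _ ⟨q, hq, rfl⟩
    have h1 : q.degree = n := hq
    rw [← h1]
    exact he q

theorem fam_li (e : (Fin 3 →₀ ℕ) → MvPolynomial (Fin 3) k)
    (he : ∀ p, (e p).IsHomogeneous p.degree) (h0 : e 0 = 1)
    (hX : ∀ (p : Fin 3 →₀ ℕ) (j : Fin 3),
      X j * e p ∈ Submodule.span k (e '' {q | q.degree = p.degree + 1})) (n : ℕ) :
    LinearIndependent k (fun p : D n => e p) := by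
  rw [linearIndependent_iff_card_eq_finrank_span, Set.finrank]
  have h1 : Set.range (fun p : D n => e p) = e '' {q | q.degree = n} := by
    ext g
    constructor
    · rintro ⟨⟨p, hp⟩, rfl⟩
      exact ⟨p, mem_D.1 hp, rfl⟩
    · rintro ⟨p, hp, rfl⟩
      exact ⟨⟨p, mem_D.2 hp⟩, rfl⟩
  rw [h1, ← fam_span e he h0 hX n, finrank_hom, Fintype.card_coe]

/-- closure under multiplication by three linear forms -/
theorem closed (a b c : MvPolynomial (Fin 3) k)
    (habc : ∀ j : Fin 3, ∃ x y z : k, (X j : MvPolynomial (Fin 3) k) = x • a + y • b + z • c)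
    (e : (Fin 3 →₀ ℕ) → MvPolynomial (Fin 3) k)
    (ha : ∀ p : Fin 3 →₀ ℕ, a * e p ∈ Submodule.span k (e '' {q | q.degree = p.degree + 1}))
    (hb : ∀ p : Fin 3 →₀ ℕ, b * e p ∈ Submodule.span k (e '' {q | q.degree = p.degree + 1}))
    (hc : ∀ p : Fin 3 →₀ ℕ, c * e p ∈ Submodule.span k (e '' {q | q.degree = p.degree + 1}))
    (p : Fin 3 →₀ ℕ) (j : Fin 3) :
    X j * e p ∈ Submodule.span k (e '' {q | q.degree = p.degree + 1}) := by
  obtain ⟨x, y, z, h⟩ := habc j
  rw [h, add_mul, add_mul, smul_mul_assoc, smul_mul_assoc, smul_mul_assoc]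
  exact Submodule.add_mem _ (Submodule.add_mem _ (Submodule.smul_mem _ _ (ha p))
    (Submodule.smul_mem _ _ (hb p))) (Submodule.smul_mem _ _ (hc p))

/-- the monomials in two linear forms and a variable -/
noncomputable def e1 (α β : k) (p : Fin 3 →₀ ℕ) : MvPolynomial (Fin 3) k :=
  La α ^ p 0 * La β ^ p 1 * X 2 ^ p 2

/-- the linear form `y₁ + 2 α y₂` -/
noncomputable def Bl (α : k) : MvPolynomial (Fin 3) k := X 1 + C (2 * α) * X 2

theorem Bl_hom (α : k) : (Bl α).IsHomogeneous 1 :=
  (isHomogeneous_X _ _).add ((isHomogeneous_X _ _).C_mul _)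

/-- the forms adapted to a linear form and the discriminant -/
noncomputable def e2 (α : k) (p : Fin 3 →₀ ℕ) : MvPolynomial (Fin 3) k :=
  La α ^ p 0 * De k ^ (p 1 / 2) * (Bl α ^ (p 1 % 2) * X 2 ^ p 2)

theorem deg3 (p : Fin 3 →₀ ℕ) : p.degree = p 0 + p 1 + p 2 := by
  rw [Finsupp.degree_eq_sum, Fin.sum_univ_three]

theorem e1_hom (α β : k) (p : Fin 3 →₀ ℕ) : (e1 α β p).IsHomogeneous p.degree := by
  have h := (((La_hom α).pow (p 0)).mul ((La_hom β).pow (p 1))).mul
    ((isHomogeneous_X k (2 : Fin 3)).pow (p 2))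
  have h1 : 1 * p 0 + 1 * p 1 + 1 * p 2 = p.degree := by rw [deg3]; ring
  rw [h1] at h
  exact h

theorem e2_hom (α : k) (p : Fin 3 →₀ ℕ) : (e2 α p).IsHomogeneous p.degree := by
  have h := (((La_hom α).pow (p 0)).mul ((De_hom (K := k)).pow (p 1 / 2))).mul
    (((Bl_hom α).pow (p 1 % 2)).mul ((isHomogeneous_X k (2 : Fin 3)).pow (p 2)))
  have h1 : 1 * p 0 + 2 * (p 1 / 2) + (1 * (p 1 % 2) + 1 * p 2) = p.degree := by
    rw [deg3]
    omega
  rw [h1] at h
  exact h

theorem e1_closed {α β : k} (hαβ : α ≠ β) (p : Fin 3 →₀ ℕ) (j : Fin 3) :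
    X j * e1 α β p ∈ Submodule.span k (e1 α β '' {q | q.degree = p.degree + 1}) := by
  have hne : α - β ≠ 0 := sub_ne_zero.2 hαβ
  refine closed (La α) (La β) (X 2) ?_ (e1 α β) ?_ ?_ ?_ p j
  · have hX1 : (X 1 : MvPolynomial (Fin 3) k) = (α - β)⁻¹ • La α + (-(α - β)⁻¹) • La β +
        (-(α + β)) • X 2 := by
      have h1 : (C (α - β)⁻¹ * (C α - C β) : MvPolynomial (Fin 3) k) = 1 := by
        rw [← C_sub, ← C_mul, inv_mul_cancel₀ hne, C_1]
      simp only [smul_eq_C_mul, La, map_neg, map_add, map_pow]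
      linear_combination (-(X 1 + (C α + C β) * X 2) : MvPolynomial (Fin 3) k) * h1
    intro j
    fin_cases j
    · refine ⟨1 - α * (α - β)⁻¹, α * (α - β)⁻¹, α * β, ?_⟩
      have h1 : (X 0 : MvPolynomial (Fin 3) k) = La α - α • X 1 - α ^ 2 • X 2 := by
        simp only [smul_eq_C_mul, La]
        ring
      show (X 0 : MvPolynomial (Fin 3) k) = _
      rw [h1, hX1]
      simp only [smul_eq_C_mul, map_neg, map_add, map_mul, map_pow, map_sub, C_1]
      ring
    · exact ⟨_, _, _, hX1⟩
    · exact ⟨0, 0, 1, by simp⟩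
  · intro p
    refine Submodule.subset_span ⟨p + Finsupp.single 0 1, ?_, ?_⟩
    · show (p + Finsupp.single 0 1).degree = _
      rw [map_add, Finsupp.degree_single]
    · simp [e1]
      ring
  · intro p
    refine Submodule.subset_span ⟨p + Finsupp.single 1 1, ?_, ?_⟩
    · show (p + Finsupp.single 1 1).degree = _
      rw [map_add, Finsupp.degree_single]
    · simp [e1]
      ring
  · intro p
    refine Submodule.subset_span ⟨p + Finsupp.single 2 1, ?_, ?_⟩
    · show (p + Finsupp.single 2 1).degree = _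
      rw [map_add, Finsupp.degree_single]
    · simp [e1]
      ring

theorem De_eq (α : k) : De k = Bl α ^ 2 - C 4 * (La α * X 2) := by
  simp only [De, Bl, La, map_mul, map_pow]
  have h2 : (C 2 : MvPolynomial (Fin 3) k) = 2 := map_ofNat _ 2
  have h4 : (C 4 : MvPolynomial (Fin 3) k) = 4 := map_ofNat _ 4
  rw [h2, h4]
  ring

theorem e2_closed (α : k) (p : Fin 3 →₀ ℕ) (j : Fin 3) :
    X j * e2 α p ∈ Submodule.span k (e2 α '' {q | q.degree = p.degree + 1}) := by
  refine closed (La α) (Bl α) (X 2) ?_ (e2 α) ?_ ?_ ?_ p j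
  · have h2 : (C 2 : MvPolynomial (Fin 3) k) = 2 := map_ofNat _ 2
    intro j
    fin_cases j
    · refine ⟨1, -α, α ^ 2, ?_⟩
      show (X 0 : MvPolynomial (Fin 3) k) = _
      simp only [smul_eq_C_mul, La, Bl, map_neg, map_mul, map_pow, C_1]
      rw [h2]
      ring
    · refine ⟨0, 1, -(2 * α), ?_⟩
      show (X 1 : MvPolynomial (Fin 3) k) = _
      simp only [smul_eq_C_mul, La, Bl, map_neg, map_mul, map_pow, C_1, C_0]
      ring
    · exact ⟨0, 0, 1, by simp⟩
  · intro p
    refine Submodule.subset_span ⟨p + Finsupp.single 0 1, ?_, ?_⟩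
    · show (p + Finsupp.single 0 1).degree = _
      rw [map_add, Finsupp.degree_single]
    · simp [e2]
      ring
  · intro p
    rcases Nat.even_or_odd (p 1) with hp | hp
    · refine Submodule.subset_span ⟨p + Finsupp.single 1 1, ?_, ?_⟩
      · show (p + Finsupp.single 1 1).degree = _
        rw [map_add, Finsupp.degree_single]
      · obtain ⟨s, hs⟩ := hp
        have h1 : (p 1 + 1) / 2 = s := by omega
        have h2 : (p 1 + 1) % 2 = 1 := by omega
        have h3 : p 1 / 2 = s := by omega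
        have h4 : p 1 % 2 = 0 := by omega
        simp [e2, h1, h2, h3, h4]
        ring
    · obtain ⟨s, hs⟩ := hp
      set p' : Fin 3 →₀ ℕ := (p - Finsupp.single 1 1) + Finsupp.single 0 1 + Finsupp.single 2 1
        with hp'
      have hp1 : p' 0 = p 0 + 1 := by simp [hp']
      have hp2 : p' 1 = 2 * s := by simp [hp', hs]
      have hp3 : p' 2 = p 2 + 1 := by simp [hp']
      have hq1 : (p + Finsupp.single 1 1 : Fin 3 →₀ ℕ) 0 = p 0 := by simp
      have hq2 : (p + Finsupp.single 1 1 : Fin 3 →₀ ℕ) 1 = p 1 + 1 := by simp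
      have hq3 : (p + Finsupp.single 1 1 : Fin 3 →₀ ℕ) 2 = p 2 := by simp
      have h1 : Bl α * e2 α p = e2 α (p + Finsupp.single 1 1) + (4 : k) • e2 α p' := by
        unfold e2
        rw [hp1, hp2, hp3, hq1, hq2, hq3]
        have h1 : (p 1 + 1) / 2 = s + 1 := by omega
        have h2 : (p 1 + 1) % 2 = 0 := by omega
        have h3 : p 1 / 2 = s := by omega
        have h4 : p 1 % 2 = 1 := by omega
        have h5 : 2 * s / 2 = s := by omega
        have h6 : 2 * s % 2 = 0 := by omega
        rw [h1, h2, h3, h4, h5, h6, smul_eq_C_mul]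
        have h7 : De k ^ (s + 1) = De k ^ s * (Bl α ^ 2 - C 4 * (La α * X 2)) := by
          rw [pow_succ, ← De_eq α]
        rw [h7]
        ring
      rw [h1]
      refine Submodule.add_mem _ (Submodule.subset_span ⟨_, ?_, rfl⟩)
        (Submodule.smul_mem _ _ (Submodule.subset_span ⟨p', ?_, rfl⟩))
      · show (p + Finsupp.single 1 1).degree = _
        rw [map_add, Finsupp.degree_single]
      · show p'.degree = _
        rw [deg3, deg3, hp1, hp2, hp3]
        omega
  · intro p
    refine Submodule.subset_span ⟨p + Finsupp.single 2 1, ?_, ?_⟩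
    · show (p + Finsupp.single 2 1).degree = _
      rw [map_add, Finsupp.degree_single]
    · simp [e2]
      ring

theorem e1_li {α β : k} (hαβ : α ≠ β) (n : ℕ) : LinearIndependent k (fun p : D n => e1 α β p) :=
  fam_li (e1 α β) (e1_hom α β) (by simp [e1]) (e1_closed hαβ) n

theorem e2_li (α : k) (n : ℕ) : LinearIndependent k (fun p : D n => e2 α p) :=
  fam_li (e2 α) (e2_hom α) (by simp [e2]) (e2_closed α) n

end

end Pool.Agent.H13.QP
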