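import Mathlib
import Pool.Agent.H13.QP.TanG
import Pool.Agent.H13.QP.Loc
import Pool.Agent.H13.QP.Alg

/-!
The system of forms for a point near the intersection `(X - α) (X - β)` of two lines.
-/

set_option autoImplicit false
set_option linter.unusedSectionVars false

namespace Pool.Agent.H13.QP

open Module Finset Polynomial
open Pool.Agent.W180.OP (nrm le_nrm nrm_pos nrm_nonneg exists_nrm lam lam_eq not_small abv_mv cs
  cs_nonneg)

section

variable {K : Type} [Field K]

/-- the chart at `(X - α) (X - β)`: the outer variable is `L_α`, the inner one `L_β` -/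
noncomputable def psq (α β : K) : MvPolynomial (Fin 3) K →ₐ[K] K[X][X] :=
  MvPolynomial.aeval ![C (C (α * β)) + C (C (α - β)⁻¹) * (C (C α) * C X - C (C β) * X),
    C (C (α - β)⁻¹) * (X - C X) - C (C (α + β)), 1]

theorem evalEval_psq (α β v0 u0 : K) (g : MvPolynomial (Fin 3) K) :
    evalEval v0 u0 (psq α β g) = MvPolynomial.eval
      ![α * β + (α - β)⁻¹ * (α * v0 - β * u0), (α - β)⁻¹ * (u0 - v0) - (α + β), 1] g := by
  have h1 : ∀ h : K[X][X], evalEval v0 u0 h = evalEvalRingHom v0 u0 h := fun _ => rfl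
  rw [h1, psq]
  have h2 : (evalEvalRingHom v0 u0).comp ((MvPolynomial.aeval (R := K)
      ![C (C (α * β)) + C (C (α - β)⁻¹) * (C (C α) * C X - C (C β) * X),
    C (C (α - β)⁻¹) * (X - C X) - C (C (α + β)), (1 : K[X][X])]).toRingHom) =
      (MvPolynomial.eval
        ![α * β + (α - β)⁻¹ * (α * v0 - β * u0), (α - β)⁻¹ * (u0 - v0) - (α + β), 1]) := by
    apply MvPolynomial.ringHom_ext
    · intro r
      simp
    · intro i
      fin_cases i <;> simp
  exact congrArg (fun φ : MvPolynomial (Fin 3) K →+* K => φ g) h2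

theorem eval_chartq {α β : K} (hαβ : α ≠ β) {n : ℕ} {g : MvPolynomial (Fin 3) K}
    (hg : g.IsHomogeneous n) (y : Fin 3 → K) (hy : y 2 ≠ 0) :
    MvPolynomial.eval y g = y 2 ^ n *
      evalEval (MvPolynomial.eval y (La β) / y 2) (MvPolynomial.eval y (La α) / y 2)
        (psq α β g) := by
  have hne : α - β ≠ 0 := sub_ne_zero.2 hαβ
  rw [evalEval_psq, ← eval_smul' hg, eval_La, eval_La]
  congr 1
  congr 1
  funext i
  fin_cases i
  · simp
    field_simp
    ring
  · simp
    field_simp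
    ring
  · simp

theorem ns_chartq {α β : K} (hαβ : α ≠ β) (L : Type) [Field L] [Algebra K L] (x : Fin 3 → L)
    (h : ∀ i : Fin 3, MvPolynomial.aeval x ((![La α, La β, MvPolynomial.X 2] :
      Fin 3 → MvPolynomial (Fin 3) K) i) = 0) : x = 0 := by
  have e0 := h 0
  have e1 := h 1
  have e2 := h 2
  simp only [Matrix.cons_val_zero, Matrix.cons_val_one, Matrix.cons_val_two, Matrix.head_cons,
    Matrix.tail_cons, La, map_add, map_mul, MvPolynomial.aeval_X, MvPolynomial.algHom_C] at e0 e1 e2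
  have hi := (algebraMap K L).injective
  have h1' : algebraMap K L α - algebraMap K L β ≠ 0 := sub_ne_zero.2 (hi.ne hαβ)
  rw [e2, mul_zero, add_zero] at e0 e1
  have g1 : x 1 = 0 := by
    apply mul_left_cancel₀ h1'
    linear_combination e0 - e1
  rw [g1] at e0
  have g2 : x 0 = 0 := by linear_combination e0
  funext i
  fin_cases i <;> assumption

/-- the restriction of a form to the line `L_α`, in the parameter `t` of `(X - α) (X - t)` -/
noncomputable def Phl (α : K) (F : MvPolynomial (Fin 3) K) : K[X] :=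
  MvPolynomial.aeval ![C α * X, -(C α + X), 1] F

theorem psq_coeff_zero {α β : K} (hαβ : α ≠ β) (F : MvPolynomial (Fin 3) K) :
    (psq α β F).coeff 0 = (Phl α F).comp (C β + C (α - β)⁻¹ * X) := by
  have hne : α - β ≠ 0 := sub_ne_zero.2 hαβ
  have h1 : ∀ h : K[X][X], h.coeff 0 = constantCoeff h := fun _ => rfl
  rw [h1]
  have h22 : (C (α - β) * C (α - β)⁻¹ : K[X]) = 1 := by
    rw [← C_mul, mul_inv_cancel₀ hne, C_1]
  have h23 : ((C α - C β) * C (α - β)⁻¹ : K[X]) = 1 := by
    rw [← C_sub]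
    exact h22
  have h2 : ((constantCoeff (R := K[X])).comp (psq α β).toRingHom) =
      (compRingHom (C β + C (α - β)⁻¹ * X)).comp
        (MvPolynomial.aeval (R := K) ![C α * X, -(C α + X), 1]).toRingHom := by
    apply MvPolynomial.ringHom_ext
    · intro r
      simp [psq]
    · intro i
      fin_cases i
      · simp [psq]
        ring
      · simp [psq]
        ring
      · simp [psq]
  exact congrArg (fun φ : MvPolynomial (Fin 3) K →+* K[X] => φ F) h2

theorem natDegree_Phl (α : K) {d : ℕ} {F : MvPolynomial (Fin 3) K} (hF : F.IsHomogeneous d) :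
    (Phl α F).natDegree ≤ d := by
  unfold Phl
  rw [hom_sum hF, map_sum]
  refine natDegree_sum_le_of_forall_le _ _ fun a ha => ?_
  rw [mem_D, Finsupp.degree_eq_sum] at ha
  rw [map_smul, MvPolynomial.aeval_monomial]
  refine (natDegree_smul_le _ _).trans ?_
  rw [Finsupp.prod_fintype _ _ (by simp), Fin.prod_univ_three]
  rw [Fin.sum_univ_three] at ha
  simp only [map_one, one_mul, Matrix.cons_val_zero, Matrix.cons_val_one, Matrix.cons_val_two,
    Matrix.head_cons, Matrix.tail_cons, one_pow, mul_one]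
  refine natDegree_mul_le.trans ?_
  have h1 : ((C α * X : K[X]) ^ a 0).natDegree ≤ a 0 * 1 := by
    refine natDegree_pow_le.trans ?_
    exact Nat.mul_le_mul_left _ (natDegree_C_mul_le _ _ |>.trans natDegree_X_le)
  have h2 : ((-(C α + X) : K[X]) ^ a 1).natDegree ≤ a 1 * 1 := by
    refine natDegree_pow_le.trans ?_
    refine Nat.mul_le_mul_left _ ?_
    rw [natDegree_neg]
    refine (natDegree_add_le _ _).trans (max_le ?_ natDegree_X_le)
    rw [natDegree_C]
    exact Nat.zero_le _
  omega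

/-- the form does not vanish on the line -/
theorem Phl_ne [CharZero K] (α : K) {d : ℕ} {F : MvPolynomial (Fin 3) K} (hF : F.IsHomogeneous d)
    (hFL : ¬ La α ∣ F) (hLirr : Irreducible (La α)) : Phl α F ≠ 0 := by
  intro h0
  have hfin : (Ideal.span {La α, F}).minimalPrimes.Finite :=
    Ideal.finite_minimalPrimes_of_isNoetherianRing _ _
  have hmem : ∀ t : ℕ, il (![α * t, -(α + t), 1] : Fin 3 → K) ∈
      (Ideal.span {La α, F}).minimalPrimes := by
    intro t
    refine bez_min hLirr (La_hom α) hF hFL _ ?_ ?_ ?_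
    · intro h
      have := congrFun h 2
      simp at this
    · rw [eval_La]
      simp
      ring
    · have h1 : Polynomial.eval (t : K) (Phl α F) =
          MvPolynomial.eval (![α * t, -(α + t), 1] : Fin 3 → K) F := by
        unfold Phl
        have h2 : ((Polynomial.evalRingHom (t : K)).comp (MvPolynomial.aeval (R := K)
            ![C α * X, -(C α + X), 1]).toRingHom) =
            (MvPolynomial.eval (![α * t, -(α + t), 1] : Fin 3 → K)) := by
          apply MvPolynomial.ringHom_ext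
          · intro r
            simp
          · intro i
            fin_cases i <;> simp
        exact congrArg (fun φ : MvPolynomial (Fin 3) K →+* K => φ F) h2
      rw [← h1, h0, Polynomial.eval_zero]
  have hinj : Function.Injective fun t : ℕ => il (![α * t, -(α + t), 1] : Fin 3 → K) := by
    intro s t hst
    have h1 := il_eq hst 1 2
    simp at h1
    exact h1.symm
  exact Set.infinite_range_of_injective hinj (hfin.subset (by
    rintro _ ⟨t, rfl⟩
    exact hmem t))

/-- the multiplicity of a root which does not lie in a subfield -/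
theorem mult_sub {k : Type} [Field k] [Algebra k K] [CharZero k] (β : K)
    (hβ : ∀ r : k, algebraMap k K r ≠ β) (hint : IsIntegral k β) {D' : ℕ} (P : k[X]) (hP : P ≠ 0)
    (hD : P.natDegree ≤ D') :
    ∃ (m : ℕ) (R : K[X]), 2 * m ≤ D' ∧ P.map (algebraMap k K) = (X - C β) ^ m * R ∧
      R.eval β ≠ 0 := by
  set μ := minpoly k β with hμ
  have hirr : Irreducible μ := minpoly.irreducible hint
  have hdeg : 2 ≤ μ.natDegree := by
    have h1 : μ.natDegree ≠ 0 := (minpoly.natDegree_pos hint).ne'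
    have h2 : μ.natDegree ≠ 1 := by
      intro h
      obtain ⟨r, hr⟩ := minpoly.mem_range_of_degree_eq_one k β (by
        rw [degree_eq_natDegree hirr.ne_zero, h]; rfl)
      exact hβ r hr
    omega
  have hfm : FiniteMultiplicity μ P := FiniteMultiplicity.of_not_isUnit hirr.not_isUnit hP
  obtain ⟨R, hR, hRn⟩ := hfm.exists_eq_pow_mul_and_not_dvd
  set m := multiplicity μ P with hm
  have hR0 : R ≠ 0 := by
    rintro rfl
    exact hRn (dvd_zero _)
  have hRα : aeval β R ≠ 0 := fun h => hRn (minpoly.dvd k β h)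
  have hroot : (μ.map (algebraMap k K)).IsRoot β := by
    rw [IsRoot.def, eval_map_algebraMap]
    exact minpoly.aeval k β
  obtain ⟨T, hT⟩ := dvd_iff_isRoot.2 hroot
  have hTα : T.eval β ≠ 0 := by
    intro h0
    have hsep : (μ.map (algebraMap k K)).Separable := (hirr.separable).map
    obtain ⟨a, b, hab⟩ := hsep
    have h1 := congrArg (eval β) hab
    rw [hT] at h1
    simp [h0] at h1
  refine ⟨m, T ^ m * R.map (algebraMap k K), ?_, ?_, ?_⟩
  · rw [hR, natDegree_mul (pow_ne_zero _ hirr.ne_zero) hR0, natDegree_pow] at hD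
    have h2 : m * 2 ≤ m * μ.natDegree := Nat.mul_le_mul_left m hdeg
    omega
  · rw [hR, Polynomial.map_mul, Polynomial.map_pow, hT, mul_pow, mul_assoc]
  · rw [eval_mul, eval_pow, eval_map_algebraMap]
    exact mul_ne_zero (pow_ne_zero _ hTα) hRα

theorem Phl_map {k : Type} [Field k] [Algebra k K] (a : k) (F : MvPolynomial (Fin 3) k) :
    (Phl a F).map (algebraMap k K) =
      Phl (algebraMap k K a) (MvPolynomial.map (algebraMap k K) F) := by
  unfold Phl
  have h2 : (mapRingHom (algebraMap k K)).comp (MvPolynomial.aeval (R := k)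
      ![C a * X, -(C a + X), 1]).toRingHom =
      (MvPolynomial.aeval (R := K) ![C (algebraMap k K a) * X, -(C (algebraMap k K a) + X),
        1]).toRingHom.comp (MvPolynomial.map (algebraMap k K)) := by
    apply MvPolynomial.ringHom_ext
    · intro r
      simp
    · intro i
      fin_cases i <;> simp
  exact congrArg (fun φ : MvPolynomial (Fin 3) k →+* K[X] => φ F) h2

end

section

variable {K : Type} [Field K] [NumberField K]

/-- the multiplicity of the intersection with the line `L_α` at `(X - α) (X - β)` -/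
theorem exists_multq (α β : K) (hβ : ∀ r : IntermediateField.adjoin ℚ {α},
      algebraMap (IntermediateField.adjoin ℚ {α}) K r ≠ β) {d : ℕ}
    {F : MvPolynomial (Fin 3) ℚ} (hF : F.IsHomogeneous d) (hFL : ¬ La α ∣ bc K F) :
    ∃ (m : ℕ) (E : K[X]), 2 * m ≤ d ∧ (psq α β (bc K F)).coeff 0 = X ^ m * E ∧
      E.coeff 0 ≠ 0 := by
  set k1 := IntermediateField.adjoin ℚ {α} with hk1
  set a : k1 := IntermediateField.AdjoinSimple.gen ℚ α with ha
  have haα : algebraMap k1 K a = α := IntermediateField.AdjoinSimple.algebraMap_gen ℚ α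
  have hαβ : α ≠ β := fun h => hβ a (haα.trans h)
  have hbc : bc K F = MvPolynomial.map (algebraMap k1 K) (bc k1 F) := by
    unfold bc
    rw [MvPolynomial.map_map, ← IsScalarTower.algebraMap_eq]
  have hmap : (Phl a (bc k1 F)).map (algebraMap k1 K) = Phl α (bc K F) := by
    rw [Phl_map, ← hbc, haα]
  have hP0 : Phl a (bc k1 F) ≠ 0 := by
    intro h0
    have h1 := Phl_ne α (hF.map (algebraMap ℚ K)) hFL (La_prime α).irreducible
    apply h1
    have h2 := hmap
    rw [h0, Polynomial.map_zero] at h2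
    exact h2.symm
  obtain ⟨m, R, hm, hR, hR0⟩ := mult_sub (K := K) β hβ (IsIntegral.of_finite k1 β)
    (Phl a (bc k1 F)) hP0 (natDegree_Phl a (hF.map (algebraMap ℚ k1)))
  refine ⟨m, C ((α - β)⁻¹ ^ m) * R.comp (C β + C (α - β)⁻¹ * X), hm, ?_, ?_⟩
  · rw [psq_coeff_zero hαβ, ← hmap, hR, mul_comp, pow_comp, sub_comp, X_comp, C_comp]
    have h1 : C β + C (α - β)⁻¹ * X - C β = C (α - β)⁻¹ * X := by ring
    rw [h1, mul_pow, ← C_pow]
    ring
  · rw [coeff_zero_eq_eval_zero, eval_mul, eval_C, eval_comp]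
    simp only [eval_add, eval_C, eval_mul, eval_X, mul_zero, add_zero]
    exact mul_ne_zero (pow_ne_zero _ (inv_ne_zero (sub_ne_zero.2 hαβ))) hR0

end

section

variable {K : Type} [Field K]

/-- the position of a point of the curve near `(X - α) (X - β)` -/
theorem nearQ (f : AbsoluteValue K ℝ) {α β : K} (hαβ : α ≠ β) {d : ℕ}
    {F : MvPolynomial (Fin 3) K} (hF : F.IsHomogeneous d) {w : ℕ} {E : K[X]}
    (hE : (psq α β F).coeff 0 = X ^ w * E) (hE0 : E.coeff 0 ≠ 0) :
    ∃ c C1 B : ℝ, 0 < c ∧ 0 < B ∧ ∀ y : Fin 3 → K, y ≠ 0 → MvPolynomial.eval y F = 0 →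
      MvPolynomial.eval y (La α) ≠ 0 → MvPolynomial.eval y (La β) ≠ 0 →
      C1 ≤ lam f 1 (La α) y → C1 ≤ lam f 1 (La β) y →
      y 2 ≠ 0 ∧ c * nrm f y ≤ f (y 2) ∧ f (MvPolynomial.eval y (La α) / y 2) ≤ 1 ∧
      evalEval (MvPolynomial.eval y (La β) / y 2) (MvPolynomial.eval y (La α) / y 2)
        (psq α β F) = 0 ∧
      f (MvPolynomial.eval y (La β) / y 2) ^ w ≤ B * f (MvPolynomial.eval y (La α) / y 2) := by
  obtain ⟨η, B, hη, hB, hest⟩ := est2 f hE hE0
  obtain ⟨c, hc, hns⟩ := not_small (n := 3) (by norm_num)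
    (![La α, La β, MvPolynomial.X 2] : Fin 3 → MvPolynomial (Fin 3) K) ![1, 1, 1] (by
      intro i
      fin_cases i
      · exact La_hom α
      · exact La_hom β
      · exact MvPolynomial.isHomogeneous_X _ _) (ns_chartq hαβ) f
  set r : ℝ := min (c / 2) (η * c) with hr
  have hr0 : 0 < r := by positivity
  have hr1 : r ≤ c / 2 := min_le_left _ _
  have hr2 : r ≤ η * c := min_le_right _ _
  refine ⟨c, - Real.log r, B, hc, hB, fun y hy hyF hyα hyβ hA hA' => ?_⟩
  have hn := nrm_pos f hy
  have hsz : ∀ γ : K, MvPolynomial.eval y (La γ) ≠ 0 → - Real.log r ≤ lam f 1 (La γ) y →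
      f (MvPolynomial.eval y (La γ)) ≤ r * nrm f y := by
    intro γ hγ hAγ
    rw [lam_eq f _ _ hy hγ] at hAγ
    have h2 : Real.log (f (MvPolynomial.eval y (La γ))) ≤ Real.log (r * nrm f y) := by
      rw [Real.log_mul hr0.ne' hn.ne']
      push_cast at hAγ
      linarith
    exact (Real.log_le_log_iff (f.pos_iff.2 hγ) (mul_pos hr0 hn)).1 h2
  have h1 := hsz α hyα hA
  have h2 := hsz β hyβ hA'
  have hrc : r * nrm f y ≤ c / 2 * nrm f y := mul_le_mul_of_nonneg_right hr1 hn.le
  have h3 : c * nrm f y ≤ f (y 2) := by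
    obtain ⟨i, hi⟩ := hns y hy
    fin_cases i
    · exfalso
      simp only [Fin.zero_eta, Matrix.cons_val_zero, pow_one] at hi
      nlinarith
    · exfalso
      simp only [Fin.mk_one, Matrix.cons_val_one, Matrix.cons_val_zero, pow_one] at hi
      nlinarith
    · simpa using hi
  have hy2p : 0 < f (y 2) := (mul_pos hc hn).trans_le h3
  have hy2 : y 2 ≠ 0 := f.pos_iff.1 hy2p
  have hq : ∀ s : ℝ, ∀ z : K, f z ≤ s * (c * nrm f y) → 0 ≤ s → f (z / y 2) ≤ s := by
    intro s z hz hs
    rw [map_div₀, div_le_iff₀ hy2p]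
    exact hz.trans (mul_le_mul_of_nonneg_left h3 hs)
  have hα1 : f (MvPolynomial.eval y (La α) / y 2) ≤ 1 := by
    refine hq 1 _ ?_ zero_le_one
    have : 0 < c * nrm f y := mul_pos hc hn
    linarith
  have hβη : f (MvPolynomial.eval y (La β) / y 2) ≤ η := by
    refine hq η _ (h2.trans ?_) hη.le
    calc r * nrm f y ≤ η * c * nrm f y := mul_le_mul_of_nonneg_right hr2 hn.le
      _ = _ := by ring
  have hFz : evalEval (MvPolynomial.eval y (La β) / y 2) (MvPolynomial.eval y (La α) / y 2)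
      (psq α β F) = 0 := by
    have h4 := eval_chartq hαβ hF y hy2
    rw [hyF] at h4
    rcases mul_eq_zero.1 h4.symm with h5 | h5
    · exact absurd h5 (pow_ne_zero _ hy2)
    · exact h5
  exact ⟨hy2, h3, hα1, hFz, hest _ _ hFz hβη hα1⟩

end

section

variable {K : Type} [Field K] [NumberField K]

theorem tangQ (α β : K) (hβ : ∀ r : IntermediateField.adjoin ℚ {α},
      algebraMap (IntermediateField.adjoin ℚ {α}) K r ≠ β) {d n N : ℕ} (hd : 1 ≤ d)
    {F : MvPolynomial (Fin 3) ℚ} (hF : F.IsHomogeneous d) (hFL : ¬ La α ∣ bc K F)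
    (Y : Sys K F n N) (hN : N + finrank K (fm (bc K F) n) = (D n).card) :
    ∃ M : Fin N → MvPolynomial (Fin 3) K, (∀ a, (M a).IsHomogeneous n) ∧
      LinearIndependent K (fun a => Y.u (M a)) ∧ ∀ f : AbsoluteValue K ℝ, ∃ C : ℝ,
      ∀ y : Fin 3 → K, y ≠ 0 → MvPolynomial.eval y (bc K F) = 0 →
      MvPolynomial.eval y (La α) ≠ 0 → MvPolynomial.eval y (La β) ≠ 0 →
      (∀ a, MvPolynomial.eval y (M a) ≠ 0) →
      C ≤ lam f 1 (La α) y → C ≤ lam f 1 (La β) y →
      (N * (N - 1) / d : ℝ) * lam f 1 (La α) y ≤ ∑ a, lam f n (M a) y + C := by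
  classical
  obtain ⟨w, E, hwd, hE, hE0⟩ := exists_multq α β hβ hF hFL
  have hαβ : α ≠ β := fun h => hβ (IntermediateField.AdjoinSimple.gen ℚ α)
    ((IntermediateField.AdjoinSimple.algebraMap_gen ℚ α).trans h)
  have hFK : (bc K F).IsHomogeneous d := hF.map (algebraMap ℚ K)
  have hd0 : (0 : ℝ) < d := by exact_mod_cast hd
  have hκ : (0 : ℝ) ≤ N * (N - 1) / d := by
    rcases Nat.eq_zero_or_pos N with h | h
    · rw [h]; simp
    · have h1 : (1 : ℝ) ≤ N := by exact_mod_cast h
      have h2 : (0 : ℝ) ≤ N - 1 := by linarith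
      positivity
  rcases Nat.eq_zero_or_pos w with hw | hw
  · subst hw
    obtain ⟨M, s, -, hMU, hli, -⟩ := flag Y 0
      (fun _ => MvPolynomial.homogeneousSubmodule (Fin 3) K n) rfl (fun _ => 0) (by
        intro t h1 h2
        omega)
    refine ⟨M, fun a => hMU a, hli, fun f => ?_⟩
    obtain ⟨c, C1, B, hc, hB, hnear⟩ := nearQ f hαβ hFK hE hE0
    choose Ca hCa0 hCa using fun a => lam_ge f (M a) (show (M a).IsHomogeneous n from hMU a)
    refine ⟨max C1 (∑ a, Ca a + (N * (N - 1) / d : ℝ) * |Real.log B - Real.log c|),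
      fun y hy hyF hyα hyβ hyM hA hA' => ?_⟩
    obtain ⟨hy2, hcy, hδ1, hFz, hbδ⟩ := hnear y hy hyF hyα hyβ ((le_max_left _ _).trans hA)
      ((le_max_left _ _).trans hA')
    have hn := nrm_pos f hy
    have hy2p : 0 < f (y 2) := f.pos_iff.2 hy2
    have hDp : 0 < f (MvPolynomial.eval y (La α)) := f.pos_iff.2 hyα
    rw [pow_zero, map_div₀] at hbδ
    have h1 : f (y 2) ≤ B * f (MvPolynomial.eval y (La α)) := by
      rw [mul_div_assoc', le_div_iff₀ hy2p, one_mul] at hbδ
      exact hbδ
    have h2 : c * nrm f y ≤ B * f (MvPolynomial.eval y (La α)) := hcy.trans h1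
    have h3 := Real.log_le_log (by positivity) h2
    rw [Real.log_mul hc.ne' hn.ne', Real.log_mul hB.ne' hDp.ne'] at h3
    have h4 : lam f 1 (La α) y ≤ |Real.log B - Real.log c| := by
      rw [lam_eq f _ _ hy hyα]
      have := le_abs_self (Real.log B - Real.log c)
      push_cast at h3 ⊢
      linarith
    have h5 := mul_le_mul_of_nonneg_left h4 hκ
    have h6 : - ∑ a, Ca a ≤ ∑ a, lam f n (M a) y := by
      rw [← Finset.sum_neg_distrib]
      exact Finset.sum_le_sum fun a _ => hCa a y hy (hyM a)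
    have h7 := le_max_right C1
      (∑ a, Ca a + (N * (N - 1) / d : ℝ) * |Real.log B - Real.log c|)
    linarith
  · have hw0 : (0 : ℝ) < w := by exact_mod_cast hw
    obtain ⟨M, s, hsN, hMU, hli, hsum⟩ := flag Y N
      (fun t => MvPolynomial.homogeneousSubmodule (Fin 3) K n ⊓
        (Q (psq α β (bc K F)) w t).comap (psq α β).toLinearMap) (by
          rw [Q_zero, Submodule.comap_top, inf_top_eq]) (fun t => N - t) (by
        intro t _ _
        set U : Submodule K (MvPolynomial (Fin 3) K) :=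
          MvPolynomial.homogeneousSubmodule (Fin 3) K n ⊓
            (Q (psq α β (bc K F)) w t).comap (psq α β).toLinearMap with hU
        have hfinU : Module.Finite K U := Submodule.finiteDimensional_of_le inf_le_left
        have h1 := codim (psq α β).toLinearMap (MvPolynomial.homogeneousSubmodule (Fin 3) K n) hw
          hE hE0 t
        rw [finrank_hom, ← hU] at h1
        have h2 := LinearMap.finrank_range_add_finrank_ker (Y.u.domRestrict U)
        rw [LinearMap.range_domRestrict] at h2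
        have h3 : finrank K (LinearMap.ker (Y.u.domRestrict U)) ≤ finrank K (fm (bc K F) n) := by
          rw [← Submodule.finrank_map_subtype_eq U (LinearMap.ker (Y.u.domRestrict U))]
          refine Submodule.finrank_mono ?_
          rintro g hg
          obtain ⟨g', hg', rfl⟩ := Submodule.mem_map.1 hg
          have h4 : Y.u g'.1 = 0 := hg'
          have h5 : g'.1.IsHomogeneous n := g'.2.1
          exact ⟨h5, (Y.hk _ h5).1 h4⟩
        omega)
    have hMh : ∀ a, (M a).IsHomogeneous n := fun a => (hMU a).1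
    refine ⟨M, hMh, hli, fun f => ?_⟩
    obtain ⟨c, C1, B, hc, hB, hnear⟩ := nearQ f hαβ hFK hE hE0
    have hdec : ∀ a, ∃ g ∈ J K w (s a), ∃ q, psq α β (M a) = g + q * psq α β (bc K F) :=
      fun a => mem_Q.1 (hMU a).2
    choose g hg q hq using hdec
    choose Ca hCa0 hCa using fun a => est1 f (max B 1) (by positivity) w (s a) (g a) (hg a)
    set C2 : ℝ := ∑ a, Real.log (Ca a + 1) + N * N * |Real.log c| with hC2
    refine ⟨max 0 (max C1 C2), fun y hy hyF hyα hyβ hyM hA hA' => ?_⟩
    have hC1 : C1 ≤ max 0 (max C1 C2) := (le_max_left _ _).trans (le_max_right _ _)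
    have hC2' : C2 ≤ max 0 (max C1 C2) := (le_max_right _ _).trans (le_max_right _ _)
    obtain ⟨hy2, hcy, hδ1, hFz, hbδ⟩ := hnear y hy hyF hyα hyβ (hC1.trans hA) (hC1.trans hA')
    have hn := nrm_pos f hy
    have hy2p : 0 < f (y 2) := f.pos_iff.2 hy2
    have hDp : 0 < f (MvPolynomial.eval y (La α)) := f.pos_iff.2 hyα
    set δ := MvPolynomial.eval y (La α) / y 2 with hδ
    set b := MvPolynomial.eval y (La β) / y 2 with hb
    have hδ0 : δ ≠ 0 := div_ne_zero hyα hy2
    have hδp : 0 < f δ := f.pos_iff.2 hδ0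
    set ρ : ℝ := f δ ^ ((w : ℝ)⁻¹) with hρ
    have hρ0 : 0 < ρ := Real.rpow_pos_of_pos hδp _
    have hρw : ρ ^ w = f δ := Real.rpow_inv_natCast_pow hδp.le hw.ne'
    have hρ1 : ρ ≤ 1 := Real.rpow_le_one hδp.le hδ1 (by positivity)
    have hρl : Real.log ρ = (w : ℝ)⁻¹ * Real.log (f δ) := Real.log_rpow hδp _
    have hbρ : f b ≤ max B 1 * ρ := by
      have h1 : f b ^ w ≤ (max B 1 * ρ) ^ w := by
        rw [mul_pow, hρw]
        refine hbδ.trans (mul_le_mul_of_nonneg_right ?_ hδp.le)
        exact (le_max_left B 1).trans (le_self_pow₀ (le_max_right B 1) hw.ne')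
      exact (pow_le_pow_iff_left₀ (f.nonneg _) (by positivity) hw.ne').1 h1
    have hlδ : Real.log (f δ) ≤ - lam f 1 (La α) y - Real.log c := by
      rw [hδ, map_div₀, Real.log_div hDp.ne' hy2p.ne', lam_eq f _ _ hy hyα]
      have h1 := Real.log_le_log (mul_pos hc hn) hcy
      rw [Real.log_mul hc.ne' hn.ne'] at h1
      push_cast
      linarith
    have hlam : ∀ a, - Real.log (Ca a + 1) + s a * ((w : ℝ)⁻¹ * (lam f 1 (La α) y +
        Real.log c)) ≤ lam f n (M a) y := by
      intro a
      have h1 : evalEval b δ (psq α β (M a)) = evalEval b δ (g a) := by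
        rw [hq a, evalEval_add, evalEval_mul, hFz, mul_zero, add_zero]
      have h2 : f (MvPolynomial.eval y (M a)) ≤ nrm f y ^ n * ((Ca a + 1) * ρ ^ s a) := by
        rw [eval_chartq hαβ (hMh a) y hy2, map_mul, map_pow, ← hδ, ← hb, h1]
        refine mul_le_mul (pow_le_pow_left₀ (f.nonneg _) (le_nrm f y 2) n) ?_ (f.nonneg _)
          (pow_nonneg hn.le _)
        refine (hCa a b δ ρ hρ0.le hρ1 hbρ hρw.ge).trans ?_
        exact mul_le_mul_of_nonneg_right (by linarith) (pow_nonneg hρ0.le _)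
      have h3 := Real.log_le_log (f.pos_iff.2 (hyM a)) h2
      have hCp : 0 < Ca a + 1 := by
        have := hCa0 a
        linarith
      rw [Real.log_mul (pow_pos hn _).ne' (mul_pos hCp (pow_pos hρ0 _)).ne',
        Real.log_mul hCp.ne' (pow_pos hρ0 _).ne', Real.log_pow, Real.log_pow, hρl] at h3
      rw [lam_eq f _ _ hy (hyM a)]
      have h4 : (s a : ℝ) * ((w : ℝ)⁻¹ * Real.log (f δ)) ≤
          s a * ((w : ℝ)⁻¹ * (- lam f 1 (La α) y - Real.log c)) :=
        mul_le_mul_of_nonneg_left (mul_le_mul_of_nonneg_left hlδ (by positivity))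
          (Nat.cast_nonneg _)
      have h5 : (s a : ℝ) * ((w : ℝ)⁻¹ * (- lam f 1 (La α) y - Real.log c)) =
          - (s a * ((w : ℝ)⁻¹ * (lam f 1 (La α) y + Real.log c))) := by ring
      linarith
    have hsl := Finset.sum_le_sum fun a (_ : a ∈ (univ : Finset (Fin N))) => hlam a
    rw [Finset.sum_add_distrib, Finset.sum_neg_distrib, ← Finset.sum_mul] at hsl
    -- the sum of the exponents
    have hS : (N : ℝ) * (N - 1) / 2 ≤ ∑ a, (s a : ℝ) := by
      have h1 : ((∑ t ∈ Finset.Icc 1 N, (N - t) : ℕ) : ℝ) ≤ ((∑ a, s a : ℕ) : ℝ) := by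
        exact_mod_cast hsum
      rw [Nat.cast_sum, Nat.cast_sum] at h1
      have h2 : ∑ t ∈ Finset.Icc 1 N, ((N - t : ℕ) : ℝ) = N * (N - 1) / 2 := by
        have h3 : ∀ t ∈ Finset.Icc 1 N, ((N - t : ℕ) : ℝ) = N - t := fun t ht => by
          rw [Nat.cast_sub (Finset.mem_Icc.1 ht).2]
        rw [Finset.sum_congr rfl h3, Finset.sum_sub_distrib, sum_id_Icc, Finset.sum_const,
          Nat.card_Icc, nsmul_eq_mul]
        push_cast
        ring
      rwa [h2] at h1
    have hSN : ∑ a, (s a : ℝ) ≤ N * N := by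
      calc ∑ a, (s a : ℝ) ≤ ∑ _a : Fin N, (N : ℝ) :=
            Finset.sum_le_sum fun a _ => by exact_mod_cast hsN a
        _ = N * N := by rw [Finset.sum_const, Finset.card_univ, Fintype.card_fin, nsmul_eq_mul]
    have hS0 : 0 ≤ ∑ a, (s a : ℝ) := Finset.sum_nonneg fun a _ => Nat.cast_nonneg _
    have hW0 : 0 ≤ lam f 1 (La α) y := (le_max_left _ _).trans hA
    have hwd' : (w : ℝ) ≤ d / 2 := by
      have : (2 : ℝ) * w ≤ d := by exact_mod_cast hwd
      linarith
    have h1 : (N * (N - 1) / d : ℝ) * lam f 1 (La α) y ≤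
        (∑ a, (s a : ℝ)) * ((w : ℝ)⁻¹ * lam f 1 (La α) y) := by
      rw [← mul_assoc]
      refine mul_le_mul_of_nonneg_right ?_ hW0
      have h2 : (N * (N - 1) / d : ℝ) = (N * (N - 1) / 2) / (d / 2) := by
        field_simp
      rw [← div_eq_mul_inv, h2]
      exact div_le_div₀ hS0 hS hw0 hwd'
    have h2 : (∑ a, (s a : ℝ)) * ((w : ℝ)⁻¹ * (lam f 1 (La α) y + Real.log c)) =
        (∑ a, (s a : ℝ)) * ((w : ℝ)⁻¹ * lam f 1 (La α) y) +
        (∑ a, (s a : ℝ)) * (w : ℝ)⁻¹ * (Real.log c) := by ring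
    have h3 : - (N * N * |Real.log c|) ≤
        (∑ a, (s a : ℝ)) * (w : ℝ)⁻¹ * (Real.log c) := by
      have hw1 : (w : ℝ)⁻¹ ≤ 1 := inv_le_one_of_one_le₀ (by exact_mod_cast hw)
      have h4 : (∑ a, (s a : ℝ)) * (w : ℝ)⁻¹ ≤ N * N := by
        calc (∑ a, (s a : ℝ)) * (w : ℝ)⁻¹ ≤ (N * N) * 1 :=
              mul_le_mul hSN hw1 (by positivity) (by positivity)
          _ = N * N := mul_one _
      have h5 : (∑ a, (s a : ℝ)) * (w : ℝ)⁻¹ * |Real.log c| ≤ N * N * |Real.log c| :=
        mul_le_mul_of_nonneg_right h4 (abs_nonneg _)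
      have h6 : -((∑ a, (s a : ℝ)) * (w : ℝ)⁻¹ * |Real.log c|) ≤
          (∑ a, (s a : ℝ)) * (w : ℝ)⁻¹ * (Real.log c) := by
        rw [← mul_neg]
        exact mul_le_mul_of_nonneg_left (neg_abs_le _) (by positivity)
      linarith
    rw [h2] at hsl
    linarith

end

end Pool.Agent.H13.QP
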