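import Mathlib
import Pool.Agent.H13.QP.TanQ
import Pool.Agent.H13.QP.Curve

/-!
The systems of forms at a place, for the points of a curve, if the points of the divisor generate
different fields.
-/

set_option autoImplicit false
set_option linter.unusedSectionVars false

namespace Pool.Agent.H13.QP

open MvPolynomial Module Finset
open NumberField IsDedekindDomain Height
open Pool.Agent.R405 (exv dot Good)
open Pool.Agent.W180.OP (Pl av wt nrm le_nrm nrm_pos nrm_nonneg exists_nrm wt_nonneg lam lam_eq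
  min_lam)

section

variable {K : Type} [Field K]

/-- at a place at most two of the forms are small -/
theorem selQ [CharZero K] {ι : Type} [Fintype ι] (α : ι → K) (hα : Function.Injective α)
    (f : AbsoluteValue K ℝ) (C1 : ℝ) :
    ∃ C0 : ℝ, 0 ≤ C0 ∧ ∀ y : Fin 3 → K, y ≠ 0 → (∀ i, eval y (La (α i)) ≠ 0) →
      eval y (De K) ≠ 0 →
      (∃ i j, i ≠ j ∧ C1 ≤ lam f 1 (La (α i)) y ∧ C1 ≤ lam f 1 (La (α j)) y ∧
        lam f 2 (De K) y ≤ C0 ∧
        ∑ k, lam f 1 (La (α k)) y ≤ lam f 1 (La (α i)) y + lam f 1 (La (α j)) y + C0) ∨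
      (∃ i, C1 ≤ lam f 1 (La (α i)) y ∧ ∑ k, lam f 1 (La (α k)) y ≤ lam f 1 (La (α i)) y + C0) ∨
      (∑ k, lam f 1 (La (α k)) y ≤ C0) := by
  classical
  -- the constants
  have hc3 : ∀ t : ι × ι × ι, ∃ C : ℝ, ∀ y : Fin 3 → K, y ≠ 0 → (∀ i, eval y (La (α i)) ≠ 0) →
      t.1 ≠ t.2.1 → t.1 ≠ t.2.2 → t.2.1 ≠ t.2.2 →
      lam f 1 (La (α t.1)) y ≤ C ∨ lam f 1 (La (α t.2.1)) y ≤ C ∨
        lam f 1 (La (α t.2.2)) y ≤ C := by
    rintro ⟨i, j, k⟩
    by_cases hd : i ≠ j ∧ i ≠ k ∧ j ≠ k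
    · obtain ⟨C, hC⟩ := min_lam (n := 3) (by norm_num)
        (![La (α i), La (α j), La (α k)] : Fin 3 → MvPolynomial (Fin 3) K) ![1, 1, 1] (by
          intro l
          fin_cases l <;> exact La_hom _)
        (ns_three (hα.ne hd.1) (hα.ne hd.2.1) (hα.ne hd.2.2)) f
      refine ⟨C, fun y hy hL _ _ _ => ?_⟩
      obtain ⟨l, hl⟩ := hC y hy (by
        intro l
        fin_cases l
        · exact hL i
        · exact hL j
        · exact hL k)
      fin_cases l
      · exact Or.inl hl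
      · exact Or.inr (Or.inl hl)
      · exact Or.inr (Or.inr hl)
    · refine ⟨0, fun y _ _ h1 h2 h3 => absurd ⟨h1, h2, h3⟩ hd⟩
  have hc2 : ∀ t : ι × ι, ∃ C : ℝ, ∀ y : Fin 3 → K, y ≠ 0 → (∀ i, eval y (La (α i)) ≠ 0) →
      eval y (De K) ≠ 0 → t.1 ≠ t.2 →
      lam f 1 (La (α t.1)) y ≤ C ∨ lam f 1 (La (α t.2)) y ≤ C ∨ lam f 2 (De K) y ≤ C := by
    rintro ⟨i, j⟩
    by_cases hd : i ≠ j
    · obtain ⟨C, hC⟩ := min_lam (n := 3) (by norm_num)
        (![La (α i), La (α j), De K] : Fin 3 → MvPolynomial (Fin 3) K) ![1, 1, 2] (by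
          intro l
          fin_cases l
          · exact La_hom _
          · exact La_hom _
          · exact De_hom) (ns_disc (hα.ne hd)) f
      refine ⟨C, fun y hy hL hD _ => ?_⟩
      obtain ⟨l, hl⟩ := hC y hy (by
        intro l
        fin_cases l
        · exact hL i
        · exact hL j
        · exact hD)
      fin_cases l
      · exact Or.inl hl
      · exact Or.inr (Or.inl hl)
      · exact Or.inr (Or.inr hl)
    · refine ⟨0, fun y _ _ _ h1 => absurd h1 hd⟩
  choose c3 hc3 using hc3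
  choose c2 hc2 using hc2
  set B : ℝ := |C1| + ∑ t, |c3 t| + ∑ t, |c2 t| with hB
  have hs3 : 0 ≤ ∑ t, |c3 t| := Finset.sum_nonneg fun _ _ => abs_nonneg _
  have hs2 : 0 ≤ ∑ t, |c2 t| := Finset.sum_nonneg fun _ _ => abs_nonneg _
  have hB0 : 0 ≤ B := by
    have := abs_nonneg C1
    linarith
  have h3B : ∀ t, c3 t ≤ B := fun t => by
    have h1 := Finset.single_le_sum (f := fun t => |c3 t|) (fun _ _ => abs_nonneg _)
      (Finset.mem_univ t)
    have h2 := le_abs_self (c3 t)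
    have h3 := abs_nonneg C1
    linarith
  have h2B : ∀ t, c2 t ≤ B := fun t => by
    have h1 := Finset.single_le_sum (f := fun t => |c2 t|) (fun _ _ => abs_nonneg _)
      (Finset.mem_univ t)
    have h2 := le_abs_self (c2 t)
    have h3 := abs_nonneg C1
    linarith
  have hC1B : C1 ≤ B := by
    have := le_abs_self C1
    linarith
  refine ⟨(Fintype.card ι + 1) * B, by positivity, fun y hy hL hD => ?_⟩
  set A : ι → ℝ := fun i => lam f 1 (La (α i)) y with hA
  have hBle : B ≤ (Fintype.card ι + 1) * B := by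
    have : (0 : ℝ) ≤ Fintype.card ι * B := by positivity
    linarith
  have hsumle : ∀ s : Finset ι, (∀ k ∈ s, A k ≤ B) → ∑ k ∈ s, A k ≤ (Fintype.card ι + 1) * B := by
    intro s hs
    calc ∑ k ∈ s, A k ≤ ∑ k ∈ s, B := Finset.sum_le_sum hs
      _ = s.card * B := by rw [Finset.sum_const, nsmul_eq_mul]
      _ ≤ (Fintype.card ι + 1) * B := by
          refine mul_le_mul_of_nonneg_right ?_ hB0
          have : (s.card : ℝ) ≤ Fintype.card ι := by exact_mod_cast Finset.card_le_univ s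
          linarith
  by_cases h0 : ∃ i, B < A i
  swap
  · push Not at h0
    refine Or.inr (Or.inr ?_)
    exact hsumle _ fun k _ => h0 k
  obtain ⟨i, hi⟩ := h0
  by_cases h1 : ∃ j, j ≠ i ∧ B < A j
  swap
  · push Not at h1
    refine Or.inr (Or.inl ⟨i, hC1B.trans hi.le, ?_⟩)
    rw [← Finset.add_sum_erase _ _ (Finset.mem_univ i)]
    have := hsumle (univ.erase i) fun k hk => h1 k (Finset.ne_of_mem_erase hk)
    linarith
  obtain ⟨j, hji, hj⟩ := h1
  refine Or.inl ⟨i, j, hji.symm, hC1B.trans hi.le, hC1B.trans hj.le, ?_, ?_⟩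
  · rcases hc2 (i, j) y hy hL hD hji.symm with h | h | h
    · have := h2B (i, j)
      simp only [hA] at hi
      linarith
    · have := h2B (i, j)
      simp only [hA] at hj
      linarith
    · exact (h.trans (h2B _)).trans hBle
  · rw [← Finset.add_sum_erase _ _ (Finset.mem_univ i),
      ← Finset.add_sum_erase _ _ (Finset.mem_erase.2 ⟨hji, Finset.mem_univ j⟩)]
    have := hsumle ((univ.erase i).erase j) (by
      intro k hk
      have hkj : k ≠ j := Finset.ne_of_mem_erase hk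
      have hki : k ≠ i := Finset.ne_of_mem_erase (Finset.mem_of_mem_erase hk)
      have h3 := h3B (i, j, k)
      rcases hc3 (i, j, k) y hy hL hji.symm hki.symm hkj.symm with h | h | h
      · simp only [hA] at hi
        linarith
      · simp only [hA] at hj
        linarith
      · exact h.trans h3)
    linarith

end

section

variable {K : Type} [Field K] [NumberField K] {F : MvPolynomial (Fin 3) ℚ} {n N : ℕ}

/-- `β` is not in the field generated by `α` -/
def Off (α β : K) : Prop :=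
  ∀ r : IntermediateField.adjoin ℚ {α}, algebraMap (IntermediateField.adjoin ℚ {α}) K r ≠ β

/-- the systems for a curve -/
theorem local_curveQ {ι : Type} [Fintype ι] (α : ι → K) (hα : Function.Injective α)
    (hirr : ∀ i, ∀ r : ℚ, algebraMap ℚ K r ≠ α i)
    (hgen : ∀ i j, i ≠ j → Off (α i) (α j) ∨ Off (α j) (α i))
    {d : ℕ} (hd : 1 ≤ d) (hF : F.IsHomogeneous d)
    (hPhi : Phi F ≠ 0) (hFD : ∀ g : MvPolynomial (Fin 3) K, bc K F ∣ De K * g → bc K F ∣ g)
    (hFL : ∀ i, ∀ g : MvPolynomial (Fin 3) K, bc K F ∣ La (α i) * g → bc K F ∣ g)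
    (hFL' : ∀ i, ¬ La (α i) ∣ bc K F)
    (Y : Sys K F n N) (hN : N + finrank K (fm (bc K F) n) = (D n).card) (κ : ℝ) (hκ : 0 ≤ κ)
    (h1 : 3 * κ ≤ N * (N - 1) / d)
    (h2 : 3 / 2 * κ ≤ ((∑ t ∈ Finset.Icc 1 (n / 1),
      ((D (n - 1 * t)).card - finrank K (fm (bc K F) (n - 1 * t))) : ℕ) : ℝ))
    (h3 : κ / 2 ≤ ((∑ t ∈ Finset.Icc 1 (n / 2),
      ((D (n - 2 * t)).card - finrank K (fm (bc K F) (n - 2 * t))) : ℕ) : ℝ)) :
    ∃ (T : Type) (_ : Fintype T) (_ : DecidableEq T) (M : T → Fin N → MvPolynomial (Fin 3) K),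
      (∀ t a, (M t a).IsHomogeneous n) ∧ (∀ t, LinearIndependent K fun a => Y.u (M t a)) ∧
      ∀ f : AbsoluteValue K ℝ, ∃ C : ℝ, ∀ y : Fin 3 → K, y ≠ 0 → eval y (bc K F) = 0 →
        (∀ i, eval y (La (α i)) ≠ 0) → eval y (De K) ≠ 0 → (∀ t a, eval y (M t a) ≠ 0) →
        ∃ t, κ * ∑ i, lam f 1 (La (α i)) y + κ / 2 * lam f 2 (De K) y ≤
          ∑ a, lam f n (M t a) y + C := by
  classical
  set T1 := {t : ι × ι // Off (α t.1) (α t.2)} with hT1
  choose M1 hM1h hM1l hM1 using fun t : T1 => tangQ (α t.1.1) (α t.1.2) t.2 hd hF (hFL' _) Y hN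
  choose M2 hM2h hM2l hM2 using fun i : ι => pow_type Y (La (α i)) 1 le_rfl (La_hom _)
    (hFL i) (3 / 2 * κ) h2
  choose M3 hM3h hM3l hM3 using fun i : ι => tang (α i) (hirr i) hd hF hPhi Y hN
  obtain ⟨M4, hM4h, hM4l, hM4⟩ := pow_type Y (De K) 2 (by norm_num) De_hom hFD (κ / 2) h3
  refine ⟨T1 ⊕ (ι ⊕ (ι ⊕ Unit)), inferInstance, inferInstance,
    Sum.elim M1 (Sum.elim M2 (Sum.elim M3 fun _ => M4)), ?_, ?_, ?_⟩
  · rintro (t | t | t | t) a
    · exact hM1h t a
    · exact hM2h t a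
    · exact hM3h t a
    · exact hM4h a
  · rintro (t | t | t | t)
    · exact hM1l t
    · exact hM2l t
    · exact hM3l t
    · exact hM4l
  intro f
  choose B1 hB1 using fun t => hM1 t f
  choose B2 hB2 using fun i => hM2 i f
  choose B3 hB3 using fun i => hM3 i f
  obtain ⟨B4, hB4⟩ := hM4 f
  obtain ⟨C0, hC0, hsel⟩ := selQ α hα f (∑ i, |B1 i| + ∑ i, |B3 i|)
  have hB3le : ∀ i, B3 i ≤ ∑ i, |B3 i| := fun i =>
    (le_abs_self _).trans (Finset.single_le_sum (f := fun i => |B3 i|)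
      (fun _ _ => abs_nonneg _) (Finset.mem_univ i))
  have hB2le : ∀ i, B2 i ≤ ∑ i, |B2 i| := fun i =>
    (le_abs_self _).trans (Finset.single_le_sum (f := fun i => |B2 i|)
      (fun _ _ => abs_nonneg _) (Finset.mem_univ i))
  have hB1le : ∀ i, B1 i ≤ ∑ i, |B1 i| := fun i =>
    (le_abs_self _).trans (Finset.single_le_sum (f := fun i => |B1 i|)
      (fun _ _ => abs_nonneg _) (Finset.mem_univ i))
  have hs1 : 0 ≤ ∑ i, |B1 i| := Finset.sum_nonneg fun _ _ => abs_nonneg _
  have hs2 : 0 ≤ ∑ i, |B2 i| := Finset.sum_nonneg fun _ _ => abs_nonneg _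
  have hs3 : 0 ≤ ∑ i, |B3 i| := Finset.sum_nonneg fun _ _ => abs_nonneg _
  refine ⟨2 * (κ * C0) + ∑ i, |B1 i| + ∑ i, |B2 i| + ∑ i, |B3 i| + |B4|,
    fun y hy hyF hL hD hM => ?_⟩
  have hκC : 0 ≤ κ * C0 := mul_nonneg hκ hC0
  have h4 := abs_nonneg B4
  have h4' := le_abs_self B4
  set A : ι → ℝ := fun i => lam f 1 (La (α i)) y with hA
  set W := lam f 2 (De K) y with hW
  -- two lines
  have key : ∀ i j, Off (α i) (α j) → ∑ i, |B1 i| + ∑ i, |B3 i| ≤ A i →
      ∑ i, |B1 i| + ∑ i, |B3 i| ≤ A j → W ≤ C0 → ∑ k, A k ≤ A i + A j + C0 →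
      ∃ t : T1 ⊕ (ι ⊕ (ι ⊕ Unit)), κ * ∑ i, A i + κ / 2 * W ≤
          ∑ a, lam f n ((Sum.elim M1 (Sum.elim M2 (Sum.elim M3 fun _ => M4)) :
            T1 ⊕ (ι ⊕ (ι ⊕ Unit)) → _) t a) y +
          (2 * (κ * C0) + ∑ i, |B1 i| + ∑ i, |B2 i| + ∑ i, |B3 i| + |B4|) := by
    intro i j hoff hi hj hW' hS
    have h7 := mul_le_mul_of_nonneg_left hS hκ
    have h8 := mul_le_mul_of_nonneg_left hW' (show 0 ≤ κ / 2 by positivity)
    by_cases hc : A j ≤ 2 * A i
    · refine ⟨Sum.inl ⟨(i, j), hoff⟩, ?_⟩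
      have h9 := hB1le ⟨(i, j), hoff⟩
      have h5 := hB1 ⟨(i, j), hoff⟩ y hy hyF (hL i) (hL j)
        (fun a => hM (Sum.inl ⟨(i, j), hoff⟩) a) (by
          refine h9.trans (le_trans ?_ hi)
          linarith) (by
          refine h9.trans (le_trans ?_ hj)
          linarith)
      have hA0 : 0 ≤ A i := by linarith
      have h6 := mul_le_mul_of_nonneg_right h1 hA0
      have h10 := mul_le_mul_of_nonneg_left hc hκ
      simp only [Sum.elim_inl]
      have h11 : κ * (A i + A j + C0) = κ * A i + κ * A j + κ * C0 := by ring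
      have h12 : κ * (2 * A i) = 2 * (κ * A i) := by ring
      have h13 : 3 * κ * A i = 3 * (κ * A i) := by ring
      linarith
    · push Not at hc
      refine ⟨Sum.inr (Sum.inl j), ?_⟩
      have h5 := hB2 j y hy (hL j) (fun a => hM (Sum.inr (Sum.inl j)) a)
      have h9 := hB2le j
      simp only [Sum.elim_inl, Sum.elim_inr]
      have h10 := mul_le_mul_of_nonneg_left hc.le hκ
      have h11 : κ * (A i + A j + C0) = κ * A i + κ * A j + κ * C0 := by ring
      have h12 : κ * (2 * A i) = 2 * (κ * A i) := by ring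
      have h13 : 3 / 2 * κ * A j = 3 / 2 * (κ * A j) := by ring
      linarith
  rcases hsel y hy hL hD with ⟨i, j, hij, hi, hj, hW', hS⟩ | ⟨i, hi, hS⟩ | hS
  · rcases hgen i j hij with h | h
    · exact key i j h hi hj hW' hS
    · refine key j i h hj hi hW' (hS.trans (le_of_eq ?_))
      simp only [hA]
      ring
  · by_cases hc : W ≤ A i
    · refine ⟨Sum.inr (Sum.inl i), ?_⟩
      have h5 := hB2 i y hy (hL i) (fun a => hM (Sum.inr (Sum.inl i)) a)
      have h7 := mul_le_mul_of_nonneg_left hS hκ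
      have h8 := mul_le_mul_of_nonneg_left hc (show 0 ≤ κ / 2 by positivity)
      have h9 := hB2le i
      simp only [Sum.elim_inl, Sum.elim_inr]
      have h10 : κ * (lam f 1 (La (α i)) y + C0) + κ / 2 * A i =
        3 / 2 * κ * lam f 1 (La (α i)) y + κ * C0 := by ring
      linarith
    · push Not at hc
      refine ⟨Sum.inr (Sum.inr (Sum.inl i)), ?_⟩
      have h5 := hB3 i y hy hyF hD (hL i) (fun a => hM (Sum.inr (Sum.inr (Sum.inl i))) a)
        ((hB3le i).trans (by linarith)) hc.le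
      have hW0 : 0 ≤ W := by
        have : 0 ≤ A i := le_trans (by positivity) hi
        linarith
      have h1' : 3 / 2 * κ ≤ N * (N - 1) / (2 * d) := by
        have e1 : (N * (N - 1) / (2 * d) : ℝ) = N * (N - 1) / d / 2 := by
          rw [div_div, mul_comm (d : ℝ) 2]
        rw [e1]
        linarith
      have h6 := mul_le_mul_of_nonneg_right h1' hW0
      have h7 := mul_le_mul_of_nonneg_left hS hκ
      have h8 := mul_le_mul_of_nonneg_left hc.le hκ
      have h9 := hB3le i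
      simp only [Sum.elim_inl, Sum.elim_inr]
      have h10 : κ * (lam f 1 (La (α i)) y + C0) = κ * A i + κ * C0 := by ring
      have h11 : 3 / 2 * κ * W = κ * W + κ / 2 * W := by ring
      linarith
  · refine ⟨Sum.inr (Sum.inr (Sum.inr ())), ?_⟩
    have h5 := hB4 y hy hD (fun a => hM (Sum.inr (Sum.inr (Sum.inr ()))) a)
    have h7 := mul_le_mul_of_nonneg_left hS hκ
    simp only [Sum.elim_inr]
    linarith

end

end Pool.Agent.H13.QP
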