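import Mathlib
import Pool.Agent.H13.QP.Fam

/-!
The inequality on the plane, up to finitely many forms.
-/

set_option autoImplicit false
set_option linter.unusedSectionVars false

namespace Pool.Agent.H13.QP

open MvPolynomial Module Finset
open NumberField IsDedekindDomain Height
open Pool.Agent.R405 (exv dot Good)
open Pool.Agent.W180.OP (Pl av wt nrm le_nrm nrm_pos nrm_nonneg exists_nrm wt_nonneg lam lam_eq
  liou)

section

variable {K : Type} [Field K] {n N : ℕ}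

/-- the estimate for a family of products of the powers of two forms -/
theorem fam_type (P Q : MvPolynomial (Fin 3) K) {p q : ℕ} (hP : P.IsHomogeneous p)
    (hQ : Q.IsHomogeneous q) (g : Fin N → MvPolynomial (Fin 3) K) (s r m : Fin N → ℕ)
    (hg : ∀ a, (g a).IsHomogeneous (m a)) (hn : ∀ a, p * s a + q * r a + m a = n) (S R : ℝ)
    (hS : S ≤ ∑ a, (s a : ℝ)) (hR : R ≤ ∑ a, (r a : ℝ)) (f : AbsoluteValue K ℝ) :
    ∃ C : ℝ, ∀ y : Fin 3 → K, y ≠ 0 → eval y P ≠ 0 → eval y Q ≠ 0 →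
      (∀ a, eval y (P ^ s a * Q ^ r a * g a) ≠ 0) →
      S * lam f p P y + R * lam f q Q y ≤ ∑ a, lam f n (P ^ s a * Q ^ r a * g a) y + C := by
  classical
  choose Ca hCa0 hCa using fun a => lam_ge f (g a) (hg a)
  obtain ⟨C1, hC1, hlP⟩ := lam_ge f P hP
  obtain ⟨C2, hC2, hlQ⟩ := lam_ge f Q hQ
  refine ⟨(∑ a, (s a : ℝ) - S) * C1 + (∑ a, (r a : ℝ) - R) * C2 + ∑ a, Ca a,
    fun y hy hyP hyQ hyM => ?_⟩
  have hgy : ∀ a, eval y (g a) ≠ 0 := fun a h => hyM a (by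
    rw [map_mul, h, mul_zero])
  have h1 : ∀ a, (s a : ℝ) * lam f p P y + (r a : ℝ) * lam f q Q y - Ca a ≤
      lam f n (P ^ s a * Q ^ r a * g a) y := by
    intro a
    have hPs : eval y (P ^ s a) ≠ 0 := by rw [map_pow]; exact pow_ne_zero _ hyP
    have hQr : eval y (Q ^ r a) ≠ 0 := by rw [map_pow]; exact pow_ne_zero _ hyQ
    have h3 : lam f n (P ^ s a * Q ^ r a * g a) y =
        lam f (p * s a) (P ^ s a) y + lam f (q * r a) (Q ^ r a) y + lam f (m a) (g a) y := by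
      rw [← hn a, lam_mul f _ _ hy (by rw [map_mul]; exact mul_ne_zero hPs hQr) (hgy a),
        lam_mul f _ _ hy hPs hQr]
    rw [h3, lam_pow f P (s a) hy hyP, lam_pow f Q (r a) hy hyQ]
    have := hCa a y hy (hgy a)
    linarith
  have h2 := Finset.sum_le_sum fun a (_ : a ∈ (univ : Finset (Fin N))) => h1 a
  rw [Finset.sum_sub_distrib, Finset.sum_add_distrib, ← Finset.sum_mul, ← Finset.sum_mul] at h2
  have h3 := hlP y hy hyP
  have h4 : 0 ≤ (∑ a, (s a : ℝ) - S) * (lam f p P y + C1) :=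
    mul_nonneg (by linarith) (by linarith)
  have h3' := hlQ y hy hyQ
  have h4' : 0 ≤ (∑ a, (r a : ℝ) - R) * (lam f q Q y + C2) :=
    mul_nonneg (by linarith) (by linarith)
  have h5 : (∑ a, (s a : ℝ) - S) * (lam f p P y + C1) = (∑ a, (s a : ℝ)) * lam f p P y -
      S * lam f p P y + (∑ a, (s a : ℝ) - S) * C1 := by ring
  have h5' : (∑ a, (r a : ℝ) - R) * (lam f q Q y + C2) = (∑ a, (r a : ℝ)) * lam f q Q y -
      R * lam f q Q y + (∑ a, (r a : ℝ) - R) * C2 := by ring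
  linarith

end

section

variable {K : Type} [Field K] [NumberField K] {n N : ℕ}

theorem u_inj (Y : Sys K 0 n N) {e : Fin N → MvPolynomial (Fin 3) K}
    (he : ∀ a, (e a).IsHomogeneous n) (hli : LinearIndependent K e) :
    LinearIndependent K fun a => Y.u (e a) := by
  refine hli.map (f := Y.u) ?_
  rw [Submodule.disjoint_def]
  intro g hg hk
  have h1 : g.IsHomogeneous n := by
    have h2 : Submodule.span K (Set.range e) ≤ homogeneousSubmodule (Fin 3) K n := by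
      rw [Submodule.span_le]
      rintro _ ⟨a, rfl⟩
      exact he a
    exact h2 hg
  have h2 := (Y.hk g h1).1 hk
  rw [bc, map_zero, zero_dvd_iff] at h2
  exact h2

theorem sum_equiv (n : ℕ) (g : (Fin 3 →₀ ℕ) → ℝ) :
    ∑ a : Fin (D n).card, g ((D n).equivFin.symm a).1 = ∑ p ∈ D n, g p := by
  rw [← Finset.sum_coe_sort (D n) g]
  exact Equiv.sum_comp (D n).equivFin.symm (fun p : {x // x ∈ D n} => g p.1)

/-- the systems for the plane -/
theorem local_surf {ι : Type} [Fintype ι] [Nonempty ι] (α : ι → K) (hα : Function.Injective α)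
    (hn : 3 ≤ n) (Y : Sys K 0 n (D n).card) :
    ∃ (T : Type) (_ : Fintype T) (_ : DecidableEq T)
      (M : T → Fin (D n).card → MvPolynomial (Fin 3) K),
      (∀ t a, (M t a).IsHomogeneous n) ∧ (∀ t, LinearIndependent K fun a => Y.u (M t a)) ∧
      ∀ f : AbsoluteValue K ℝ, ∃ C : ℝ, ∀ y : Fin 3 → K, y ≠ 0 →
        eval y (bc K (0 : MvPolynomial (Fin 3) ℚ)) = 0 →
        (∀ i, eval y (La (α i)) ≠ 0) → eval y (De K) ≠ 0 → (∀ t a, eval y (M t a) ≠ 0) →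
        ∃ t, (n * ((D n).card : ℝ) / 3) * ∑ i, lam f 1 (La (α i)) y +
          ((n * ((D n).card : ℝ) / 3 - (D n).card) / 2) * lam f 2 (De K) y ≤
          ∑ a, lam f n (M t a) y + C := by
  classical
  set E : Fin (D n).card → (Fin 3 →₀ ℕ) := fun a => ((D n).equivFin.symm a).1 with hE
  have hEmem : ∀ a, (E a).degree = n := fun a => mem_D.1 ((D n).equivFin.symm a).2
  have hEdeg : ∀ a, E a 0 + E a 1 + E a 2 = n := fun a => by rw [← deg3, hEmem]
  set κ1 : ℝ := n * ((D n).card : ℝ) / 3 with hκ1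
  set κ2 : ℝ := (κ1 - (D n).card) / 2 with hκ2
  have hn3 : (3 : ℝ) ≤ n := by exact_mod_cast hn
  have hDn0 : (0 : ℝ) ≤ (D n).card := Nat.cast_nonneg _
  have hκ10 : 0 ≤ κ1 := by positivity
  have hκ20 : 0 ≤ κ2 := by
    rw [hκ2, hκ1]
    have : (3 : ℝ) * (D n).card ≤ n * (D n).card := mul_le_mul_of_nonneg_right hn3 hDn0
    linarith
  have hs0 : ∑ a, (E a 0 : ℝ) = κ1 := (sum_equiv n fun p => (p 0 : ℝ)).trans (sum_D n 0)
  have hs1 : ∑ a, (E a 1 : ℝ) = κ1 := (sum_equiv n fun p => (p 1 : ℝ)).trans (sum_D n 1)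
  have hs2 : κ2 ≤ ∑ a, ((E a 1 / 2 : ℕ) : ℝ) := by
    have h1 : ∑ a, (((E a 1 : ℝ) - 1) / 2) ≤ ∑ a, ((E a 1 / 2 : ℕ) : ℝ) := by
      refine Finset.sum_le_sum fun a _ => ?_
      have h2 : E a 1 ≤ 2 * (E a 1 / 2) + 1 := by omega
      have h3 : (E a 1 : ℝ) ≤ 2 * ((E a 1 / 2 : ℕ) : ℝ) + 1 := by exact_mod_cast h2
      linarith
    refine le_trans (le_of_eq ?_) h1
    rw [← Finset.sum_div, Finset.sum_sub_distrib, hs1, Finset.sum_const, Finset.card_univ,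
      Fintype.card_fin, nsmul_eq_mul, mul_one]
  set T1 := {t : ι × ι // α t.1 ≠ α t.2} with hT1
  set M1 : T1 → Fin (D n).card → MvPolynomial (Fin 3) K := fun t a =>
    e1 (α t.1.1) (α t.1.2) (E a) with hM1
  set M2 : ι → Fin (D n).card → MvPolynomial (Fin 3) K := fun i a => e2 (α i) (E a) with hM2
  have hM1h : ∀ t a, (M1 t a).IsHomogeneous n := fun t a => by
    have := e1_hom (α t.1.1) (α t.1.2) (E a)
    rwa [hEmem] at this
  have hM2h : ∀ i a, (M2 i a).IsHomogeneous n := fun i a => by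
    have := e2_hom (α i) (E a)
    rwa [hEmem] at this
  refine ⟨T1 ⊕ ι, inferInstance, inferInstance, Sum.elim M1 M2, ?_, ?_, ?_⟩
  · rintro (t | t) a
    · exact hM1h t a
    · exact hM2h t a
  · rintro (t | t)
    · exact u_inj Y (hM1h t) ((e1_li t.2 n).comp _ (D n).equivFin.symm.injective)
    · exact u_inj Y (hM2h t) ((e2_li (α t) n).comp _ (D n).equivFin.symm.injective)
  intro f
  choose B1 hB1 using fun t : T1 => fam_type (n := n) (La (α t.1.1)) (La (α t.1.2)) (La_hom _)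
    (La_hom _)
    (fun a => X 2 ^ (E a 2)) (fun a => E a 0) (fun a => E a 1) (fun a => 1 * E a 2)
    (fun a => (isHomogeneous_X K (2 : Fin 3)).pow _) (fun a => by
      have := hEdeg a
      omega) κ1 κ1 hs0.ge hs1.ge f
  choose B2 hB2 using fun i : ι => fam_type (n := n) (La (α i)) (De K) (La_hom _) De_hom
    (fun a => Bl (α i) ^ (E a 1 % 2) * X 2 ^ (E a 2)) (fun a => E a 0) (fun a => E a 1 / 2)
    (fun a => 1 * (E a 1 % 2) + 1 * E a 2)
    (fun a => ((Bl_hom _).pow _).mul ((isHomogeneous_X K (2 : Fin 3)).pow _)) (fun a => by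
      have := hEdeg a
      omega) κ1 κ2 hs0.ge hs2 f
  obtain ⟨C0, hC0, hsel⟩ := sel α hα f 0
  obtain ⟨i0⟩ := ‹Nonempty ι›
  obtain ⟨C3, hC3, hl0⟩ := lam_ge f (La (α i0)) (La_hom (α i0))
  have hB2le : ∀ i, B2 i ≤ ∑ i, |B2 i| := fun i =>
    (le_abs_self _).trans (Finset.single_le_sum (f := fun i => |B2 i|)
      (fun _ _ => abs_nonneg _) (Finset.mem_univ i))
  have hB1le : ∀ i, B1 i ≤ ∑ i, |B1 i| := fun i =>
    (le_abs_self _).trans (Finset.single_le_sum (f := fun i => |B1 i|)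
      (fun _ _ => abs_nonneg _) (Finset.mem_univ i))
  have hs1' : 0 ≤ ∑ i, |B1 i| := Finset.sum_nonneg fun _ _ => abs_nonneg _
  have hs2' : 0 ≤ ∑ i, |B2 i| := Finset.sum_nonneg fun _ _ => abs_nonneg _
  refine ⟨κ1 * C0 + κ2 * C0 + κ1 * C3 + ∑ i, |B1 i| + ∑ i, |B2 i|, fun y hy _ hL hD hM => ?_⟩
  have hk1 : 0 ≤ κ1 * C0 := mul_nonneg hκ10 hC0
  have hk2 : 0 ≤ κ2 * C0 := mul_nonneg hκ20 hC0
  have hk3 : 0 ≤ κ1 * C3 := mul_nonneg hκ10 hC3
  rcases hsel y hy hL hD with ⟨i, j, hij, hW', hS⟩ | ⟨i, hi, hS⟩ | hS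
  · refine ⟨Sum.inl ⟨(i, j), hα.ne hij⟩, ?_⟩
    have h5 := hB1 ⟨(i, j), hα.ne hij⟩ y hy (hL i) (hL j)
      (fun a => hM (Sum.inl ⟨(i, j), hα.ne hij⟩) a)
    have h7 := mul_le_mul_of_nonneg_left hS hκ10
    have h8 := mul_le_mul_of_nonneg_left hW' hκ20
    have h9 := hB1le ⟨(i, j), hα.ne hij⟩
    have h10 : ∑ a, lam f n ((Sum.elim M1 M2 : T1 ⊕ ι → _) (Sum.inl ⟨(i, j), hα.ne hij⟩) a) y =
      ∑ a, lam f n (La (α i) ^ E a 0 * La (α j) ^ E a 1 * X 2 ^ E a 2) y := rfl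
    rw [h10]
    linarith
  · refine ⟨Sum.inr i, ?_⟩
    have h5 := hB2 i y hy (hL i) hD (fun a => hM (Sum.inr i) a)
    have h7 := mul_le_mul_of_nonneg_left hS hκ10
    have h9 := hB2le i
    have h10 : ∑ a, lam f n ((Sum.elim M1 M2 : T1 ⊕ ι → _) (Sum.inr i) a) y =
      ∑ a, lam f n (La (α i) ^ E a 0 * De K ^ (E a 1 / 2) *
        (Bl (α i) ^ (E a 1 % 2) * X 2 ^ E a 2)) y := rfl
    rw [h10]
    linarith
  · refine ⟨Sum.inr i0, ?_⟩
    have h5 := hB2 i0 y hy (hL i0) hD (fun a => hM (Sum.inr i0) a)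
    have h7 := mul_le_mul_of_nonneg_left hS hκ10
    have h9 := hB2le i0
    have h10 : ∑ a, lam f n ((Sum.elim M1 M2 : T1 ⊕ ι → _) (Sum.inr i0) a) y =
      ∑ a, lam f n (La (α i0) ^ E a 0 * De K ^ (E a 1 / 2) *
        (Bl (α i0) ^ (E a 1 % 2) * X 2 ^ E a 2)) y := rfl
    rw [h10]
    have h11 := mul_le_mul_of_nonneg_left (hl0 y hy (hL i0)) hκ10
    have h12 : κ1 * -C3 = - (κ1 * C3) := by ring
    linarith

/-- Liouville's inequality for the discriminant -/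
theorem PW_le : ∃ C : ℝ, 0 ≤ C ∧ ∀ (S : Finset (Pl ℚ)) (f : Pl ℚ → AbsoluteValue K ℝ),
    (∀ v ∈ S, Good v (f v)) → ∀ x : Fin 3 → ℚ, x ≠ 0 → eval (exv K x) (De K) ≠ 0 →
    PW S f x ≤ 2 * logHeight x + C := by
  obtain ⟨C, hC, hl⟩ := liou (K := ℚ) (De ℚ) 2 De_hom
  refine ⟨C, hC, fun S f hf x hx hxD => ?_⟩
  have h1 : eval (exv K x) (De K) = algebraMap ℚ K (eval x (De ℚ)) := by
    have h2 := eval_bc (K := K) (De ℚ) x
    have h3 : bc K (De ℚ) = De K := by simp [bc, De]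
    rwa [h3] at h2
  have hxD' : eval x (De ℚ) ≠ 0 := by
    intro h
    rw [h1, h, map_zero] at hxD
    exact hxD rfl
  have h2 := hl S x hx hxD'
  refine le_trans ?_ h2
  unfold PW
  refine Finset.sum_le_sum fun v hv => mul_le_mul_of_nonneg_left ?_ (wt_nonneg v)
  refine le_trans (le_of_eq ?_) (le_max_right 0 _)
  rw [lam_eq (f v) _ _ (exv_ne' hx) hxD, lam_eq (av v) _ _ hx hxD', nrm_exv (hf v hv), h1,
    (hf v hv).ext]

theorem surf_bd [IsGalois ℚ K] (hi : ∃ z : K, z ^ 2 = -1) {ι : Type} [Fintype ι] [Nonempty ι]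
    (α : ι → K) (hα : Function.Injective α) (ε : ℝ) (hε : 0 < ε) :
    ∃ (n : ℕ) (Z : Finset (MvPolynomial (Fin 3) ℚ)), (∀ z ∈ Z, z.IsHomogeneous n ∧ z ≠ 0) ∧
      ∀ (S : Finset (Pl ℚ)) (f : Pl ℚ → AbsoluteValue K ℝ), (∀ v ∈ S, Good v (f v)) →
      ∃ C : ℝ, 0 ≤ C ∧ ∀ x : Fin 3 → ℚ, x ≠ 0 →
        (∀ z ∈ Z, eval x z ≠ 0) → (∀ i, eval (exv K x) (La (α i)) ≠ 0) →
        eval (exv K x) (De K) ≠ 0 →
        PA S f α x + PW S f x ≤ (4 + ε) * logHeight x + C := by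
  classical
  obtain ⟨n, hn⟩ := exists_nat_gt (6 / ε + 3)
  have hε6 : 0 < 6 / ε := by positivity
  have hn3' : (3 : ℝ) < n := by linarith
  have hn3 : 3 ≤ n := by
    have : (3 : ℝ) ≤ n := hn3'.le
    exact_mod_cast this
  have hn0 : (0 : ℝ) < n := by linarith
  have hn6 : 6 / n ≤ ε := by
    rw [div_le_iff₀ hn0]
    have h1 : 6 / ε ≤ n := by linarith
    rw [div_le_iff₀ hε] at h1
    linarith
  have hDn : (n : ℝ) ≤ (D n).card := by
    rw [card_D]
    nlinarith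
  have hD0 : (0 : ℝ) < (D n).card := by linarith
  obtain ⟨Y⟩ := exists_sys (K := K) 0 (d := 0) (Or.inl rfl) n (D n).card (by
    rw [fm_zero, finrank_bot, add_zero])
  obtain ⟨T, _, _, M, hMh, hMl, hloc⟩ := local_surf α hα hn3 Y
  obtain ⟨Z, hZ, hglob⟩ := glob hi (by
    have : (0 : ℝ) < ((D n).card : ℝ) := hD0
    exact_mod_cast this) Y α M hMh hMl _ _ hloc
  refine ⟨n, Z, fun z hz => ⟨(hZ z hz).1, fun h => (hZ z hz).2 (by rw [h])⟩, fun S f hf => ?_⟩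
  obtain ⟨C1, hC1, hmain⟩ := hglob S f hf 1 one_pos
  obtain ⟨C2, hC2, hW⟩ := PW_le (K := K)
  set κ1 : ℝ := n * ((D n).card : ℝ) / 3 with hκ1
  have hκ10 : 0 < κ1 := by positivity
  refine ⟨C1 / κ1 + 2 * C2, by positivity, fun x hx hxZ hxL hxD => ?_⟩
  have h1 := hmain x hx (by rw [map_zero]) hxZ hxL hxD
  have h2 := hW S f hf x hx hxD
  have hh := logHeight_nonneg x
  set h := logHeight x with hhd
  set a := PA S f α x with ha
  set w := PW S f x with hw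
  -- divide by `κ1`
  have h3 : a + (1 / 2 - 3 / (2 * n)) * w ≤ 3 * (1 + 1 / (D n).card) * h + C1 / κ1 := by
    have h4 : κ1 * (a + (1 / 2 - 3 / (2 * n)) * w) =
        κ1 * a + (κ1 - (D n).card) / 2 * w := by
      rw [hκ1]
      field_simp
    have h5 : κ1 * (3 * (1 + 1 / (D n).card) * h + C1 / κ1) =
        ((D n).card + 1) * (n * h) + C1 := by
      rw [hκ1]
      field_simp
    refine le_of_mul_le_mul_left ?_ hκ10
    rw [h4, h5]
    exact h1
  have h4 : (0 : ℝ) ≤ 1 / 2 + 3 / (2 * n) := by positivity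
  have h5 := mul_le_mul_of_nonneg_left h2 h4
  have h6 : (1 : ℝ) / (D n).card ≤ 1 / n := one_div_le_one_div_of_le hn0 hDn
  have h7 : (3 : ℝ) / (2 * n) ≤ 1 / 2 := by
    rw [div_le_div_iff₀ (by positivity) (by norm_num)]
    linarith
  have h8 : (1 / 2 + 3 / (2 * n)) * C2 ≤ 1 * C2 := mul_le_mul_of_nonneg_right (by linarith) hC2
  have h9 : 3 * (1 + 1 / ((D n).card : ℝ)) * h ≤ 3 * (1 + 1 / n) * h :=
    mul_le_mul_of_nonneg_right (by linarith) hh
  have h10 : 3 * (1 + 1 / (n : ℝ)) * h + (1 / 2 + 3 / (2 * n)) * (2 * h) =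
      (4 + 6 / n) * h := by
    field_simp
    ring
  have h11 : (4 + 6 / n) * h ≤ (4 + ε) * h := mul_le_mul_of_nonneg_right (by linarith) hh
  have h12 : (1 / 2 + 3 / (2 * n)) * (2 * h + C2) = (1 / 2 + 3 / (2 * n)) * (2 * h) +
      (1 / 2 + 3 / (2 * n)) * C2 := by ring
  have h13 : a + w = a + (1 / 2 - 3 / (2 * n)) * w + (1 / 2 + 3 / (2 * n)) * w := by ring
  rw [h13]
  linarith

end

end Pool.Agent.H13.QP
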