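import Mathlib
import Pool.Agent.H13.QP.Alg
import Pool.Agent.H13.QP.Surf

/-!
The inequality for all rational points of the plane off the lines and the conic.
-/

set_option autoImplicit false
set_option linter.unusedSectionVars false

namespace Pool.Agent.H13.QP

open MvPolynomial Module Finset
open NumberField IsDedekindDomain Height
open Pool.Agent.R405 (exv dot Good)
open Pool.Agent.W180.OP (Pl av wt nrm le_nrm nrm_pos nrm_nonneg exists_nrm wt_nonneg lam lam_eq)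

section

variable {K : Type} [Field K] [NumberField K]

theorem lam_smul (f : AbsoluteValue K ℝ) {d : ℕ} {G : MvPolynomial (Fin 3) K}
    (hG : G.IsHomogeneous d) {c : K} (hc : c ≠ 0) (y : Fin 3 → K) :
    lam f d G (c • y) = lam f d G y := by
  unfold lam
  have h1 : eval (c • y) G = c ^ d * eval y G := eval_smul' hG c y
  have hfc : 0 < f c := f.pos_iff.2 hc
  have h2 : nrm f (c • y) = f c * nrm f y := by
    unfold nrm
    rw [Real.mul_iSup_of_nonneg hfc.le]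
    congr 1
    funext j
    simp
  rw [h1, h2, map_mul, map_pow, mul_pow, mul_div_mul_left _ _ (pow_pos hfc d).ne']

theorem PA_smul {ι : Type} [Fintype ι] (S : Finset (Pl ℚ)) (f : Pl ℚ → AbsoluteValue K ℝ)
    (α : ι → K) {c : ℚ} (hc : c ≠ 0) (x : Fin 3 → ℚ) : PA S f α (c • x) = PA S f α x := by
  unfold PA
  have hc' : algebraMap ℚ K c ≠ 0 := by
    rw [Ne, map_eq_zero]
    exact hc
  rw [Pool.Agent.R405.exv_smul]
  simp only [lam_smul _ (La_hom _) hc']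

theorem PW_smul (S : Finset (Pl ℚ)) (f : Pl ℚ → AbsoluteValue K ℝ)
    {c : ℚ} (hc : c ≠ 0) (x : Fin 3 → ℚ) : PW S f (c • x) = PW S f x := by
  unfold PW
  have hc' : algebraMap ℚ K c ≠ 0 := by
    rw [Ne, map_eq_zero]
    exact hc
  rw [Pool.Agent.R405.exv_smul]
  simp only [lam_smul _ De_hom hc']

/-- the inequality on the zeros of a form -/
def Bd {ι : Type} [Fintype ι] (S : Finset (Pl ℚ)) (f : Pl ℚ → AbsoluteValue K ℝ)
    (α : ι → K) (ε : ℝ) (F : MvPolynomial (Fin 3) ℚ) : Prop :=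
  ∃ C : ℝ, 0 ≤ C ∧ ∀ x : Fin 3 → ℚ, x ≠ 0 → eval x F = 0 →
    (∀ i, eval (exv K x) (La (α i)) ≠ 0) → eval (exv K x) (De K) ≠ 0 →
    PA S f α x + PW S f x ≤ (4 + ε) * logHeight x + C

/-- the inequality on the common zeros of two forms -/
theorem two_bd {ι : Type} [Fintype ι] (S : Finset (Pl ℚ)) (f : Pl ℚ → AbsoluteValue K ℝ)
    (α : ι → K) (ε : ℝ) {F H : MvPolynomial (Fin 3) ℚ} (hF : Irreducible F) {d e : ℕ}
    (hFd : F.IsHomogeneous d) (hHe : H.IsHomogeneous e) (hFH : ¬ F ∣ H) :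
    ∃ C : ℝ, 0 ≤ C ∧ ∀ x : Fin 3 → ℚ, x ≠ 0 → eval x F = 0 → eval x H = 0 →
      PA S f α x + PW S f x ≤ (4 + ε) * logHeight x + C := by
  obtain ⟨C, hC⟩ := bez_fin hF hFd hHe hFH
    (fun x => PA S f α x + PW S f x - (4 + ε) * logHeight x) (fun c x hc => by
      rw [PA_smul S f α hc, PW_smul S f hc, logHeight_smul_eq_logHeight x hc])
  refine ⟨|C|, abs_nonneg C, fun x hx h1 h2 => ?_⟩
  have h3 := hC x hx h1 h2
  have h4 := le_abs_self C
  linarith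

theorem irr_bd [IsGalois ℚ K] (hi : ∃ z : K, z ^ 2 = -1) {ι : Type} [Fintype ι]
    (α : ι → K) (hα : Function.Injective α) (hirr : ∀ i, ∀ r : ℚ, algebraMap ℚ K r ≠ α i)
    (S : Finset (Pl ℚ)) (f : Pl ℚ → AbsoluteValue K ℝ) (hf : ∀ v ∈ S, Good v (f v))
    (ε : ℝ) (hε : 0 < ε) {F : MvPolynomial (Fin 3) ℚ} (hF : Irreducible F) {d : ℕ}
    (hFd : F.IsHomogeneous d) : Bd S f α ε F := by
  classical
  have hF0 : F ≠ 0 := hF.ne_zero
  have hd : 1 ≤ d := by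
    by_contra h
    have h0 : d = 0 := by omega
    subst h0
    have h1 := hFd.totalDegree hF0
    rw [totalDegree_eq_zero_iff_eq_C] at h1
    apply hF.not_isUnit
    rw [h1]
    have h2 : coeff 0 F ≠ 0 := by
      intro h2
      rw [h2, C_0] at h1
      exact hF0 h1
    exact (isUnit_iff_ne_zero.2 h2).map C
  by_cases hFD : F ∣ De ℚ
  · refine ⟨0, le_rfl, fun x hx hxF hxL hxD => ?_⟩
    exfalso
    apply hxD
    rw [← bc_De, eval_bc]
    obtain ⟨R, hR⟩ := hFD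
    rw [hR, map_mul, hxF, zero_mul, map_zero]
  by_cases hFL : ∃ i, La (α i) ∣ bc K F
  · obtain ⟨i, hi'⟩ := hFL
    obtain ⟨H, hH, hFH, hHx⟩ := La_case hd hFd hF0 (α i) hi'
    obtain ⟨C, hC, hCx⟩ := two_bd S f α ε hF hFd hH hFH
    exact ⟨C, hC, fun x hx hxF hxL _ => hCx x hx hxF (hHx x hxF (hxL i))⟩
  push Not at hFL
  obtain ⟨n, Z, hZ, hmain⟩ := curve_bd hi α hα hirr hd hFd hF0 (Phi_ne hF hFd hFD)
    (inj_De hF hFD) (fun i => inj_La (α i) (hFL i)) ε hε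
  obtain ⟨C, hC, hCx⟩ := hmain S f hf
  have hZb : ∀ z : {z // z ∈ Z}, ∃ C : ℝ, 0 ≤ C ∧ ∀ x : Fin 3 → ℚ, x ≠ 0 → eval x F = 0 →
      eval x z.1 = 0 → PA S f α x + PW S f x ≤ (4 + ε) * logHeight x + C := fun z =>
    two_bd S f α ε hF hFd (hZ z.1 z.2).1 (hZ z.1 z.2).2
  choose Cz hCz0 hCz using hZb
  refine ⟨C + ∑ z, Cz z, add_nonneg hC (Finset.sum_nonneg fun z _ => hCz0 z),
    fun x hx hxF hxL hxD => ?_⟩
  have hs0 : 0 ≤ ∑ z, Cz z := Finset.sum_nonneg fun z _ => hCz0 z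
  by_cases hxZ : ∀ z ∈ Z, eval x z ≠ 0
  · have := hCx x hx hxF hxZ hxL hxD
    linarith
  · push Not at hxZ
    obtain ⟨z, hz, hxz⟩ := hxZ
    have h1 := hCz ⟨z, hz⟩ x hx hxF hxz
    have h2 := Finset.single_le_sum (f := fun z => Cz z) (fun z _ => hCz0 z)
      (Finset.mem_univ (⟨z, hz⟩ : {z // z ∈ Z}))
    linarith

theorem form_bd [IsGalois ℚ K] (hi : ∃ z : K, z ^ 2 = -1) {ι : Type} [Fintype ι]
    (α : ι → K) (hα : Function.Injective α) (hirr : ∀ i, ∀ r : ℚ, algebraMap ℚ K r ≠ α i)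
    (S : Finset (Pl ℚ)) (f : Pl ℚ → AbsoluteValue K ℝ) (hf : ∀ v ∈ S, Good v (f v))
    (ε : ℝ) (hε : 0 < ε) (z : MvPolynomial (Fin 3) ℚ) :
    z ≠ 0 → (∃ n, z.IsHomogeneous n) → Bd S f α ε z := by
  classical
  induction z using WfDvdMonoid.induction_on_irreducible with
  | zero => exact fun h => absurd rfl h
  | unit u hu =>
    intro _ _
    refine ⟨0, le_rfl, fun x hx hxu => ?_⟩
    exact absurd hxu (hu.map (eval x)).ne_zero
  | mul a i ha hirri ih =>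
    rintro h0 ⟨n, hn⟩
    have h1 := homog_of_dvd hn h0 (Dvd.intro a rfl)
    have h2 := homog_of_dvd hn h0 (Dvd.intro_left i rfl)
    obtain ⟨C1, hC1, hb1⟩ := irr_bd hi α hα hirr S f hf ε hε hirri h1
    obtain ⟨C2, hC2, hb2⟩ := ih ha ⟨_, h2⟩
    refine ⟨C1 + C2, add_nonneg hC1 hC2, fun x hx hxz hxL hxD => ?_⟩
    rw [map_mul] at hxz
    rcases mul_eq_zero.1 hxz with h | h
    · have := hb1 x hx h hxL hxD
      linarith
    · have := hb2 x hx h hxL hxD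
      linarith

/-- **the inequality on the plane** -/
theorem main_ineq [IsGalois ℚ K] (hi : ∃ z : K, z ^ 2 = -1) {ι : Type} [Fintype ι] [Nonempty ι]
    (α : ι → K) (hα : Function.Injective α) (hirr : ∀ i, ∀ r : ℚ, algebraMap ℚ K r ≠ α i)
    (S : Finset (Pl ℚ)) (f : Pl ℚ → AbsoluteValue K ℝ) (hf : ∀ v ∈ S, Good v (f v))
    (ε : ℝ) (hε : 0 < ε) :
    ∃ C : ℝ, 0 ≤ C ∧ ∀ x : Fin 3 → ℚ, x ≠ 0 →
      (∀ i, eval (exv K x) (La (α i)) ≠ 0) → eval (exv K x) (De K) ≠ 0 →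
      PA S f α x + PW S f x ≤ (4 + ε) * logHeight x + C := by
  classical
  obtain ⟨n, Z, hZ, hmain⟩ := surf_bd hi α hα ε hε
  obtain ⟨C, hC, hCx⟩ := hmain S f hf
  have hZb : ∀ z : {z // z ∈ Z}, Bd S f α ε z.1 := fun z =>
    form_bd hi α hα hirr S f hf ε hε z.1 (hZ z.1 z.2).2 ⟨n, (hZ z.1 z.2).1⟩
  choose Cz hCz0 hCz using hZb
  have hs0 : 0 ≤ ∑ z, Cz z := Finset.sum_nonneg fun z _ => hCz0 z
  refine ⟨C + ∑ z, Cz z, add_nonneg hC hs0, fun x hx hxL hxD => ?_⟩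
  by_cases hxZ : ∀ z ∈ Z, eval x z ≠ 0
  · have := hCx x hx hxZ hxL hxD
    linarith
  · push Not at hxZ
    obtain ⟨z, hz, hxz⟩ := hxZ
    have h1 := hCz ⟨z, hz⟩ x hx hxz hxL hxD
    have h2 := Finset.single_le_sum (f := fun z => Cz z) (fun z _ => hCz0 z)
      (Finset.mem_univ (⟨z, hz⟩ : {z // z ∈ Z}))
    linarith

end

end Pool.Agent.H13.QP
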