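import Mathlib
import Pool.Agent.H13.QP.LocQ
import Pool.Agent.H13.QP.MainI

/-!
The inequality for all rational points of the plane off the lines and the conic, if the points of
the divisor generate different fields.
-/

set_option autoImplicit false
set_option linter.unusedSectionVars false

namespace Pool.Agent.H13.QP

open MvPolynomial Module Finset
open NumberField IsDedekindDomain Height
open Pool.Agent.R405 (exv dot Good)
open Pool.Agent.W180.OP (Pl av wt nrm le_nrm nrm_pos nrm_nonneg exists_nrm wt_nonneg lam lam_eq)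

/-- the weight of the inequality on a curve of degree `d` -/
noncomputable def kaq (d n : ℕ) : ℝ := d * n ^ 2 / 3 - 2 * (d ^ 2 + d + 1) * n

theorem aq1 {d n N : ℕ} (hd : (1 : ℝ) ≤ d) (hn : (d : ℝ) + 3 < n)
    (hN : (d : ℝ) * n - d ^ 2 ≤ N) : 3 * kaq d n ≤ N * (N - 1) / d := by
  have hm : 3 * (d : ℝ) ≤ d * n - d ^ 2 := by nlinarith
  rw [le_div_iff₀ (by positivity)]
  have h3 : ((d : ℝ) * n - d ^ 2) * (d * n - d ^ 2 - 1) ≤ N * (N - 1) := by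
    nlinarith
  refine le_trans ?_ h3
  rw [kaq]
  have hn0 : (0 : ℝ) ≤ n := Nat.cast_nonneg n
  have h4 : 0 ≤ (d : ℝ) ^ 2 * n := by positivity
  have h5 : 0 ≤ (d : ℝ) * n := by positivity
  have h6 : 0 ≤ (d : ℝ) ^ 3 * n := by positivity
  have h7 : 0 ≤ (d : ℝ) ^ 4 := by positivity
  nlinarith

theorem aq2 (d n : ℕ) : 3 / 2 * kaq d n ≤ ((∑ t ∈ Finset.Icc 1 (n / 1),
      ((D (n - 1 * t)).card - fc d (n - 1 * t)) : ℕ) : ℝ) := by
  refine le_trans ?_ (sum_low d n 1)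
  rw [Nat.div_one, kaq]
  have h4 : 0 ≤ (d : ℝ) ^ 2 * n := by positivity
  have h5 : 0 ≤ (d : ℝ) * n := by positivity
  have h6 : 0 ≤ (n : ℝ) := Nat.cast_nonneg n
  push_cast
  nlinarith

theorem aq3 {d n : ℕ} (_ : 1 ≤ n) : kaq d n / 2 ≤ ((∑ t ∈ Finset.Icc 1 (n / 2),
      ((D (n - 2 * t)).card - fc d (n - 2 * t)) : ℕ) : ℝ) := by
  refine le_trans ?_ (sum_low d n 2)
  rw [kaq]
  obtain ⟨T, hT⟩ : ∃ T, T = n / 2 := ⟨_, rfl⟩
  rw [← hT]
  have h4 : n = 2 * T ∨ n = 2 * T + 1 := by omega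
  have hT0 : (0 : ℝ) ≤ T := Nat.cast_nonneg _
  have hd0 : (0 : ℝ) ≤ d := Nat.cast_nonneg _
  have hd2 : 0 ≤ (d : ℝ) * T := by positivity
  have hd3 : 0 ≤ (d : ℝ) ^ 2 * T := by positivity
  have hd4 : 0 ≤ (d : ℝ) ^ 2 := by positivity
  have hd5 : 0 ≤ (d : ℝ) * T ^ 2 := by positivity
  rcases h4 with h4 | h4
  · have h5 : (n : ℝ) = 2 * T := by exact_mod_cast h4
    rw [h5]
    push_cast
    nlinarith
  · have h5 : (n : ℝ) = 2 * T + 1 := by exact_mod_cast h4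
    rw [h5]
    push_cast
    nlinarith

section

variable {K : Type} [Field K] [NumberField K]

theorem curve_bdQ [IsGalois ℚ K] (hi : ∃ z : K, z ^ 2 = -1) {ι : Type} [Fintype ι] (α : ι → K)
    (hα : Function.Injective α) (hirr : ∀ i, ∀ r : ℚ, algebraMap ℚ K r ≠ α i)
    (hgen : ∀ i j, i ≠ j → Off (α i) (α j) ∨ Off (α j) (α i))
    {F : MvPolynomial (Fin 3) ℚ} {d : ℕ} (hd : 1 ≤ d) (hF : F.IsHomogeneous d) (hF0 : F ≠ 0)
    (hPhi : Phi F ≠ 0) (hFD : ∀ g : MvPolynomial (Fin 3) K, bc K F ∣ De K * g → bc K F ∣ g)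
    (hFL : ∀ i, ∀ g : MvPolynomial (Fin 3) K, bc K F ∣ La (α i) * g → bc K F ∣ g)
    (hFL' : ∀ i, ¬ La (α i) ∣ bc K F)
    (ε : ℝ) (hε : 0 < ε) :
    ∃ (n : ℕ) (Z : Finset (MvPolynomial (Fin 3) ℚ)), (∀ z ∈ Z, z.IsHomogeneous n ∧ ¬ F ∣ z) ∧
      ∀ (S : Finset (Pl ℚ)) (f : Pl ℚ → AbsoluteValue K ℝ), (∀ v ∈ S, Good v (f v)) →
      ∃ C : ℝ, 0 ≤ C ∧ ∀ x : Fin 3 → ℚ, x ≠ 0 → eval x F = 0 →
        (∀ z ∈ Z, eval x z ≠ 0) → (∀ i, eval (exv K x) (La (α i)) ≠ 0) →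
        eval (exv K x) (De K) ≠ 0 →
        PA S f α x + 1 / 2 * PW S f x ≤ (3 + ε) * logHeight x + C := by
  classical
  obtain ⟨n, hn⟩ := exists_nat_gt (3 * (2 * d + 1 + 2 * (3 + ε) * (d ^ 2 + d + 1)) / (ε * d) +
    d + 3)
  have hd0 : (1 : ℝ) ≤ d := by exact_mod_cast hd
  have hεd : 0 < ε * d := by positivity
  have hq0 : 0 ≤ 3 * (2 * d + 1 + 2 * (3 + ε) * (d ^ 2 + d + 1)) / (ε * d) := by positivity
  have hn1 : (d : ℝ) + 3 < n := by linarith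
  have hn2 : 2 * d + 1 + 2 * (3 + ε) * (d ^ 2 + d + 1) ≤ ε * d * n / 3 := by
    have h1 : 3 * (2 * d + 1 + 2 * (3 + ε) * (d ^ 2 + d + 1)) / (ε * d) ≤ n := by linarith
    rw [div_le_iff₀ hεd] at h1
    linarith
  have hdn : d ≤ n := by
    have : (d : ℝ) ≤ n := by linarith
    exact_mod_cast this
  have hn0 : (0 : ℝ) < n := by linarith
  set κ : ℝ := kaq d n with hκ
  have hbal : (d * n + 2 * d + 1) * n ≤ κ * (3 + ε) := by
    rw [hκ, kaq]
    have h1 := mul_le_mul_of_nonneg_right hn2 hn0.le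
    nlinarith
  have hκ0 : 0 < κ := by
    by_contra h
    push Not at h
    have h1 : κ * (3 + ε) ≤ 0 := mul_nonpos_of_nonpos_of_nonneg h (by linarith)
    have h2 : 0 < (d * n + 2 * d + 1 : ℝ) * n := by positivity
    linarith
  set N : ℕ := (D n).card - fc d n with hN
  have hNlow : (d : ℝ) * n - d ^ 2 ≤ N := dim_low d n
  have hNup : (N : ℝ) ≤ d * n + 2 * d := dim_up hdn
  have hFK : (bc K F).IsHomogeneous d := hF.map _
  have hFK0 : bc K F ≠ 0 := by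
    intro h
    apply hF0
    exact MvPolynomial.map_injective _ (algebraMap ℚ K).injective (by
      rw [map_zero]
      exact h)
  obtain ⟨Y⟩ := exists_sys (K := K) F (Or.inr hF) n N (by
    rw [finrank_fm hF hF0]
    have := fc_le d n
    omega)
  have hNK : N + finrank K (fm (bc K F) n) = (D n).card := by
    rw [finrank_fm hFK hFK0]
    have := fc_le d n
    omega
  have hm : 3 * (d : ℝ) ≤ d * n - d ^ 2 := by nlinarith
  have h1 : 3 * κ ≤ N * (N - 1) / d := aq1 hd0 hn1 hNlow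
  have h2 : 3 / 2 * κ ≤ ((∑ t ∈ Finset.Icc 1 (n / 1),
      ((D (n - 1 * t)).card - finrank K (fm (bc K F) (n - 1 * t))) : ℕ) : ℝ) := by
    have h4 := aq2 d n
    have h5 : ∀ m, finrank K (fm (bc K F) m) = fc d m := finrank_fm hFK hFK0
    simp only [h5]
    exact h4
  have h3 : κ / 2 ≤ ((∑ t ∈ Finset.Icc 1 (n / 2),
      ((D (n - 2 * t)).card - finrank K (fm (bc K F) (n - 2 * t))) : ℕ) : ℝ) := by
    have h4 := aq3 (d := d) (n := n) (by
      have : (0 : ℝ) < n := hn0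
      exact_mod_cast this)
    have h5 : ∀ m, finrank K (fm (bc K F) m) = fc d m := finrank_fm hFK hFK0
    simp only [h5]
    exact h4
  have hN1 : 1 ≤ N := by
    have : (0 : ℝ) < N := by nlinarith
    exact_mod_cast this
  obtain ⟨T, _, _, M, hMh, hMl, hloc⟩ := local_curveQ α hα hirr hgen hd hF hPhi hFD hFL hFL' Y hNK
    κ hκ0.le h1 h2 h3
  obtain ⟨Z, hZ, hglob⟩ := glob hi hN1 Y α M hMh hMl κ (κ / 2) hloc
  refine ⟨n, Z, hZ, fun S f hf => ?_⟩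
  obtain ⟨C, hC, hmain⟩ := hglob S f hf 1 one_pos
  refine ⟨C / κ, by positivity, fun x hx hxF hxZ hxL hxD => ?_⟩
  have h4 := hmain x hx hxF hxZ hxL hxD
  have hlh := logHeight_nonneg x
  have h5 : ((N : ℝ) + 1) * (n * logHeight x) ≤ κ * (3 + ε) * logHeight x := by
    rw [← mul_assoc]
    refine mul_le_mul_of_nonneg_right ?_ hlh
    refine le_trans (mul_le_mul_of_nonneg_right ?_ hn0.le) hbal
    linarith
  have h6 : κ * (PA S f α x + 1 / 2 * PW S f x) ≤ κ * ((3 + ε) * logHeight x + C / κ) := by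
    have h7 : κ * ((3 + ε) * logHeight x + C / κ) = κ * (3 + ε) * logHeight x + C := by
      field_simp
    rw [h7]
    have h8 : κ * (PA S f α x + 1 / 2 * PW S f x) = κ * PA S f α x + κ / 2 * PW S f x := by ring
    linarith
  exact le_of_mul_le_mul_left h6 hκ0

theorem surf_bdQ [IsGalois ℚ K] (hi : ∃ z : K, z ^ 2 = -1) {ι : Type} [Fintype ι] [Nonempty ι]
    (α : ι → K) (hα : Function.Injective α) (ε : ℝ) (hε : 0 < ε) :
    ∃ (n : ℕ) (Z : Finset (MvPolynomial (Fin 3) ℚ)), (∀ z ∈ Z, z.IsHomogeneous n ∧ z ≠ 0) ∧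
      ∀ (S : Finset (Pl ℚ)) (f : Pl ℚ → AbsoluteValue K ℝ), (∀ v ∈ S, Good v (f v)) →
      ∃ C : ℝ, 0 ≤ C ∧ ∀ x : Fin 3 → ℚ, x ≠ 0 →
        (∀ z ∈ Z, eval x z ≠ 0) → (∀ i, eval (exv K x) (La (α i)) ≠ 0) →
        eval (exv K x) (De K) ≠ 0 →
        PA S f α x + 1 / 2 * PW S f x ≤ (3 + ε) * logHeight x + C := by
  classical
  obtain ⟨n, hn⟩ := exists_nat_gt (6 / ε + 3)
  have hε6 : 0 < 6 / ε := by positivity
  have hn3' : (3 : ℝ) < n := by linarith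
  have hn3 : 3 ≤ n := by
    have : (3 : ℝ) ≤ n := hn3'.le
    exact_mod_cast this
  have hn0 : (0 : ℝ) < n := by linarith
  have hn6 : 6 / n ≤ ε := by
    rw [div_le_iff₀ hn0]
    have h1 : 6 / ε ≤ n := by linarith
    rw [div_le_iff₀ hε] at h1
    linarith
  have hDn : (n : ℝ) ≤ (D n).card := by
    rw [card_D]
    nlinarith
  have hD0 : (0 : ℝ) < (D n).card := by linarith
  obtain ⟨Y⟩ := exists_sys (K := K) 0 (d := 0) (Or.inl rfl) n (D n).card (by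
    rw [fm_zero, finrank_bot, add_zero])
  obtain ⟨T, _, _, M, hMh, hMl, hloc⟩ := local_surf α hα hn3 Y
  obtain ⟨Z, hZ, hglob⟩ := glob hi (by
    have : (0 : ℝ) < ((D n).card : ℝ) := hD0
    exact_mod_cast this) Y α M hMh hMl _ _ hloc
  refine ⟨n, Z, fun z hz => ⟨(hZ z hz).1, fun h => (hZ z hz).2 (by rw [h])⟩, fun S f hf => ?_⟩
  obtain ⟨C1, hC1, hmain⟩ := hglob S f hf 1 one_pos
  obtain ⟨C2, hC2, hW⟩ := PW_le (K := K)
  set κ1 : ℝ := n * ((D n).card : ℝ) / 3 with hκ1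
  have hκ10 : 0 < κ1 := by positivity
  refine ⟨C1 / κ1 + 2 * C2, by positivity, fun x hx hxZ hxL hxD => ?_⟩
  have h1 := hmain x hx (by rw [map_zero]) hxZ hxL hxD
  have h2 := hW S f hf x hx hxD
  have hh := logHeight_nonneg x
  set h := logHeight x with hhd
  set a := PA S f α x with ha
  set w := PW S f x with hw
  -- divide by `κ1`
  have h3 : a + (1 / 2 - 3 / (2 * n)) * w ≤ 3 * (1 + 1 / (D n).card) * h + C1 / κ1 := by
    have h4 : κ1 * (a + (1 / 2 - 3 / (2 * n)) * w) =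
        κ1 * a + (κ1 - (D n).card) / 2 * w := by
      rw [hκ1]
      field_simp
    have h5 : κ1 * (3 * (1 + 1 / (D n).card) * h + C1 / κ1) =
        ((D n).card + 1) * (n * h) + C1 := by
      rw [hκ1]
      field_simp
    refine le_of_mul_le_mul_left ?_ hκ10
    rw [h4, h5]
    exact h1
  have h4 : (0 : ℝ) ≤ 3 / (2 * n) := by positivity
  have h5 := mul_le_mul_of_nonneg_left h2 h4
  have h6 : (1 : ℝ) / (D n).card ≤ 1 / n := one_div_le_one_div_of_le hn0 hDn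
  have h7 : (3 : ℝ) / (2 * n) ≤ 1 / 2 := by
    rw [div_le_div_iff₀ (by positivity) (by norm_num)]
    linarith
  have h8 : 3 / (2 * n) * C2 ≤ 1 * C2 := mul_le_mul_of_nonneg_right (by linarith) hC2
  have h9 : 3 * (1 + 1 / ((D n).card : ℝ)) * h ≤ 3 * (1 + 1 / n) * h :=
    mul_le_mul_of_nonneg_right (by linarith) hh
  have h10 : 3 * (1 + 1 / (n : ℝ)) * h + 3 / (2 * n) * (2 * h) =
      (3 + 6 / n) * h := by
    field_simp
    ring
  have h11 : (3 + 6 / n) * h ≤ (3 + ε) * h := mul_le_mul_of_nonneg_right (by linarith) hh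
  have h12 : 3 / (2 * n) * (2 * h + C2) = 3 / (2 * n) * (2 * h) +
      3 / (2 * n) * C2 := by ring
  have h13 : a + 1 / 2 * w = a + (1 / 2 - 3 / (2 * n)) * w + 3 / (2 * n) * w := by ring
  rw [h13]
  linarith

/-- the inequality on the zeros of a form -/
def BdQ {ι : Type} [Fintype ι] (S : Finset (Pl ℚ)) (f : Pl ℚ → AbsoluteValue K ℝ)
    (α : ι → K) (ε : ℝ) (F : MvPolynomial (Fin 3) ℚ) : Prop :=
  ∃ C : ℝ, 0 ≤ C ∧ ∀ x : Fin 3 → ℚ, x ≠ 0 → eval x F = 0 →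
    (∀ i, eval (exv K x) (La (α i)) ≠ 0) → eval (exv K x) (De K) ≠ 0 →
    PA S f α x + 1 / 2 * PW S f x ≤ (3 + ε) * logHeight x + C

/-- the inequality on the common zeros of two forms -/
theorem two_bdQ {ι : Type} [Fintype ι] (S : Finset (Pl ℚ)) (f : Pl ℚ → AbsoluteValue K ℝ)
    (α : ι → K) (ε : ℝ) {F H : MvPolynomial (Fin 3) ℚ} (hF : Irreducible F) {d e : ℕ}
    (hFd : F.IsHomogeneous d) (hHe : H.IsHomogeneous e) (hFH : ¬ F ∣ H) :
    ∃ C : ℝ, 0 ≤ C ∧ ∀ x : Fin 3 → ℚ, x ≠ 0 → eval x F = 0 → eval x H = 0 →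
      PA S f α x + 1 / 2 * PW S f x ≤ (3 + ε) * logHeight x + C := by
  obtain ⟨C, hC⟩ := bez_fin hF hFd hHe hFH
    (fun x => PA S f α x + 1 / 2 * PW S f x - (3 + ε) * logHeight x) (fun c x hc => by
      rw [PA_smul S f α hc, PW_smul S f hc, logHeight_smul_eq_logHeight x hc])
  refine ⟨|C|, abs_nonneg C, fun x hx h1 h2 => ?_⟩
  have h3 := hC x hx h1 h2
  have h4 := le_abs_self C
  linarith

theorem irr_bdQ [IsGalois ℚ K] (hi : ∃ z : K, z ^ 2 = -1) {ι : Type} [Fintype ι]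
    (α : ι → K) (hα : Function.Injective α) (hirr : ∀ i, ∀ r : ℚ, algebraMap ℚ K r ≠ α i)
    (hgen : ∀ i j, i ≠ j → Off (α i) (α j) ∨ Off (α j) (α i))
    (S : Finset (Pl ℚ)) (f : Pl ℚ → AbsoluteValue K ℝ) (hf : ∀ v ∈ S, Good v (f v))
    (ε : ℝ) (hε : 0 < ε) {F : MvPolynomial (Fin 3) ℚ} (hF : Irreducible F) {d : ℕ}
    (hFd : F.IsHomogeneous d) : BdQ S f α ε F := by
  classical
  have hF0 : F ≠ 0 := hF.ne_zero
  have hd : 1 ≤ d := by
    by_contra h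
    have h0 : d = 0 := by omega
    subst h0
    have h1 := hFd.totalDegree hF0
    rw [totalDegree_eq_zero_iff_eq_C] at h1
    apply hF.not_isUnit
    rw [h1]
    have h2 : coeff 0 F ≠ 0 := by
      intro h2
      rw [h2, C_0] at h1
      exact hF0 h1
    exact (isUnit_iff_ne_zero.2 h2).map C
  by_cases hFD : F ∣ De ℚ
  · refine ⟨0, le_rfl, fun x hx hxF hxL hxD => ?_⟩
    exfalso
    apply hxD
    rw [← bc_De, eval_bc]
    obtain ⟨R, hR⟩ := hFD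
    rw [hR, map_mul, hxF, zero_mul, map_zero]
  by_cases hFL : ∃ i, La (α i) ∣ bc K F
  · obtain ⟨i, hi'⟩ := hFL
    obtain ⟨H, hH, hFH, hHx⟩ := La_case hd hFd hF0 (α i) hi'
    obtain ⟨C, hC, hCx⟩ := two_bdQ S f α ε hF hFd hH hFH
    exact ⟨C, hC, fun x hx hxF hxL _ => hCx x hx hxF (hHx x hxF (hxL i))⟩
  push Not at hFL
  obtain ⟨n, Z, hZ, hmain⟩ := curve_bdQ hi α hα hirr hgen hd hFd hF0 (Phi_ne hF hFd hFD)
    (inj_De hF hFD) (fun i => inj_La (α i) (hFL i)) hFL ε hε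
  obtain ⟨C, hC, hCx⟩ := hmain S f hf
  have hZb : ∀ z : {z // z ∈ Z}, ∃ C : ℝ, 0 ≤ C ∧ ∀ x : Fin 3 → ℚ, x ≠ 0 → eval x F = 0 →
      eval x z.1 = 0 → PA S f α x + 1 / 2 * PW S f x ≤ (3 + ε) * logHeight x + C := fun z =>
    two_bdQ S f α ε hF hFd (hZ z.1 z.2).1 (hZ z.1 z.2).2
  choose Cz hCz0 hCz using hZb
  refine ⟨C + ∑ z, Cz z, add_nonneg hC (Finset.sum_nonneg fun z _ => hCz0 z),
    fun x hx hxF hxL hxD => ?_⟩
  have hs0 : 0 ≤ ∑ z, Cz z := Finset.sum_nonneg fun z _ => hCz0 z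
  by_cases hxZ : ∀ z ∈ Z, eval x z ≠ 0
  · have := hCx x hx hxF hxZ hxL hxD
    linarith
  · push Not at hxZ
    obtain ⟨z, hz, hxz⟩ := hxZ
    have h1 := hCz ⟨z, hz⟩ x hx hxF hxz
    have h2 := Finset.single_le_sum (f := fun z => Cz z) (fun z _ => hCz0 z)
      (Finset.mem_univ (⟨z, hz⟩ : {z // z ∈ Z}))
    linarith

theorem form_bdQ [IsGalois ℚ K] (hi : ∃ z : K, z ^ 2 = -1) {ι : Type} [Fintype ι]
    (α : ι → K) (hα : Function.Injective α) (hirr : ∀ i, ∀ r : ℚ, algebraMap ℚ K r ≠ α i)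
    (hgen : ∀ i j, i ≠ j → Off (α i) (α j) ∨ Off (α j) (α i))
    (S : Finset (Pl ℚ)) (f : Pl ℚ → AbsoluteValue K ℝ) (hf : ∀ v ∈ S, Good v (f v))
    (ε : ℝ) (hε : 0 < ε) (z : MvPolynomial (Fin 3) ℚ) :
    z ≠ 0 → (∃ n, z.IsHomogeneous n) → BdQ S f α ε z := by
  classical
  induction z using WfDvdMonoid.induction_on_irreducible with
  | zero => exact fun h => absurd rfl h
  | unit u hu =>
    intro _ _
    refine ⟨0, le_rfl, fun x hx hxu => ?_⟩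
    exact absurd hxu (hu.map (eval x)).ne_zero
  | mul a i ha hirri ih =>
    rintro h0 ⟨n, hn⟩
    have h1 := homog_of_dvd hn h0 (Dvd.intro a rfl)
    have h2 := homog_of_dvd hn h0 (Dvd.intro_left i rfl)
    obtain ⟨C1, hC1, hb1⟩ := irr_bdQ hi α hα hirr hgen S f hf ε hε hirri h1
    obtain ⟨C2, hC2, hb2⟩ := ih ha ⟨_, h2⟩
    refine ⟨C1 + C2, add_nonneg hC1 hC2, fun x hx hxz hxL hxD => ?_⟩
    rw [map_mul] at hxz
    rcases mul_eq_zero.1 hxz with h | h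
    · have := hb1 x hx h hxL hxD
      linarith
    · have := hb2 x hx h hxL hxD
      linarith

/-- **the inequality on the plane** -/
theorem main_ineqQ [IsGalois ℚ K] (hi : ∃ z : K, z ^ 2 = -1) {ι : Type} [Fintype ι] [Nonempty ι]
    (α : ι → K) (hα : Function.Injective α) (hirr : ∀ i, ∀ r : ℚ, algebraMap ℚ K r ≠ α i)
    (hgen : ∀ i j, i ≠ j → Off (α i) (α j) ∨ Off (α j) (α i))
    (S : Finset (Pl ℚ)) (f : Pl ℚ → AbsoluteValue K ℝ) (hf : ∀ v ∈ S, Good v (f v))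
    (ε : ℝ) (hε : 0 < ε) :
    ∃ C : ℝ, 0 ≤ C ∧ ∀ x : Fin 3 → ℚ, x ≠ 0 →
      (∀ i, eval (exv K x) (La (α i)) ≠ 0) → eval (exv K x) (De K) ≠ 0 →
      PA S f α x + 1 / 2 * PW S f x ≤ (3 + ε) * logHeight x + C := by
  classical
  obtain ⟨n, Z, hZ, hmain⟩ := surf_bdQ hi α hα ε hε
  obtain ⟨C, hC, hCx⟩ := hmain S f hf
  have hZb : ∀ z : {z // z ∈ Z}, BdQ S f α ε z.1 := fun z =>
    form_bdQ hi α hα hirr hgen S f hf ε hε z.1 (hZ z.1 z.2).2 ⟨n, (hZ z.1 z.2).1⟩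
  choose Cz hCz0 hCz using hZb
  have hs0 : 0 ≤ ∑ z, Cz z := Finset.sum_nonneg fun z _ => hCz0 z
  refine ⟨C + ∑ z, Cz z, add_nonneg hC hs0, fun x hx hxL hxD => ?_⟩
  by_cases hxZ : ∀ z ∈ Z, eval x z ≠ 0
  · have := hCx x hx hxZ hxL hxD
    linarith
  · push Not at hxZ
    obtain ⟨z, hz, hxz⟩ := hxZ
    have h1 := hCz ⟨z, hz⟩ x hx hxz hxL hxD
    have h2 := Finset.single_le_sum (f := fun z => Cz z) (fun z _ => hCz0 z)
      (Finset.mem_univ (⟨z, hz⟩ : {z // z ∈ Z}))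
    linarith

end

end Pool.Agent.H13.QP
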