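import Mathlib
import Pool.Agent.H13.QP.MainQ
import Pool.Agent.H13.WS.Line

/-!
The inequality for integral quadratic polynomials, if the points of the divisor generate different
fields.
-/

set_option autoImplicit false
set_option linter.unusedSectionVars false

namespace Pool.Agent.H13.QP

open Finset Module Polynomial
open NumberField IsDedekindDomain Height
open Pool.Agent.R405 (exv dot Good exists_good)
open Pool.Agent.W180.OP (Pl av wt nrm le_nrm nrm_pos nrm_nonneg nrm_le exists_nrm wt_nonneg fv lam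
  lam_eq)
open Pool.Agent.Y734.BR (Ab int_mem ab_nonempty)
open Pool.Agent.H990R4.VJ (mm one_le_mm coeff_le)
open Pool.Agent.H13.WS (rts mem_rts card_rts sepC Ix ev pv pw cf wt_inf av_inf fv_int fv_le_one
  logHeight_cf exists_M res_prod)

theorem quad_degQ (G : ℤ[X]) (hsep : Squarefree (G.map (Int.castRingHom ℚ)))
    (hq : 1 ≤ G.natDegree) (hrat : ∀ a : ℚ, aeval a G ≠ 0)
    (hgen : ∀ a b : ℂ, aeval a G = 0 → aeval b G = 0 → a ≠ b →
      IntermediateField.adjoin ℚ {a} ≠ IntermediateField.adjoin ℚ {b})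
    (S : Finset ℕ) (hS : ∀ p ∈ S, p.Prime) (ε : ℝ) (hε : 0 < ε) :
    ∃ C : ℝ, 0 ≤ C ∧ ∀ f : ℤ[X], f.IsPrimitive → f.natDegree = 2 →
      resultant f G 2 G.natDegree ≠ 0 → f.discr ≠ 0 →
      (G.natDegree + 1) * Real.log (mm f) -
        Real.log |((resultant f G 2 G.natDegree : ℤ) : ℝ)| +
        ∑ p ∈ S, (padicValInt p (resultant f G 2 G.natDegree) : ℝ) * Real.log p -
        1 / 2 * (Real.log |((f.discr : ℤ) : ℝ)| -
          ∑ p ∈ S, (padicValInt p f.discr : ℝ) * Real.log p) ≤
      (3 + ε) * Real.log (mm f) + C := by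
  classical
  have hG : G ≠ 0 := by
    rintro rfl
    simp at hq
  obtain ⟨M, hfd, hgal, hi, hM⟩ := exists_M G hG
  have : NumberField M := ⟨⟩
  -- the places
  have hvp : ∀ p : ℕ, ∃ v : HeightOneSpectrum (𝓞 ℚ), p.Prime → v ∈ Ab ℚ p := by
    intro p
    by_cases hp : p.Prime
    · obtain ⟨v, hv⟩ := ab_nonempty (L := ℚ) hp
      exact ⟨v, fun _ => hv⟩
    · obtain ⟨v, -⟩ := ab_nonempty (L := ℚ) Nat.prime_two
      exact ⟨v, fun h => absurd h hp⟩
  choose vp hvp using hvp
  set S' : Finset (Pl ℚ) := insert (Sum.inl Rat.infinitePlace) (S.image fun p => Sum.inr (vp p))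
    with hS'
  choose fa hfa using fun v : Pl ℚ => exists_good (K := M) v
  -- the points of the divisor
  set q := G.natDegree with hqd
  set al : {α : ℂ // α ∈ rts G} → M := fun α => ⟨α.1, hM α.1 α.2⟩ with hal
  have hne : Nonempty {α : ℂ // α ∈ rts G} := by
    have : 0 < (rts G).card := by rw [card_rts (sepC hsep)]; exact hq
    obtain ⟨α, hα⟩ := Finset.card_pos.1 this
    exact ⟨⟨α, hα⟩⟩
  have halinj : Function.Injective al := by
    intro a b h
    have := congrArg (Subtype.val : M → ℂ) h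
    exact Subtype.ext this
  have hirr : ∀ i, ∀ r : ℚ, algebraMap ℚ M r ≠ al i := by
    intro i r h
    have h1 := congrArg (algebraMap M ℂ) h
    rw [← IsScalarTower.algebraMap_apply ℚ M ℂ] at h1
    have h2 : algebraMap M ℂ (al i) = i.1 := rfl
    rw [h2] at h1
    have h3 := (mem_rts hG).1 i.2
    rw [← h1, Polynomial.aeval_algebraMap_apply] at h3
    exact hrat r ((map_eq_zero (algebraMap ℚ ℂ)).1 h3)
  have hoff : ∀ i j : {α : ℂ // α ∈ rts G}, i.1 ∉ IntermediateField.adjoin ℚ {j.1} →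
      Off (al j) (al i) := by
    intro i j hij r hr
    apply hij
    have h2 : algebraMap M ℂ (al i) = i.1 := rfl
    have h3 : algebraMap M ℂ (al j) = j.1 := rfl
    have h4 : algebraMap M ℂ (r : M) ∈
        (IntermediateField.adjoin ℚ {al j}).map (IsScalarTower.toAlgHom ℚ M ℂ) :=
      ⟨(r : M), r.2, rfl⟩
    rw [IntermediateField.adjoin_map, Set.image_singleton] at h4
    have h5 : (r : M) = al i := hr
    rw [h5, h2] at h4
    have h6 : (IsScalarTower.toAlgHom ℚ M ℂ) (al j) = j.1 := h3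
    rwa [h6] at h4
  have hgen' : ∀ i j, i ≠ j → Off (al i) (al j) ∨ Off (al j) (al i) := by
    intro i j hij
    by_contra h
    push Not at h
    have h1 : j.1 ∈ IntermediateField.adjoin ℚ {i.1} := by
      by_contra h1
      exact h.1 (hoff j i h1)
    have h2 : i.1 ∈ IntermediateField.adjoin ℚ {j.1} := by
      by_contra h1
      exact h.2 (hoff i j h1)
    refine hgen i.1 j.1 ((mem_rts hG).1 i.2) ((mem_rts hG).1 j.2)
      (fun h3 => hij (Subtype.ext h3)) (le_antisymm ?_ ?_)
    · rw [IntermediateField.adjoin_le_iff, Set.singleton_subset_iff]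
      exact h2
    · rw [IntermediateField.adjoin_le_iff, Set.singleton_subset_iff]
      exact h1
  obtain ⟨C, hC, hmain⟩ := main_ineqQ hi al halinj hirr hgen' S' fa (fun v _ => hfa v) ε hε
  -- conversion
  set lc : ℤ := G.leadingCoeff with hlc
  have hlc0 : lc ≠ 0 := leadingCoeff_ne_zero.2 hG
  set D : ℝ := (q + 1) * Real.log 3 + abs (2 * Real.log (abs (lc : ℝ))) +
    ∑ p ∈ S, 2 * ((padicValInt p lc : ℝ) * Real.log p) with hD
  have hlog0 : ∀ p ∈ S, 0 ≤ Real.log (p : ℝ) := fun p hp =>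
    Real.log_nonneg (by exact_mod_cast (hS p hp).one_le)
  have hlog3 : 0 ≤ Real.log (3 : ℝ) := Real.log_nonneg (by norm_num)
  have hlog2 : 0 ≤ Real.log (2 : ℝ) := Real.log_nonneg (by norm_num)
  have hD0 : 0 ≤ D := by
    have h2 : 0 ≤ ∑ p ∈ S, 2 * ((padicValInt p lc : ℝ) * Real.log p) :=
      Finset.sum_nonneg fun p hp => mul_nonneg (by norm_num)
        (mul_nonneg (Nat.cast_nonneg _) (hlog0 p hp))
    positivity
  refine ⟨C + (3 + ε) * (2 * Real.log 2) + D, by positivity, fun f hprim hdeg hres hdisc => ?_⟩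
  set x := cf f 2 with hx
  have hf0 : f ≠ 0 := by
    intro h
    have h1 := hprim.content_eq_one
    rw [h, content_zero] at h1
    exact zero_ne_one h1
  have hx0 : x ≠ 0 := by
    intro h
    have h1 := congrFun h (Fin.last 2)
    simp only [hx, cf, Fin.val_last, Pi.zero_apply] at h1
    have h2 : f.coeff 2 = 0 := by exact_mod_cast h1
    rw [← hdeg] at h2
    exact leadingCoeff_ne_zero.2 hf0 h2
  have hprod := res_prod (M := M) (q := q) hM hsep le_rfl f 2 hdeg.le
  have hresM : ((resultant f G 2 q : ℤ) : M) ≠ 0 := by exact_mod_cast hres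
  have hdotLa : ∀ i : {α : ℂ // α ∈ rts G}, dot (ev (q := q) hM 2 (Sum.inl i)) (exv M x) =
      MvPolynomial.eval (exv M x) (La (al i)) := by
    intro i
    rw [eval_La, dot, Fin.sum_univ_three]
    simp [ev, pv, pw, hal]
  have hdot0 : ∀ i, dot (ev (q := q) hM 2 i) (exv M x) ≠ 0 := by
    intro i h0
    apply hresM
    rw [hprod, Finset.prod_eq_zero (Finset.mem_univ i) h0, mul_zero]
  have hL0 : ∀ i, MvPolynomial.eval (exv M x) (La (al i)) ≠ 0 := fun i => by
    rw [← hdotLa]
    exact hdot0 _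
  have hprod' : ((resultant f G 2 q : ℤ) : M) = ((-1) ^ (2 * q) * (lc : M) ^ 2) *
      ∏ i : {α : ℂ // α ∈ rts G}, MvPolynomial.eval (exv M x) (La (al i)) := by
    rw [hprod, Fintype.prod_sum_type]
    have h1 : ∏ i : Fin (q - G.natDegree), dot (ev (q := q) hM 2 (Sum.inr i)) (exv M x) = 1 := by
      have : IsEmpty (Fin (q - G.natDegree)) := by
        rw [hqd, Nat.sub_self]
        infer_instance
      exact Fintype.prod_empty _
    rw [h1, mul_one, Finset.prod_congr rfl fun i _ => hdotLa i]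
  have hDe : MvPolynomial.eval (exv M x) (De M) = ((f.discr : ℤ) : M) := by
    rw [eval_De, discr_of_degree_eq_two (by
      rw [degree_eq_natDegree hf0, hdeg]
      rfl)]
    have h1 : ∀ j : Fin 3, exv M x j = ((f.coeff j.val : ℤ) : M) := by
      intro j
      show algebraMap ℚ M ((f.coeff j.val : ℤ) : ℚ) = _
      rw [map_intCast]
    rw [h1, h1, h1]
    push_cast
    show ((f.coeff 1 : ℤ) : M) ^ 2 - 4 * (((f.coeff 0 : ℤ) : M) * ((f.coeff 2 : ℤ) : M)) = _
    ring
  have hD0' : MvPolynomial.eval (exv M x) (De M) ≠ 0 := by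
    rw [hDe]
    exact_mod_cast hdisc
  have h1 := hmain x hx0 hL0 hD0'
  -- one place
  have hplace : ∀ v : Pl ℚ, ∑ i, lam (fa v) 1 (La (al i)) (exv M x) =
      q * Real.log (nrm (av v) x) -
      Real.log (av v ((resultant f G 2 q : ℤ) : ℚ)) + 2 * Real.log (av v (lc : ℚ)) := by
    intro v
    have e1 : fa v ((resultant f G 2 q : ℤ) : M) = av v ((resultant f G 2 q : ℤ) : ℚ) := by
      have := (hfa v).ext ((resultant f G 2 q : ℤ) : ℚ)
      rwa [map_intCast] at this
    have e2 : fa v ((lc : ℤ) : M) = av v ((lc : ℤ) : ℚ) := by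
      have := (hfa v).ext ((lc : ℤ) : ℚ)
      rwa [map_intCast] at this
    have e3 : fa v ((resultant f G 2 q : ℤ) : M) = fa v (lc : M) ^ 2 *
        ∏ i, fa v (MvPolynomial.eval (exv M x) (La (al i))) := by
      rw [hprod', map_mul, map_mul, map_pow, map_pow, map_prod, AbsoluteValue.map_neg, map_one,
        one_pow, one_mul]
    have hlcM : (lc : M) ≠ 0 := by exact_mod_cast hlc0
    have hl1 : 0 < fa v (lc : M) := (fa v).pos_iff.2 hlcM
    have hl2 : ∀ i, 0 < fa v (MvPolynomial.eval (exv M x) (La (al i))) :=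
      fun i => (fa v).pos_iff.2 (hL0 i)
    have e4 : Real.log (av v ((resultant f G 2 q : ℤ) : ℚ)) = 2 * Real.log (av v (lc : ℚ)) +
        ∑ i, Real.log (fa v (MvPolynomial.eval (exv M x) (La (al i)))) := by
      rw [← e1, e3, Real.log_mul (pow_pos hl1 _).ne' (Finset.prod_pos fun i _ => hl2 i).ne',
        Real.log_pow, Real.log_prod fun i _ => (hl2 i).ne', e2]
      push_cast
      ring
    have e5 : (Fintype.card {α : ℂ // α ∈ rts G} : ℝ) = q := by
      rw [Fintype.card_coe, card_rts (sepC hsep)]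
    have e6 : ∀ i, lam (fa v) 1 (La (al i)) (exv M x) = Real.log (nrm (av v) x) -
        Real.log (fa v (MvPolynomial.eval (exv M x) (La (al i)))) := by
      intro i
      rw [lam_eq (fa v) _ _ (exv_ne' hx0) (hL0 i), nrm_exv (hfa v)]
      push_cast
      ring
    rw [Finset.sum_congr rfl fun i _ => e6 i, Finset.sum_sub_distrib, Finset.sum_const,
      Finset.card_univ, nsmul_eq_mul, e5, e4]
    ring
  have hplaceW : ∀ v : Pl ℚ, lam (fa v) 2 (De M) (exv M x) =
      2 * Real.log (nrm (av v) x) - Real.log (av v ((f.discr : ℤ) : ℚ)) := by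
    intro v
    have e1 : fa v ((f.discr : ℤ) : M) = av v ((f.discr : ℤ) : ℚ) := by
      have := (hfa v).ext ((f.discr : ℤ) : ℚ)
      rwa [map_intCast] at this
    rw [lam_eq (fa v) _ _ (exv_ne' hx0) hD0', nrm_exv (hfa v), hDe, e1]
    push_cast
    ring
  have hSnot : (Sum.inl Rat.infinitePlace : Pl ℚ) ∉ S.image fun p => (Sum.inr (vp p) : Pl ℚ) := by
    intro h
    obtain ⟨p, -, h⟩ := Finset.mem_image.1 h
    exact Sum.inr_ne_inl h
  have hvinj : ∀ p ∈ S, ∀ p' ∈ S, (Sum.inr (vp p) : Pl ℚ) = Sum.inr (vp p') → p = p' := by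
    intro p hp p' hp' h
    have h2 := Sum.inr.inj h
    have h3 := hvp p (hS p hp)
    rw [h2] at h3
    exact Pool.Agent.Y734.BR.ab_disj (hS p hp) (hS p' hp') h3 (hvp p' (hS p' hp'))
  have hnp : ∀ p ∈ S, nrm (av (Sum.inr (vp p) : Pl ℚ)) x = 1 := by
    intro p hp
    apply le_antisymm
    · exact nrm_le zero_le_one fun j => fv_le_one _ _
    · obtain ⟨i, hi⟩ := Pool.Agent.H990R4.VJ.Red.prim_at f 2 hdeg.le hprim p (hS p hp)
      have h4 : (f.coeff i : 𝓞 ℚ) ∉ (vp p).asIdeal :=
        fun h => hi ((int_mem (hS p hp) (hvp p (hS p hp)) _).1 h)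
      have h5 : fv (vp p) ((f.coeff i : ℤ) : ℚ) = 1 := Pool.Agent.Y734.BR.mk_eq_one.2 h4
      rw [← h5]
      exact le_nrm (av (Sum.inr (vp p) : Pl ℚ)) x i
  have hPA : PA S' fa al x = q * Real.log (nrm (av (Sum.inl Rat.infinitePlace : Pl ℚ)) x) -
      Real.log |((resultant f G 2 q : ℤ) : ℝ)| + 2 * Real.log |(lc : ℝ)| +
      ((∑ p ∈ S, (padicValInt p (resultant f G 2 q) : ℝ) * Real.log p) -
        ∑ p ∈ S, 2 * ((padicValInt p lc : ℝ) * Real.log p)) := by
    unfold PA
    rw [hS', Finset.sum_insert hSnot,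
      Finset.sum_image (fun p hp p' hp' h => hvinj p hp p' hp' h)]
    simp only [hplace]
    rw [wt_inf, one_mul, av_inf, av_inf, Rat.cast_intCast, Rat.cast_intCast]
    congr 1
    rw [← Finset.sum_sub_distrib]
    refine Finset.sum_congr rfl fun p hp => ?_
    have e0 : wt (Sum.inr (vp p) : Pl ℚ) = 1 := rfl
    have e1 : Real.log (av (Sum.inr (vp p)) ((resultant f G 2 q : ℤ) : ℚ)) =
        - ((padicValInt p (resultant f G 2 q) : ℝ) * Real.log p) :=
      fv_int (hS p hp) (hvp p (hS p hp)) _ hres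
    have e2 : Real.log (av (Sum.inr (vp p)) ((lc : ℤ) : ℚ)) =
        - ((padicValInt p lc : ℝ) * Real.log p) :=
      fv_int (hS p hp) (hvp p (hS p hp)) _ hlc0
    rw [e0, e1, e2, hnp p hp, Real.log_one]
    ring
  have hPW : PW S' fa x = 2 * Real.log (nrm (av (Sum.inl Rat.infinitePlace : Pl ℚ)) x) -
      (Real.log |((f.discr : ℤ) : ℝ)| - ∑ p ∈ S, (padicValInt p f.discr : ℝ) * Real.log p) := by
    unfold PW
    rw [hS', Finset.sum_insert hSnot,
      Finset.sum_image (fun p hp p' hp' h => hvinj p hp p' hp' h)]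
    simp only [hplaceW]
    rw [wt_inf, one_mul, av_inf, Rat.cast_intCast]
    have e3 : ∑ p ∈ S, wt (Sum.inr (vp p) : Pl ℚ) *
        (2 * Real.log (nrm (av (Sum.inr (vp p))) x) -
          Real.log (av (Sum.inr (vp p)) ((f.discr : ℤ) : ℚ))) =
        ∑ p ∈ S, (padicValInt p f.discr : ℝ) * Real.log p := by
      refine Finset.sum_congr rfl fun p hp => ?_
      have e0 : wt (Sum.inr (vp p) : Pl ℚ) = 1 := rfl
      have e1 : Real.log (av (Sum.inr (vp p)) ((f.discr : ℤ) : ℚ)) =
          - ((padicValInt p f.discr : ℝ) * Real.log p) :=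
        fv_int (hS p hp) (hvp p (hS p hp)) _ hdisc
      rw [e0, e1, hnp p hp, Real.log_one]
      ring
    rw [e3]
    ring
  rw [hPA, hPW] at h1
  -- heights
  have hmm1 : 1 ≤ mm f := one_le_mm hf0
  have hmmpos : 0 < mm f := by linarith
  have hnrmpos := nrm_pos (av (Sum.inl Rat.infinitePlace : Pl ℚ)) hx0
  have hH1 : Real.log (nrm (av (Sum.inl Rat.infinitePlace : Pl ℚ)) x) ≤
      2 * Real.log 2 + Real.log (mm f) := by
    have e0 : (2 : ℝ) * Real.log 2 = ((2 : ℕ) : ℝ) * Real.log 2 := by norm_num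
    rw [e0, ← Real.log_pow, ← Real.log_mul (by positivity) hmmpos.ne']
    refine Real.log_le_log hnrmpos (nrm_le (by positivity) fun j => ?_)
    rw [av_inf]
    have := coeff_le f j.val
    rw [hdeg] at this
    simpa [hx, cf] using this
  have hH2 : Real.log (mm f) ≤ Real.log 3 +
      Real.log (nrm (av (Sum.inl Rat.infinitePlace : Pl ℚ)) x) := by
    rw [← Real.log_mul (by positivity) hnrmpos.ne']
    refine Real.log_le_log hmmpos ?_
    have e1 := mahlerMeasure_le_sum_norm_coeff (f.map (Int.castRingHom ℂ))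
    rw [sum_over_range' _ (by simp) (2 + 1) (by
      rw [natDegree_map_eq_of_injective (RingHom.injective_int _)]; omega)] at e1
    refine e1.trans ?_
    have e2 : ∑ a ∈ range (2 + 1), ‖(f.map (Int.castRingHom ℂ)).coeff a‖ ≤
        ∑ _a ∈ range (2 + 1), nrm (av (Sum.inl Rat.infinitePlace : Pl ℚ)) x := by
      refine Finset.sum_le_sum fun a ha => ?_
      rw [coeff_map]
      have e3 := le_nrm (av (Sum.inl Rat.infinitePlace : Pl ℚ)) x ⟨a, Finset.mem_range.1 ha⟩
      rw [av_inf] at e3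
      simpa [hx, cf] using e3
    rw [Finset.sum_const, Finset.card_range, nsmul_eq_mul] at e2
    push_cast at e2
    linarith
  have hH3 := (logHeight_cf f 2 hx0).trans hH1
  have h2 : (3 + ε) * logHeight x ≤ (3 + ε) * (2 * Real.log 2 + Real.log (mm f)) :=
    mul_le_mul_of_nonneg_left hH3 (by positivity)
  have h3 : ((q : ℝ) + 1) * Real.log (mm f) ≤ (q + 1) * (Real.log 3 +
      Real.log (nrm (av (Sum.inl Rat.infinitePlace : Pl ℚ)) x)) :=
    mul_le_mul_of_nonneg_left hH2 (by positivity)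
  have h4 := neg_abs_le (2 * Real.log |(lc : ℝ)|)
  linarith

end Pool.Agent.H13.QP
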